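import Pool.Agent.Lib.Pad47bbB.AlgExp

/-!
Closed cones invariant under a multiplicative group of maximal rank contain the image of the
exponential map.
-/

open NormedSpace Filter Topology

namespace Pool.Agent.Lib.Pad47bbB

open Pool.Agent.Lib.Pad47bb

variable {R : Type*} [NormedCommRing R] [NormedAlgebra ℝ R] [FiniteDimensional ℝ R]

theorem exp_sub_one_nil {ν : R} (hν : ν ∈ nilradical R) : exp ν - 1 ∈ nilradical R := by
  have h1 := exp_sub_mem (nilradical R) (x := ν) (by
    rw [pow_two]; exact Ideal.mul_mem_left _ _ hν)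
  have h2 := Ideal.add_mem _ h1 hν
  rwa [sub_add_cancel] at h2

theorem logDet_nil {ν : R} (hν : ν ∈ nilradical R) : logDet R ν = 0 := by
  have h1 : exp ν = 1 + (exp ν - 1) := by abel
  rw [logDet_apply, h1, mdet_one_add_nilpotent (exp_sub_one_nil hν), Real.log_one]

variable {L : Submodule ℤ R} [DiscreteTopology L] [IsZLattice ℝ L] {ι : Type*} [Fintype ι]
  {lam : ι → R}

/-- All nilpotent elements are in the cone. -/
theorem nil_mem (h : MaxRank L lam) {C : PointedCone ℝ R} (hcl : IsClosed (C : Set R))
    (h1 : (1 : R) ∈ C) (hC : ∀ i, lam i ∈ coneLat C) {ν : R} (hν : ν ∈ nilradical R) : ν ∈ C := by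
  have : IsNoetherianRing R := IsNoetherianRing.of_finite ℝ R
  obtain ⟨K, hK⟩ := IsNoetherianRing.isNilpotent_nilradical R
  have key : ∀ j k : ℕ, 1 ≤ k → K ≤ k + j → ∀ ν ∈ nilradical R ^ k, ν ∈ C := by
    intro j
    induction j with
    | zero =>
      intro k _ hk ν hν
      have h1 : ν ∈ nilradical R ^ K := Ideal.pow_le_pow_right (by omega) hν
      rw [hK] at h1
      have h2 : ν = 0 := h1
      rw [h2]
      exact C.zero_mem
    | succ j ih =>
      intro k hk1 hk ν hν
      have hν1 : ν ∈ nilradical R := by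
        have := Ideal.pow_le_pow_right hk1 hν
        rwa [pow_one] at this
      have hle : ∀ z ∈ nilradical R ^ (k + 1), z ∈ C := ih (k + 1) (by omega) (by omega)
      have hsq : ν ^ 2 ∈ nilradical R ^ (k + 1) := by
        have h1 : ν ^ 2 ∈ (nilradical R ^ k) ^ 2 := Ideal.pow_mem_pow hν 2
        rw [← pow_mul] at h1
        exact Ideal.pow_le_pow_right (by omega) h1
      obtain ⟨τ, β, hτ, hβ, hmem⟩ := h.exists_seq (logDet_nil hν1)
      have h2 : ∀ᶠ n in atTop, (τ n)⁻¹ • (exp (β n)) + exp (β n) * ν ∈ (C : Set R) := by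
        filter_upwards [hτ.eventually_gt_atTop 0] with n hn
        have h3 := coneLat_span hC (hmem n) h1
        rw [mul_one, ex_add] at h3
        have h4 : exp (τ n • ν) - 1 - τ n • ν ∈ nilradical R ^ (k + 1) := by
          apply exp_sub_mem
          rw [smul_pow]
          exact ((nilradical R ^ (k + 1)).restrictScalars ℝ).smul_mem _ hsq
        set z := exp (τ n • ν) - 1 - τ n • ν with hz
        have h5 : -(z * exp (β n)) ∈ C :=
          hle _ ((nilradical R ^ (k + 1)).neg_mem (Ideal.mul_mem_right _ _ h4))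
        have h6 := C.add_mem h3 h5
        have h7 : exp (τ n • ν) * exp (β n) + -(z * exp (β n)) =
            (1 + τ n • ν) * exp (β n) := by rw [hz]; ring
        rw [h7] at h6
        have h8 := C.smul_mem (r := (τ n)⁻¹) (by positivity) h6
        have h9 : (τ n)⁻¹ • ((1 + τ n • ν) * exp (β n)) =
            (τ n)⁻¹ • (exp (β n)) + exp (β n) * ν := by
          rw [add_mul, one_mul, smul_add, smul_mul_assoc, smul_smul, inv_mul_cancel₀ hn.ne',
            one_smul, mul_comm ν]
        rw [h9] at h8
        exact h8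
      have h3 : Tendsto (fun n => (τ n)⁻¹ • (exp (β n)) + exp (β n) * ν) atTop (𝓝 ν) := by
        have h4 : Tendsto (fun n => exp (β n)) atTop (𝓝 1) := by
          have := (ex_cont (R := R)).continuousAt (x := (0 : R))
          rw [ContinuousAt, exp_zero] at this
          exact this.comp hβ
        have h5 : Tendsto (fun n => (τ n)⁻¹) atTop (𝓝 0) := hτ.inv_tendsto_atTop
        have h6 := (h5.smul h4).add (h4.mul_const ν)
        simpa using h6
      exact hcl.mem_of_tendsto h3 h2
  exact key K 1 le_rfl (by omega) ν (by rwa [pow_one])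

theorem alg_exp_real {J : Type*} (E : R →ₐ[ℝ] (J → ℝ)) (x : R) (j : J) :
    E (exp x) j = Real.exp (E x j) := by
  let _ : NormedAlgebra ℚ R := NormedAlgebra.restrictScalars ℚ ℝ R
  have _ : CompleteSpace R := FiniteDimensional.complete ℝ R
  let φ : R →ₐ[ℝ] ℝ := (Pi.evalAlgHom ℝ (fun _ : J => ℝ) j).comp E
  have hc : Continuous φ := φ.toLinearMap.continuous_of_finiteDimensional
  rw [Real.exp_eq_exp_ℝ]
  exact map_exp φ hc x

/-- The image of the exponential map is in the cone. -/
theorem exp_mem (h : MaxRank L lam) {C : PointedCone ℝ R} (hcl : IsClosed (C : Set R))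
    (h1 : (1 : R) ∈ C) (hC : ∀ i, lam i ∈ coneLat C) (y : R) : exp y ∈ C := by
  classical
  have := h.nontrivial
  obtain ⟨J, iJ, E, hE, hker⟩ := exists_split_nil (R := R) (fun κ hκ => h.exp_inj hκ)
  have hEc : Continuous E := E.toLinearMap.continuous_of_finiteDimensional
  have hnil : ∀ ν ∈ nilradical R, ν ∈ C := fun ν hν => nil_mem h hcl h1 hC hν
  -- a linear section
  obtain ⟨s, hs⟩ := E.toLinearMap.exists_rightInverse_of_surjective
    (LinearMap.range_eq_top.2 hE)
  have hs' : ∀ v, E (s v) = v := fun v => LinearMap.congr_fun hs v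
  have hsc : Continuous s := s.continuous_of_finiteDimensional
  have hCs : ∀ x ∈ C, s (E x) ∈ C := by
    intro x hx
    have h2 : s (E x) - x ∈ nilradical R := by
      rw [← hker, map_sub, hs', sub_self]
    have h3 := C.add_mem hx (hnil _ h2)
    rwa [add_sub_cancel] at h3
  -- the idempotents
  have hidem : ∀ j : J, s (Pi.single j 1) ∈ C := by
    intro j
    set h' : R := s (Pi.single j 1) with hh'
    set c : ℝ := logDet R h' / logDet R 1 with hc
    set x : R := h' - c • 1 with hx
    have hx0 : logDet R x = 0 := by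
      rw [hx, map_sub, map_smul, smul_eq_mul, hc, div_mul_cancel₀ _ logDet_one, sub_self]
    have hEx : ∀ i, E x i = (if i = j then 1 else 0) - c := by
      intro i
      rw [hx, map_sub, map_smul, map_one, hh', hs']
      simp [Pi.single_apply]
    obtain ⟨τ, β, hτ, hβ, hmem⟩ := h.exists_seq hx0
    have h2 : ∀ n, s (Real.exp (-(τ n * (1 - c))) • E (exp (τ n • x + β n))) ∈ (C : Set R) := by
      intro n
      have h3 := coneLat_span hC (hmem n) h1
      rw [mul_one] at h3
      have h4 := C.smul_mem (Real.exp_pos (-(τ n * (1 - c)))).le (hCs _ h3)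
      rw [map_smul]
      exact h4
    have h3 : Tendsto (fun n => Real.exp (-(τ n * (1 - c))) • E (exp (τ n • x + β n))) atTop
        (𝓝 (Pi.single j 1)) := by
      rw [tendsto_pi_nhds]
      intro i
      have hβi : Tendsto (fun n => E (β n) i) atTop (𝓝 0) := by
        have h4 : Tendsto (fun n => E (β n)) atTop (𝓝 (E 0)) := (hEc.tendsto 0).comp hβ
        rw [map_zero] at h4
        exact (tendsto_pi_nhds.1 h4) i
      have h5 : ∀ n, (Real.exp (-(τ n * (1 - c))) • E (exp (τ n • x + β n))) i =
          Real.exp (-(τ n * (1 - if i = j then 1 else 0)) + E (β n) i) := by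
        intro n
        rw [Pi.smul_apply, alg_exp_real, smul_eq_mul, ← Real.exp_add, map_add, map_smul,
          Pi.add_apply, Pi.smul_apply, hEx, smul_eq_mul]
        congr 1
        ring
      simp only [h5]
      by_cases hij : i = j
      · subst hij
        rw [Pi.single_eq_same]
        simp only [if_true, sub_self, mul_zero, neg_zero, zero_add]
        have := (Real.continuous_exp.tendsto 0).comp hβi
        rwa [Real.exp_zero] at this
      · rw [Pi.single_eq_of_ne hij]
        simp only [if_neg hij, sub_zero, mul_one]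
        refine Real.tendsto_exp_atBot.comp ?_
        exact (tendsto_neg_atTop_atBot.comp hτ).atBot_add hβi
    have h4 : Tendsto (fun n => s (Real.exp (-(τ n * (1 - c))) • E (exp (τ n • x + β n)))) atTop
        (𝓝 (s (Pi.single j 1))) := (hsc.tendsto _).comp h3
    exact hcl.mem_of_tendsto h4 (Eventually.of_forall h2)
  -- conclusion
  have h2 : s (E (exp y)) ∈ C := by
    have h3 : E (exp y) = ∑ j, Real.exp (E y j) • (Pi.single j (1 : ℝ) : J → ℝ) := by
      funext i
      rw [alg_exp_real, Finset.sum_apply, Finset.sum_eq_single i]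
      · simp
      · intro j _ hji
        simp [Ne.symm hji]
      · simp
    rw [h3, map_sum]
    refine C.sum_mem fun j _ => ?_
    rw [map_smul]
    exact C.smul_mem (Real.exp_pos _).le (hidem j)
  have h3 : exp y - s (E (exp y)) ∈ nilradical R := by
    rw [← hker, map_sub, hs', sub_self]
  have h4 := C.add_mem h2 (hnil _ h3)
  rwa [add_sub_cancel] at h4

/-- Square roots of one: there are only finitely many. -/
theorem finite_sqrt_one (hinj : ∀ κ : R, exp κ = 1 → κ = 0) : {σ : R | σ ^ 2 = 1}.Finite := by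
  classical
  obtain ⟨J, iJ, E, hE, hker⟩ := exists_split_nil hinj
  have hfin : (Set.pi Set.univ (fun _ : J => ({1, -1} : Set ℝ))).Finite :=
    Set.Finite.pi fun _ => (Set.finite_singleton (-1 : ℝ)).insert 1
  refine Set.Finite.of_finite_image (f := E) (hfin.subset ?_) ?_
  · rintro _ ⟨σ, hσ, rfl⟩ j _
    have h1 : E σ j ^ 2 = 1 := by
      have h2 : E (σ ^ 2) j = 1 := by
        have h3 : σ ^ 2 = 1 := hσ
        rw [h3, map_one]; rfl
      rwa [map_pow, Pi.pow_apply] at h2
    have h2 : (E σ j - 1) * (E σ j + 1) = 0 := by ring_nf; rw [h1]; ring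
    rcases mul_eq_zero.1 h2 with h | h
    · exact Or.inl (sub_eq_zero.1 h)
    · exact Or.inr (eq_neg_of_add_eq_zero_left h)
  · intro σ hσ σ' hσ' hE'
    have h1 : σ ^ 2 = 1 := hσ
    have h2 : σ' ^ 2 = 1 := hσ'
    have h3 : σ - σ' ∈ nilradical R := by rw [← hker, map_sub, hE', sub_self]
    have h4 : (σ - σ') * (σ + σ') = 0 := by ring_nf; rw [h1, h2]; ring
    have h5 : IsUnit (σ + σ') := by
      have h6 : σ + σ' = 2 * σ - (σ - σ') := by ring
      rw [h6]
      have h7 : IsUnit (2 * σ) := by
        refine IsUnit.of_mul_eq_one ((1 / 2 : ℝ) • σ) ?_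
        rw [mul_smul_comm, mul_assoc, ← pow_two, h1, mul_one]
        rw [← map_ofNat (algebraMap ℝ R) 2, Algebra.smul_def, ← map_mul]
        norm_num
      rw [sub_eq_add_neg]
      exact IsNilpotent.isUnit_add_left_of_commute (IsNilpotent.neg h3) h7 (Commute.all _ _)
    exact sub_eq_zero.1 ((h5.mul_left_eq_zero).1 h4)

end Pool.Agent.Lib.Pad47bbB
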