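import Pool.Agent.Lib.Pad47bbB.AlgCone

/-!
The units in the interior of an invariant cone, modulo the group and scaling, are in a compact
subset of the interior.
-/

open NormedSpace Filter Topology

namespace Pool.Agent.Lib.Pad47bbB

open Pool.Agent.Lib.Pad47bb

variable {R : Type*} [NormedCommRing R] [NormedAlgebra ℝ R] [FiniteDimensional ℝ R]

omit [FiniteDimensional ℝ R] in
theorem exp_smul_one (m : ℝ) : exp (m • (1 : R)) = Real.exp m • 1 := by
  have h := algebraMap_exp_comm (𝕂 := ℝ) (𝔸 := R) m
  rw [Algebra.algebraMap_eq_smul_one, Algebra.algebraMap_eq_smul_one] at h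
  rw [← h, Real.exp_eq_exp_ℝ]

variable {L : Submodule ℤ R} [DiscreteTopology L] [IsZLattice ℝ L] {ι : Type*} [Fintype ι]
  {lam : ι → R}

/-- A closed invariant cone is invariant under the image of the exponential map. -/
theorem exp_mul_mem (h : MaxRank L lam) {C : PointedCone ℝ R} (hcl : IsClosed (C : Set R))
    (hC : ∀ i, lam i ∈ coneLat C) (y : R) {u : R} (hu : u ∈ C) : exp y * u ∈ C := by
  let f : R →ₗ[ℝ] R := LinearMap.mulRight ℝ u
  have hf : ∀ r, f r = r * u := fun r => rfl
  let C' : PointedCone ℝ R := PointedCone.comap f C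
  have hC' : ∀ r, r ∈ C' ↔ r * u ∈ C := fun r => Iff.rfl
  have hcl' : IsClosed (C' : Set R) := hcl.preimage (f.continuous_of_finiteDimensional)
  have h1 : (1 : R) ∈ C' := by rw [hC', one_mul]; exact hu
  have h2 : ∀ i, lam i ∈ coneLat C' := by
    intro i
    refine ⟨fun x hx => ?_, fun x hx => ?_⟩
    · rw [hC', mul_assoc]
      exact (hC i).1 _ ((hC' x).1 hx)
    · rw [hC', mul_assoc]
      exact (hC i).2 _ ((hC' x).1 hx)
  exact (hC' _).1 (exp_mem h hcl' h1 h2 y)

/-- Hence so is the interior of an invariant cone. -/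
theorem exp_mul_interior (h : MaxRank L lam) {K : PointedCone ℝ R}
    (hint : (interior (K : Set R)).Nonempty) (hK : ∀ i, lam i ∈ coneLat K) (y : R) {u : R}
    (hu : u ∈ interior (K : Set R)) : exp y * u ∈ interior (K : Set R) := by
  let C : PointedCone ℝ R := PointedCone.closure K
  have hCK : (C : Set R) = closure (K : Set R) := rfl
  have hcl : IsClosed (C : Set R) := isClosed_closure
  have hconv : Convex ℝ (K : Set R) := K.convex
  have hintC : interior (C : Set R) = interior (K : Set R) :=
    hconv.interior_closure_eq_interior_of_nonempty_interior hint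
  have hC : ∀ i, lam i ∈ coneLat C := by
    intro i
    refine ⟨fun x hx => ?_, fun x hx => ?_⟩
    · have h1 : Set.MapsTo (fun r : R => exp (lam i) * r) (K : Set R) K := fun r hr => (hK i).1 r hr
      exact h1.closure (continuous_const.mul continuous_id) hx
    · have h1 : Set.MapsTo (fun r : R => exp (-lam i) * r) (K : Set R) K := fun r hr => (hK i).2 r hr
      exact h1.closure (continuous_const.mul continuous_id) hx
  rw [← hintC] at hu ⊢
  rw [mem_interior]
  refine ⟨(fun r => exp (-y) * r) ⁻¹' interior (C : Set R), ?_,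
    isOpen_interior.preimage (continuous_const.mul continuous_id), ?_⟩
  · intro r hr
    have h1 : exp (-y) * r ∈ C := interior_subset hr
    have h2 := exp_mul_mem h hcl hC y h1
    rwa [← mul_assoc, ex_mul_neg, one_mul] at h2
  · show exp (-y) * (exp y * u) ∈ interior (C : Set R)
    rw [← mul_assoc, mul_comm (exp (-y)), ex_mul_neg, one_mul]
    exact hu

/-- The units of the interior are, modulo the group and scaling, in a compact subset. -/
theorem cover_units (h : MaxRank L lam) {K : PointedCone ℝ R}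
    (hint : (interior (K : Set R)).Nonempty) (hK : ∀ i, lam i ∈ coneLat K) :
    ∃ Q : Set R, IsCompact Q ∧ Q ⊆ interior (K : Set R) ∧
      ∀ u ∈ interior (K : Set R), (∃ u', u * u' = 1) → ∃ c : ℝ, 0 < c ∧
        ∃ s ∈ Submodule.span ℤ (Set.range lam), ∃ q ∈ Q, u = c • (exp s * q) := by
  classical
  have := h.nontrivial
  have hfin : ({σ : R | σ ^ 2 = 1} ∩ interior (K : Set R)).Finite :=
    (finite_sqrt_one (fun κ hκ => h.exp_inj hκ)).inter_of_left _
  let f : R → (ι → ℝ) → R := fun σ t => exp (∑ i, t i • lam i) * σ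
  have hf : ∀ σ, Continuous (f σ) := by
    intro σ
    refine (ex_cont.comp ?_).mul continuous_const
    exact continuous_finsetSum _ fun i _ => (continuous_apply i).smul continuous_const
  refine ⟨⋃ σ ∈ {σ : R | σ ^ 2 = 1} ∩ interior (K : Set R), f σ '' Set.Icc 0 1,
    hfin.isCompact_biUnion fun σ _ => isCompact_Icc.image (hf σ), ?_, ?_⟩
  · intro q hq
    simp only [Set.mem_iUnion] at hq
    obtain ⟨σ, hσ, t, -, rfl⟩ := hq
    exact exp_mul_interior h hint hK _ hσ.2
  · rintro u hu ⟨u', huu⟩
    obtain ⟨s, hs⟩ := exists_log_sq u u' huu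
    set y : R := (1 / 2 : ℝ) • s with hy
    have hyy : y + y = s := by
      rw [hy, ← two_smul ℝ, smul_smul]
      norm_num
    set σ : R := exp (-y) * u with hσ
    have hσ2 : σ ^ 2 = 1 := by
      have h1 : exp (-y) * exp (-y) = exp (-s) := by rw [← ex_add, ← neg_add, hyy]
      calc σ ^ 2 = (exp (-y) * exp (-y)) * u ^ 2 := by rw [hσ]; ring
        _ = exp (-s) * exp s := by rw [h1, hs]
        _ = 1 := by rw [mul_comm, ex_mul_neg]
    have hσi : σ ∈ interior (K : Set R) := exp_mul_interior h hint hK _ hu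
    have hu2 : u = exp y * σ := by
      rw [hσ, ← mul_assoc, ex_mul_neg, one_mul]
    set m : ℝ := logDet R y / logDet R 1 with hm
    have hm1 : logDet R (m • (1 : R)) = logDet R y := by
      rw [map_smul, smul_eq_mul, hm, div_mul_cancel₀ _ logDet_one]
    have hm0 : logDet R (y - m • 1) = 0 := by
      rw [map_sub, hm1, sub_self]
    obtain ⟨c, hc⟩ := h.mem_span hm0
    refine ⟨Real.exp m, Real.exp_pos m, ∑ i, ⌊c i⌋ • lam i, ?_, f σ fun i => Int.fract (c i),
      ?_, ?_⟩
    · exact Submodule.sum_mem _ fun i _ =>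
        Submodule.smul_mem _ _ (Submodule.subset_span ⟨i, rfl⟩)
    · exact Set.mem_biUnion (x := σ) ⟨hσ2, hσi⟩
        ⟨_, ⟨fun i => Int.fract_nonneg _, fun i => (Int.fract_lt_one _).le⟩, rfl⟩
    · have h1 : ∑ i, ⌊c i⌋ • lam i + ∑ i, Int.fract (c i) • lam i = y - m • 1 := by
        rw [← hc, ← Finset.sum_add_distrib]
        refine Finset.sum_congr rfl fun i _ => ?_
        rw [← Int.cast_smul_eq_zsmul ℝ, ← add_smul, Int.floor_add_fract]
      show u = Real.exp m • (exp (∑ i, ⌊c i⌋ • lam i) *
        (exp (∑ i, Int.fract (c i) • lam i) * σ))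
      rw [← mul_assoc, ← ex_add, h1]
      have h3 : Real.exp m • (exp (y - m • (1 : R)) * σ) =
          (exp (m • (1 : R)) * exp (y - m • (1 : R))) * σ := by
        rw [exp_smul_one, smul_mul_assoc, smul_mul_assoc, one_mul]
      rw [h3, ← ex_add, add_sub_cancel, ← hu2]

/-- Adding a multiple of the identity gives a unit, with finitely many exceptions. -/
theorem finite_nonunit (r : R) : {ε : ℝ | ¬ ∃ u', (r + ε • 1) * u' = 1}.Finite := by
  classical
  let B := Module.finBasis ℝ R
  let M := LinearMap.toMatrix B B (LinearMap.mulLeft ℝ (-r))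
  have h1 : ∀ ε : ℝ, M.charpoly.eval ε = (LinearMap.mulLeft ℝ (r + ε • 1)).det := by
    intro ε
    rw [Matrix.eval_charpoly, ← LinearMap.det_toMatrix B]
    congr 1
    have h2 : LinearMap.mulLeft ℝ (r + ε • (1 : R)) = ε • LinearMap.id - LinearMap.mulLeft ℝ (-r) := by
      ext z
      simp [add_mul]
      abel
    rw [h2, map_sub, map_smul, LinearMap.toMatrix_id]
    congr 1
    rw [Matrix.smul_one_eq_diagonal]
    rfl
  have h2 : {ε : ℝ | M.charpoly.eval ε = 0}.Finite := by
    refine (M.charpoly.roots.toFinset.finite_toSet).subset ?_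
    intro ε hε
    simp only [Finset.mem_coe, Multiset.mem_toFinset, Polynomial.mem_roots', ne_eq]
    exact ⟨M.charpoly_monic.ne_zero, hε⟩
  refine h2.subset ?_
  intro ε hε
  by_contra h3
  apply hε
  apply isUnit_of_det
  rw [← h1]
  exact h3

end Pool.Agent.Lib.Pad47bbB
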