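import Pool.Agent.Lib.Pad47bb.Orthant

/-!
Closed cones in a finite-dimensional commutative real algebra which are invariant under a
multiplicative group of maximal rank are invariant under the image of the exponential map. No
salience is assumed, and the algebra may contain nilpotent elements.
-/

open NormedSpace Filter Topology

namespace Pool.Agent.Lib.Pad47bbB

open Pool.Agent.Lib.Pad47bb

variable {R : Type*} [NormedCommRing R] [NormedAlgebra ℝ R] [FiniteDimensional ℝ R]

theorem isClosed_ideal (I : Ideal R) : IsClosed (I : Set R) :=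
  Submodule.closed_of_finiteDimensional (I.restrictScalars ℝ)

/-- The exponential modulo an ideal containing the square. -/
theorem exp_sub_mem (I : Ideal R) {x : R} (hx : x ^ 2 ∈ I) : exp x - 1 - x ∈ I := by
  let _ : NormedAlgebra ℚ R := NormedAlgebra.restrictScalars ℚ ℝ R
  have : CompleteSpace R := FiniteDimensional.complete ℝ R
  have h1 := (exp_series_hasSum_exp' (𝕂 := ℝ) x).tendsto_sum_nat
  have h2 : Tendsto (fun n => ∑ i ∈ Finset.range n, ((i.factorial : ℝ)⁻¹) • x ^ i - 1 - x) atTop
      (𝓝 (exp x - 1 - x)) := (h1.sub_const 1).sub_const x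
  refine (isClosed_ideal I).mem_of_tendsto h2 ?_
  filter_upwards [eventually_ge_atTop 2] with n hn
  induction n, hn using Nat.le_induction with
  | base =>
    have : ∑ i ∈ Finset.range 2, ((i.factorial : ℝ)⁻¹) • x ^ i - 1 - x = 0 := by
      simp [Finset.sum_range_succ]
    rw [this]
    exact I.zero_mem
  | succ n hn ih =>
    rw [Finset.sum_range_succ]
    have h3 : ((n.factorial : ℝ)⁻¹) • x ^ n ∈ I := by
      obtain ⟨k, rfl⟩ := Nat.exists_eq_add_of_le hn
      rw [pow_add]
      exact (I.restrictScalars ℝ).smul_mem _ (I.mul_mem_right _ hx)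
    have h4 := I.add_mem ih h3
    have h5 : ∑ i ∈ Finset.range n, ((i.factorial : ℝ)⁻¹) • x ^ i - 1 - x +
        ((n.factorial : ℝ)⁻¹) • x ^ n = ∑ i ∈ Finset.range n, ((i.factorial : ℝ)⁻¹) • x ^ i +
        ((n.factorial : ℝ)⁻¹) • x ^ n - 1 - x := by abel
    rwa [h5] at h4

/-- Unipotent elements are exponentials of nilpotent elements. -/
theorem exists_log_unip {ν : R} (hν : ν ∈ nilradical R) :
    ∃ n ∈ nilradical R, exp n = 1 + ν := by
  have : IsNoetherianRing R := IsNoetherianRing.of_finite ℝ R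
  obtain ⟨K, hK⟩ := IsNoetherianRing.isNilpotent_nilradical R
  have key : ∀ j k : ℕ, 1 ≤ k → K ≤ k + j → ∀ ν ∈ nilradical R ^ k,
      ∃ n ∈ nilradical R, exp n = 1 + ν := by
    intro j
    induction j with
    | zero =>
      intro k _ hk ν hν
      have h1 : ν ∈ nilradical R ^ K := Ideal.pow_le_pow_right (by omega) hν
      rw [hK] at h1
      have h2 : ν = 0 := h1
      exact ⟨0, Ideal.zero_mem _, by rw [h2, exp_zero, add_zero]⟩
    | succ j ih =>
      intro k hk1 hk ν hν
      have hsq : ν ^ 2 ∈ nilradical R ^ (k + 1) := by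
        have h1 : ν ^ 2 ∈ (nilradical R ^ k) ^ 2 := Ideal.pow_mem_pow hν 2
        rw [← pow_mul] at h1
        exact Ideal.pow_le_pow_right (by omega) h1
      have h2 : exp (-ν) - 1 - (-ν) ∈ nilradical R ^ (k + 1) :=
        exp_sub_mem _ (by rwa [neg_sq])
      set z := exp (-ν) - 1 - (-ν) with hz
      have h3 : exp (-ν) = 1 - ν + z := by rw [hz]; abel
      have h4 : (1 + ν) * exp (-ν) = 1 + (z + ν * z - ν ^ 2) := by rw [h3]; ring
      obtain ⟨n, hn, hne⟩ := ih (k + 1) (by omega) (by omega) (z + ν * z - ν ^ 2)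
        (Ideal.sub_mem _ (Ideal.add_mem _ h2 (Ideal.mul_mem_left _ _ h2)) hsq)
      refine ⟨n + ν, Ideal.add_mem _ hn ?_, ?_⟩
      · have h5 := Ideal.pow_le_pow_right hk1 hν
        rwa [pow_one] at h5
      · rw [ex_add, hne, ← h4, mul_assoc, mul_comm (exp (-ν)), ex_mul_neg, mul_one]
  exact key K 1 le_rfl (by omega) ν (by rwa [pow_one])

/-- Semisimple quotient: the quotient by the nilradical is a product of copies of the reals. -/
theorem exists_split_nil (hinj : ∀ κ : R, exp κ = 1 → κ = 0) :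
    ∃ (J : Type) (_ : Fintype J) (E : R →ₐ[ℝ] (J → ℝ)), Function.Surjective E ∧
      ∀ x, E x = 0 ↔ x ∈ nilradical R := by
  classical
  have : IsArtinianRing R := IsArtinianRing.of_finite ℝ R
  have _ : ∀ I : MaximalSpectrum R, I.asIdeal.IsMaximal := fun I => I.isMaximal
  let _ : ∀ I : MaximalSpectrum R, Field (R ⧸ I.asIdeal) := fun I => Ideal.Quotient.field _
  let e₀ : R →ₐ[ℝ] (∀ I : MaximalSpectrum R, R ⧸ I.asIdeal) :=
    AlgHom.pi fun I => Ideal.Quotient.mkₐ ℝ I.asIdeal
  have he₀ : ∀ x I, e₀ x I = Ideal.Quotient.mk I.asIdeal x := fun x I => rfl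
  have hsurj : Function.Surjective e₀ := by
    intro f
    obtain ⟨q, hq⟩ := (IsArtinianRing.quotNilradicalEquivPi R).surjective f
    obtain ⟨x, rfl⟩ := Ideal.Quotient.mk_surjective q
    refine ⟨x, ?_⟩
    rw [← hq]
    rfl
  have hker : ∀ x, e₀ x = 0 ↔ x ∈ nilradical R := by
    intro x
    have h1 : e₀ x = IsArtinianRing.quotNilradicalEquivPi R (Ideal.Quotient.mk _ x) := rfl
    rw [h1, EmbeddingLike.map_eq_zero_iff, Ideal.Quotient.eq_zero_iff_mem]
  have hor : ∀ I : MaximalSpectrum R, Nonempty ((R ⧸ I.asIdeal) ≃ₐ[ℝ] ℝ) ∨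
      Nonempty ((R ⧸ I.asIdeal) ≃ₐ[ℝ] ℂ) := fun I =>
    Real.nonempty_algEquiv_or (R ⧸ I.asIdeal)
  have hreal : ∀ I : MaximalSpectrum R, Nonempty ((R ⧸ I.asIdeal) ≃ₐ[ℝ] ℝ) := by
    intro I
    rcases hor I with h | ⟨⟨f⟩⟩
    · exact h
    · exfalso
      -- characters of `R`
      have hchar : ∀ J : MaximalSpectrum R, ∃ φ : (R ⧸ J.asIdeal) →ₐ[ℝ] ℂ,
          Function.Injective φ := by
        intro J
        rcases hor J with ⟨⟨g⟩⟩ | ⟨⟨g⟩⟩
        · refine ⟨(Algebra.ofId ℝ ℂ).comp (g : (R ⧸ J.asIdeal) →ₐ[ℝ] ℝ), ?_⟩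
          exact (Algebra.ofId ℝ ℂ).toRingHom.injective.comp g.injective
        · exact ⟨g, g.injective⟩
      choose φ hφ using hchar
      obtain ⟨κ, hκ⟩ := hsurj (Pi.single I (f.symm (2 * Real.pi * Complex.I)))
      have h1 : e₀ (exp κ) = 1 := by
        funext J
        apply hφ J
        let ψ : R →ₐ[ℝ] ℂ := (φ J).comp (Ideal.Quotient.mkₐ ℝ J.asIdeal)
        have h2 : φ J (e₀ (exp κ) J) = ψ (exp κ) := rfl
        have h3 : ψ κ = φ J (e₀ κ J) := rfl
        rw [h2, alg_exp, h3, hκ, Pi.one_apply, map_one]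
        by_cases hJ : J = I
        · subst hJ
          rw [Pi.single_eq_same]
          -- compare the embedding with `f`
          have h4 : ∀ z : ℂ, (φ J (f.symm z)) = z ∨ (φ J (f.symm z)) = starRingEnd ℂ z := by
            intro z
            let χ : ℂ →ₐ[ℝ] ℂ := (φ J).comp (f.symm : ℂ →ₐ[ℝ] (R ⧸ J.asIdeal))
            have h5 : χ Complex.I = Complex.I ∨ χ Complex.I = -Complex.I := by
              have h6 : χ Complex.I * χ Complex.I = -1 := by
                rw [← map_mul, Complex.I_mul_I, map_neg, map_one]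
              have h7 : (χ Complex.I - Complex.I) * (χ Complex.I + Complex.I) = 0 := by
                ring_nf
                rw [pow_two, h6, Complex.I_sq]
                ring
              rcases mul_eq_zero.1 h7 with h | h
              · exact Or.inl (sub_eq_zero.1 h)
              · exact Or.inr (eq_neg_of_add_eq_zero_left h)
            have h8 : χ z = (z.re : ℂ) + (z.im : ℂ) * χ Complex.I := by
              conv_lhs => rw [← Complex.re_add_im z]
              rw [map_add, map_mul]
              have h9 : ∀ r : ℝ, χ (r : ℂ) = (r : ℂ) := fun r => χ.commutes r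
              rw [h9, h9]
            have h10 : φ J (f.symm z) = χ z := rfl
            rw [h10, h8]
            rcases h5 with h | h
            · left
              rw [h, Complex.re_add_im]
            · right
              rw [h]
              apply Complex.ext <;> simp
          rcases h4 (2 * Real.pi * Complex.I) with h | h
          · rw [h, Complex.exp_two_pi_mul_I]
          · rw [h]
            have h5 : (starRingEnd ℂ) (2 * Real.pi * Complex.I) = -(2 * Real.pi * Complex.I) := by
              rw [map_mul, map_mul, Complex.conj_I, Complex.conj_ofReal, map_ofNat]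
              ring
            rw [h5, Complex.exp_neg, Complex.exp_two_pi_mul_I, inv_one]
        · rw [Pi.single_eq_of_ne hJ, map_zero, Complex.exp_zero]
      have hn : exp κ - 1 ∈ nilradical R := by
        rw [← hker, map_sub, h1, map_one, sub_self]
      obtain ⟨n, hn1, hn2⟩ := exists_log_unip hn
      rw [add_sub_cancel] at hn2
      have h2 : κ = n := by
        have h3 : exp (κ - n) = 1 := by
          rw [sub_eq_add_neg, ex_add, ← hn2, ex_mul_neg]
        exact sub_eq_zero.1 (hinj _ h3)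
      rw [h2, (hker n).2 hn1] at hκ
      have h3 := congrFun hκ I
      rw [Pi.single_eq_same, Pi.zero_apply] at h3
      have h4 : (2 * Real.pi * Complex.I : ℂ) = 0 := by
        have := congrArg f h3.symm
        rwa [f.apply_symm_apply, map_zero] at this
      exact Complex.two_pi_I_ne_zero h4
  let _ : Fintype (MaximalSpectrum R) := Fintype.ofFinite _
  let n := Fintype.card (MaximalSpectrum R)
  let g : ∀ I : MaximalSpectrum R, (R ⧸ I.asIdeal) ≃ₐ[ℝ] ℝ := fun I => (hreal I).some
  let E₁ : (∀ I : MaximalSpectrum R, R ⧸ I.asIdeal) ≃ₐ[ℝ] (MaximalSpectrum R → ℝ) :=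
    AlgEquiv.piCongrRight g
  let E₂ : (MaximalSpectrum R → ℝ) ≃ₐ[ℝ] (Fin n → ℝ) :=
    AlgEquiv.piCongrLeft' ℝ (fun _ => ℝ) (Fintype.equivFin (MaximalSpectrum R))
  let E₃ := E₁.trans E₂
  refine ⟨Fin n, inferInstance, (E₃ : _ →ₐ[ℝ] (Fin n → ℝ)).comp e₀, ?_, fun x => ?_⟩
  · intro y
    obtain ⟨z, hz⟩ := E₃.surjective y
    obtain ⟨x, rfl⟩ := hsurj z
    exact ⟨x, hz⟩
  · rw [← hker]
    show E₃ (e₀ x) = 0 ↔ e₀ x = 0
    exact EmbeddingLike.map_eq_zero_iff

end Pool.Agent.Lib.Pad47bbB
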