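import Pool.Agent.Lib.Pad47bbB.Main
import Pool.Agent.Lib.Pad47bb.RatNbhd

/-!
If the boundary components span a hyperplane, the cone is rational polyhedral.
-/

open Set Topology

namespace Pool.Agent.Lib.Pad47bbB

open Pool.Agent.Lib.Pad47bb Pool.Agent.Lib.Pad47bbQ Pool.Agent.Lib.Pad47bbV

variable {V : Type*} [NormedAddCommGroup V] [NormedSpace ℝ V] [FiniteDimensional ℝ V]
  {L : Submodule ℤ V} [DiscreteTopology L] [IsZLattice ℝ L]

/-- A functional which is positive at some point of `N` is positive at some lattice point of `N`. -/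
theorem exists_lattice_pos {N : PointedCone ℝ V} (hN : (interior (N : Set V)).Nonempty)
    (ψ : V →L[ℝ] ℝ) {x : V} (hx : x ∈ N) (hψ : 0 < ψ x) : ∃ y ∈ L, y ∈ N ∧ 0 < ψ y := by
  obtain ⟨e, he⟩ := hN
  -- an interior point with positive value
  obtain ⟨q, hq, hqψ⟩ : ∃ q ∈ interior (N : Set V), 0 < ψ q := by
    set δ : ℝ := ψ x / (2 * (1 + |ψ e|)) with hδ
    have hδ0 : 0 < δ := by positivity
    refine ⟨δ • e + x, interior_add (interior_smul' he hδ0) hx, ?_⟩
    rw [map_add, map_smul, smul_eq_mul]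
    have h1 : δ * (2 * (1 + |ψ e|)) = ψ x := by
      rw [hδ]; field_simp
    have h2 : -|ψ e| ≤ ψ e := neg_abs_le _
    nlinarith [abs_nonneg (ψ e)]
  have hU : IsOpen (interior (N : Set V) ∩ {z | 0 < ψ z}) :=
    isOpen_interior.inter (isOpen_lt continuous_const ψ.continuous)
  obtain ⟨s, hs1, hs2, hs3⟩ := exists_ratPoly_nhds L hU ⟨hq, hqψ⟩
  have hne : s.Nonempty := by
    by_contra h
    rw [Finset.not_nonempty_iff_eq_empty] at h
    subst h
    have h1 := interior_subset hs3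
    simp only [Finset.coe_empty, Submodule.span_empty, Submodule.bot_coe, mem_singleton_iff] at h1
    rw [h1] at hqψ
    simp at hqψ
  obtain ⟨v, hv⟩ := hne
  obtain ⟨c, hc, hcv⟩ := hs2 v hv
  refine ⟨v, hs1 hv, ?_, ?_⟩
  · have h1 : c • v ∈ N := interior_subset hcv.1
    have h2 := N.smul_mem (show (0 : ℝ) ≤ c⁻¹ by positivity) h1
    rwa [smul_smul, inv_mul_cancel₀ hc.ne', one_smul] at h2
  · have h1 : 0 < ψ (c • v) := hcv.2
    rw [map_smul, smul_eq_mul] at h1
    exact (mul_pos_iff_of_pos_left hc).1 h1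

/-- If `N` is contained in `cone Y + span J` then it is rational polyhedral. -/
theorem isRatPoly_of_le {N : PointedCone ℝ V} {J : Finset V} {Ξ : Set (V →L[ℝ] ℝ)}
    (D : BdCone L N J Ξ) (Y : Finset V) (hY : ∀ y ∈ Y, y ∈ L ∧ y ∈ N)
    (h : ∀ x ∈ N, x ∈ sumCone Y J) : IsRatPoly L N := by
  have h1 := isRatPoly_inf D Y hY
  rwa [inf_eq_left.2 h] at h1

/-- If `span J` has codimension at most one, then `N` is rational polyhedral. -/
theorem isRatPoly_of_corank {N : PointedCone ℝ V} (hN : (interior (N : Set V)).Nonempty)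
    {J : Finset V} {Ξ : Set (V →L[ℝ] ℝ)}
    (D : BdCone L N J Ξ) (h : V) (hh : ∀ x : V, ∃ c : ℝ, x - c • h ∈ Submodule.span ℝ (J : Set V)) :
    IsRatPoly L N := by
  classical
  by_cases hW : h ∈ Submodule.span ℝ (J : Set V)
  · refine isRatPoly_of_le D ∅ (by simp) fun x _ => mem_sumCone.2 ⟨0, Submodule.zero_mem _, ?_⟩
    obtain ⟨c, hc⟩ := hh x
    have h1 := Submodule.add_mem _ hc (Submodule.smul_mem _ c hW)
    simpa using h1
  · have hlt : Submodule.span ℝ (J : Set V) < ⊤ := by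
      rw [lt_top_iff_ne_top]
      intro htop
      exact hW (by rw [htop]; exact Submodule.mem_top)
    obtain ⟨f, hf0, hf⟩ := Submodule.exists_le_ker_of_lt_top _ hlt
    have hfh : f h ≠ 0 := by
      intro h0
      apply hf0
      ext x
      obtain ⟨c, hc⟩ := hh x
      have h1 : f (x - c • h) = 0 := hf hc
      rw [map_sub, map_smul, h0, smul_zero, sub_zero] at h1
      simpa using h1
    have hker : ∀ z, f z = 0 → z ∈ Submodule.span ℝ (J : Set V) := by
      intro z hz
      obtain ⟨c, hc⟩ := hh z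
      have h1 : f (z - c • h) = 0 := hf hc
      rw [map_sub, map_smul, hz, zero_sub, neg_eq_zero, smul_eq_mul, mul_eq_zero] at h1
      rcases h1 with h1 | h1
      · rw [h1] at hc
        simpa using hc
      · exact absurd h1 hfh
    set ψ : V →L[ℝ] ℝ := LinearMap.toContinuousLinearMap f with hψ
    have hψf : ∀ x, ψ x = f x := fun x => rfl
    -- lattice points of either sign
    obtain ⟨Y, hY, hYpos⟩ : ∃ Y : Finset V, (∀ y ∈ Y, y ∈ L ∧ y ∈ N) ∧
        ∀ x ∈ N, f x ≠ 0 → ∃ y ∈ Y, ∃ c : ℝ, 0 ≤ c ∧ f x = c * f y := by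
      have hp : ∃ Y : Finset V, (∀ y ∈ Y, y ∈ L ∧ y ∈ N) ∧
          ∀ x ∈ N, 0 < f x → ∃ y ∈ Y, ∃ c : ℝ, 0 ≤ c ∧ f x = c * f y := by
        by_cases hex : ∃ x ∈ N, 0 < f x
        · obtain ⟨x, hx, hfx⟩ := hex
          obtain ⟨y, hyL, hyN, hy⟩ := exists_lattice_pos (L := L) hN ψ hx hfx
          refine ⟨{y}, fun z hz => ?_, fun z hz hfz => ⟨y, by simp, f z / f y, ?_, ?_⟩⟩
          · rw [Finset.mem_singleton] at hz; subst hz; exact ⟨hyL, hyN⟩
          · have : 0 < f y := hy
            positivity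
          · have : 0 < f y := hy
            field_simp
        · exact ⟨∅, by simp, fun x hx hfx => absurd ⟨x, hx, hfx⟩ hex⟩
      have hn : ∃ Y : Finset V, (∀ y ∈ Y, y ∈ L ∧ y ∈ N) ∧
          ∀ x ∈ N, f x < 0 → ∃ y ∈ Y, ∃ c : ℝ, 0 ≤ c ∧ f x = c * f y := by
        by_cases hex : ∃ x ∈ N, f x < 0
        · obtain ⟨x, hx, hfx⟩ := hex
          obtain ⟨y, hyL, hyN, hy⟩ := exists_lattice_pos (L := L) hN (-ψ) hx (by
            show 0 < (-ψ) x
            have : (-ψ) x = - f x := rfl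
            rw [this]; linarith)
          have hy' : f y < 0 := by
            have : (-ψ) y = - f y := rfl
            rw [this] at hy; linarith
          refine ⟨{y}, fun z hz => ?_, fun z hz hfz => ⟨y, by simp, f z / f y, ?_, ?_⟩⟩
          · rw [Finset.mem_singleton] at hz; subst hz; exact ⟨hyL, hyN⟩
          · exact (div_pos_of_neg_of_neg hfz hy').le
          · rw [div_mul_cancel₀ _ hy'.ne]
        · exact ⟨∅, by simp, fun x hx hfx => absurd ⟨x, hx, hfx⟩ hex⟩
      obtain ⟨Y₁, h1, h1'⟩ := hp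
      obtain ⟨Y₂, h2, h2'⟩ := hn
      refine ⟨Y₁ ∪ Y₂, fun y hy => ?_, fun x hx hfx => ?_⟩
      · rcases Finset.mem_union.1 hy with hy | hy
        · exact h1 y hy
        · exact h2 y hy
      · rcases lt_or_gt_of_ne hfx with hlt | hgt
        · obtain ⟨y, hy, c, hc⟩ := h2' x hx hlt
          exact ⟨y, Finset.mem_union_right _ hy, c, hc⟩
        · obtain ⟨y, hy, c, hc⟩ := h1' x hx hgt
          exact ⟨y, Finset.mem_union_left _ hy, c, hc⟩
    refine isRatPoly_of_le D Y hY fun x hx => mem_sumCone.2 ?_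
    by_cases hfx : f x = 0
    · exact ⟨0, Submodule.zero_mem _, hker _ (by simpa using hfx)⟩
    · obtain ⟨y, hy, c, hc, hcy⟩ := hYpos x hx hfx
      refine ⟨c • y, (PointedCone.hull ℝ (Y : Set V)).smul_mem hc (Submodule.subset_span hy),
        hker _ ?_⟩
      rw [map_sub, map_smul, smul_eq_mul, hcy, sub_self]

/-- In that case every group has a rational polyhedral fundamental domain on `N`. -/
theorem hasRPFD_of_corank {N : PointedCone ℝ V} (hN : Good N)
    {J : Finset V} {Ξ : Set (V →L[ℝ] ℝ)}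
    (D : BdCone L N J Ξ) (h : V) (hh : ∀ x : V, ∃ c : ℝ, x - c • h ∈ Submodule.span ℝ (J : Set V))
    {Γ : Subgroup (V ≃ₗ[ℝ] V)} (hA : Acts L N Γ) : HasRPFD L Γ N := by
  have hP := isRatPoly_of_corank hN.interior_nonempty D h hh
  have hS : Setting L N Γ := by
    refine ⟨?_, hN.interior_nonempty, hA.map_lattice, hA.map_cone⟩
    intro x hx hx'
    rw [hN.closed.closure_eq] at hx hx'
    exact hN.salient x hx hx'
  refine exists_fundDomain hS hP ?_
  apply Subset.antisymm
  · intro x hx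
    exact mem_biUnion (one_mem Γ) ⟨x, hx, rfl⟩
  · intro x hx
    simp only [mem_iUnion] at hx
    obtain ⟨g, hg, y, hy, rfl⟩ := hx
    exact hA.map_cone g hg y hy

end Pool.Agent.Lib.Pad47bbB
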