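import Pool.Agent.Lib.Pad47bb.MaxRank

/-!
Free abelian groups of automorphisms of a lattice and a lattice point with trivial stabilizer: rank
bound, and cyclicity in maximal rank. (No invariant cone is needed.)
-/

open Set Topology NormedSpace Filter

namespace Pool.Agent.Lib.Pad47bbB

open Pool.Agent.Lib.Pad47bb

universe u

variable {V : Type u} [NormedAddCommGroup V] [NormedSpace ℝ V] [FiniteDimensional ℝ V]
  {m : ℕ} (φ : Multiplicative (Fin m → ℤ) →* (V ≃ₗ[ℝ] V))
  (L : Submodule ℤ V) [DiscreteTopology L] [IsZLattice ℝ L]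

omit [IsZLattice ℝ L] in
/-- The span of the orbit of a lattice point with trivial stabilizer has dimension greater than the
rank of the group. -/
theorem rank_lt_span (hL : ∀ k, ∀ v ∈ L, act φ k v ∈ L) {x : V} (hx0 : x ≠ 0) (hxL : x ∈ L)
    (hstab : ∀ k, act φ k x = x → k = 0) :
    m < Module.finrank ℝ (Submodule.span ℝ (range fun k : Fin m → ℤ => act φ k x)) := by
  let S : Set V := range fun k : Fin m → ℤ => act φ k x
  let W₀ : Submodule ℝ V := Submodule.span ℝ S
  have hxS : x ∈ S := ⟨0, act_zero φ x⟩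
  have hW₀ : ∀ k, ∀ w ∈ W₀, act φ k w ∈ W₀ := by
    intro k w hw
    have h1 : W₀ ≤ W₀.comap (act φ k : V →ₗ[ℝ] V) := by
      refine Submodule.span_le.2 ?_
      rintro _ ⟨l, rfl⟩
      refine Submodule.subset_span ⟨k + l, ?_⟩
      exact act_add φ k l x
    exact h1 hw
  let ψ := restr φ W₀ hW₀
  have hψ : Function.Injective ψ := by
    rw [injective_iff_map_eq_one]
    intro k hk
    have h1 : act φ (Multiplicative.toAdd k) x = x := by
      have h2 : ψ k ⟨x, Submodule.subset_span hxS⟩ = ⟨x, Submodule.subset_span hxS⟩ := by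
        rw [hk]
        rfl
      exact congrArg Subtype.val h2
    exact Multiplicative.toAdd.injective (hstab _ h1)
  let LW : Submodule ℤ W₀ := ZLattice.comap ℝ L W₀.subtype
  have : DiscreteTopology LW := ZLattice.comap_discreteTopology ℝ L
    W₀.subtypeL.continuous (Submodule.subtype_injective W₀)
  have hSL : S ⊆ L := by
    rintro _ ⟨k, rfl⟩
    exact hL k x hxL
  have : IsZLattice ℝ LW := ⟨by
    refine eq_top_iff.mpr ?_
    refine (Submodule.span_span_coe_preimage (s := S)).symm.le.trans ?_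
    refine Submodule.span_mono ?_
    intro w hw
    exact hSL hw⟩
  have : Nontrivial W₀ := ⟨⟨⟨x, Submodule.subset_span hxS⟩, 0, fun h => hx0 (by
    simpa using congrArg Subtype.val h)⟩⟩
  have hLW : ∀ k, ∀ v ∈ LW, act ψ k v ∈ LW := by
    intro k v hv
    exact hL k v hv
  have hcyc : ∀ W' : Submodule ℝ W₀, (⟨x, Submodule.subset_span hxS⟩ : W₀) ∈ W' →
      (∀ k, ∀ w ∈ W', act ψ k w ∈ W') → W' = ⊤ := by
    intro W' hx' hW'
    have h1 : W₀ ≤ W'.map W₀.subtype := by
      refine Submodule.span_le.2 ?_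
      rintro _ ⟨k, rfl⟩
      exact ⟨_, hW' k _ hx', rfl⟩
    rw [eq_top_iff]
    intro w _
    obtain ⟨w', hw', hww'⟩ := h1 w.2
    have : w' = w := Subtype.ext hww'
    rwa [← this]
  exact rank_lt_of_cyclic ψ hψ LW hLW _ hcyc

/-- The rank bound. -/
theorem rank_lt_of_stab (hL : ∀ k, ∀ v ∈ L, act φ k v ∈ L) {x : V} (hx0 : x ≠ 0) (hxL : x ∈ L)
    (hstab : ∀ k, act φ k x = x → k = 0) : m < Module.finrank ℝ V :=
  (rank_lt_span φ L hL hx0 hxL hstab).trans_le (Submodule.finrank_le _)

/-- In maximal rank the point is cyclic. -/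
theorem cyclic_of_stab (hL : ∀ k, ∀ v ∈ L, act φ k v ∈ L) (hm : m + 1 = Module.finrank ℝ V) {x : V}
    (hx0 : x ≠ 0) (hxL : x ∈ L) (hstab : ∀ k, act φ k x = x → k = 0) :
    ∀ W : Submodule ℝ V, x ∈ W → (∀ k, ∀ w ∈ W, act φ k w ∈ W) → W = ⊤ := by
  have h1 := rank_lt_span φ L hL hx0 hxL hstab
  have htop : Submodule.span ℝ (range fun k : Fin m → ℤ => act φ k x) = ⊤ := by
    apply Submodule.eq_top_of_finrank_eq
    have h2 := Submodule.finrank_le (Submodule.span ℝ (range fun k : Fin m → ℤ => act φ k x))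
    omega
  intro W hxW hW
  rw [eq_top_iff, ← htop]
  refine Submodule.span_le.2 ?_
  rintro _ ⟨k, rfl⟩
  exact hW k x hxW

end Pool.Agent.Lib.Pad47bbB
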