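import Pool.Agent.Lib.Pad47bbB.EffCover
import Pool.Agent.Lib.Pad47bbM.Siegel

/-!
It suffices to cover a dense set of points of the interior.
-/

open Set Topology Filter

namespace Pool.Agent.Lib.Pad47bbB

open Pool.Agent.Lib.Pad47bb Pool.Agent.Lib.Pad47bbQ Pool.Agent.Lib.Pad47bbV

variable {V : Type*} [NormedAddCommGroup V] [NormedSpace ℝ V] [FiniteDimensional ℝ V]
  {L : Submodule ℤ V} [DiscreteTopology L] [IsZLattice ℝ L]
  {N E : PointedCone ℝ V} {J : Finset V} {Γ : Subgroup (V ≃ₗ[ℝ] V)}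

/-- If every point `x` of the interior is a limit of covered points of the interior, then it is
covered. -/
theorem BdPair.covers_of_dense (D : BdPair L N E J Γ) (Y : Finset V)
    (hY : ∀ y ∈ Y, y ∈ L ∧ y ∈ E)
    (h : ∀ x ∈ interior (N : Set V), ∃ u : ℕ → V, Tendsto u atTop (𝓝 x) ∧
      ∀ᶠ n in atTop, u n ∈ interior (N : Set V) →
        ∃ g ∈ Γ, ∃ y ∈ PointedCone.hull ℝ (Y : Set V),
          g (u n) - y ∈ Submodule.span ℝ (J : Set V)) : Covers N J Y Γ := by
  classical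
  obtain ⟨Ξ, hΞ⟩ := D.cone Y hY
  obtain ⟨s, hsL, hs⟩ := isRatPoly_inf_of_le hΞ (fun p hp => (D.comp p hp).1)
    (fun y hy => (hY y hy).1) (isRatPoly_sumCone L Y J (fun y hy => (hY y hy).1)
      (fun p hp => (D.comp p hp).1)) le_rfl
  have hsN : ∀ a ∈ s, a ∈ N := fun a ha => by
    have : a ∈ N ⊓ sumCone Y J := by rw [hs]; exact Submodule.subset_span ha
    exact this.1
  have hS := setting_ratHull D.good D.acts D.int_ratHull
  have hsK : (s : Set V) ⊆ ratHull L N := fun a ha =>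
    Submodule.subset_span ⟨hsN a ha, hsL ha⟩
  have hintK : interior (N : Set V) ⊆ interior (ratHull L N : Set V) :=
    interior_maximal D.int_ratHull isOpen_interior
  obtain ⟨f, hf⟩ := exists_pos (ratHull L N) hS.salient
  intro x hx
  obtain ⟨u, hu, hcov⟩ := h x hx
  obtain ⟨w, hw1, hw2, hw3⟩ := exists_ratPoly_nhds L isOpen_interior hx
  have hwN : ∀ v ∈ w, v ∈ interior (N : Set V) := by
    intro v hv
    obtain ⟨c, hc, hcv⟩ := hw2 v hv
    have := interior_smul' hcv (inv_pos.2 hc)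
    rwa [smul_smul, inv_mul_cancel₀ hc.ne', one_smul] at this
  have hwK : (w : Set V) ⊆ ratHull L N := fun v hv =>
    D.int_ratHull (hwN v hv)
  have hfin := Pad47bbM.siegel hS f hf s hsL hsK w hw1 hwK
  set G := {g : V ≃ₗ[ℝ] V | g ∈ Γ ∧ ∃ z ∈ PointedCone.hull ℝ (s : Set V),
      g z ∈ PointedCone.hull ℝ (w : Set V) ∧ g z ∈ interior (ratHull L N : Set V)} with hG
  -- the union of the translates
  have hclosed : IsClosed (⋃ g ∈ G, (g : V → V) '' (PointedCone.hull ℝ (s : Set V) : Set V)) := by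
    refine hfin.isClosed_biUnion fun g _ => ?_
    have h1 : IsClosed (PointedCone.hull ℝ (s : Set V) : Set V) := isClosed_hull f hf s hsK
    exact (g.toContinuousLinearEquiv.toHomeomorph.isClosedMap) _ h1
  have hmem : ∀ᶠ n in atTop, u n ∈ ⋃ g ∈ G, (g : V → V) ''
      (PointedCone.hull ℝ (s : Set V) : Set V) := by
    filter_upwards [hcov, hu.eventually (isOpen_interior.mem_nhds hx),
      hu.eventually (isOpen_interior.mem_nhds hw3)] with n h1 h2 h3
    obtain ⟨g, hg, y, hy, hgy⟩ := h1 h2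
    have h4 : g (u n) ∈ PointedCone.hull ℝ (s : Set V) := by
      rw [← hs]
      exact ⟨D.acts.map_cone g hg _ (interior_subset h2), mem_sumCone.2 ⟨y, hy, hgy⟩⟩
    have h5 : g⁻¹ (g (u n)) = u n := g.symm_apply_apply _
    refine mem_biUnion (x := g⁻¹) ⟨inv_mem hg, g (u n), h4, ?_, ?_⟩ ⟨g (u n), h4, h5⟩
    · rw [h5]
      exact interior_subset h3
    · rw [h5]
      exact hintK h2
  have hxm := hclosed.mem_of_tendsto hu hmem
  simp only [mem_iUnion] at hxm
  obtain ⟨g, hg, z, hz, rfl⟩ := hxm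
  have hz' : z ∈ PointedCone.hull ℝ (s : Set V) := hz
  rw [← hs] at hz'
  obtain ⟨y, hy, hzy⟩ := mem_sumCone.1 hz'.2
  refine ⟨g⁻¹, inv_mem hg.1, y, hy, ?_⟩
  have h5 : g⁻¹ (g z) = z := g.symm_apply_apply _
  rw [h5]
  exact hzy

end Pool.Agent.Lib.Pad47bbB
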