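import Pool.Agent.Lib.Pad47bbB.Corank
import Pool.Agent.Lib.Pad47bbM.Siegel

/-!
The nef cone and the effective cone of a pair: the consequences of the cone theorem and of the base
point free theorem modulo the span of the components of the boundary.
-/

open Set Topology

namespace Pool.Agent.Lib.Pad47bbB

open Pool.Agent.Lib.Pad47bb Pool.Agent.Lib.Pad47bbQ Pool.Agent.Lib.Pad47bbV

variable {V : Type*} [NormedAddCommGroup V] [NormedSpace ℝ V]

/-- `N` is cut out by the functionals of its dual cone which vanish on `J` and are nonnegative on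
`S`, and by the functionals of `Ξ`, which are integral on `L`, nonnegative on `N`, bounded at the
elements of `J` and bounded below at the elements of `S`. -/
structure BdOn (L : Submodule ℤ V) (N : PointedCone ℝ V) (J S : Finset V)
    (Ξ : Set (V →L[ℝ] ℝ)) : Prop where
  integral : ∀ ξ ∈ Ξ, ∀ x ∈ L, ∃ n : ℤ, ξ x = n
  nonneg : ∀ ξ ∈ Ξ, ∀ x ∈ N, 0 ≤ ξ x
  bounded : ∃ B : ℝ, ∀ ξ ∈ Ξ, (∀ p ∈ J, |ξ p| ≤ B) ∧ ∀ y ∈ S, -B ≤ ξ y
  mem : ∀ x : V, (∀ φ : V →L[ℝ] ℝ, (∀ y ∈ N, 0 ≤ φ y) → (∀ p ∈ J, φ p = 0) →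
    (∀ y ∈ S, 0 ≤ φ y) → 0 ≤ φ x) → (∀ ξ ∈ Ξ, 0 ≤ ξ x) → x ∈ N

/-- Dickson's lemma, for functionals bounded below on `Y` and bounded on `J`. -/
theorem exists_forms' (Y J : Finset V) (Ξ : Set (V →L[ℝ] ℝ)) (B : ℕ)
    (hY : ∀ ξ ∈ Ξ, ∀ y ∈ Y, ∃ n : ℕ, ξ y + B = n)
    (hJ : ∀ ξ ∈ Ξ, ∀ p ∈ J, ∃ n : ℕ, ξ p + B = n)
    (hJ' : ∀ ξ ∈ Ξ, ∀ p ∈ J, ∃ n : ℕ, B - ξ p = n) :
    ∃ T : Finset (V →L[ℝ] ℝ), (T : Set (V →L[ℝ] ℝ)) ⊆ Ξ ∧
      ∀ ξ ∈ Ξ, ∃ τ ∈ T, (∀ y ∈ Y, τ y ≤ ξ y) ∧ ∀ p ∈ J, τ p = ξ p := by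
  classical
  choose! a ha using hY
  choose! b hb using hJ
  choose! c hc using hJ'
  let F : (V →L[ℝ] ℝ) → (Y ⊕ (J ⊕ J) → ℕ) := fun ξ =>
    Sum.elim (fun y => a ξ y) (Sum.elim (fun p => b ξ p) (fun p => c ξ p))
  let T : Set (Y ⊕ (J ⊕ J) → ℕ) := F '' Ξ
  let M : Set (Y ⊕ (J ⊕ J) → ℕ) := {m | Minimal (· ∈ T) m}
  have hMfin : M.Finite := by
    apply WellQuasiOrderedLE.finite_of_isAntichain
    intro a ha b hb hab hle
    exact hab (le_antisymm hle (hb.le_of_le ha.prop hle))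
  have hMT : ∀ m ∈ M, ∃ g ∈ Ξ, F g = m := fun m hm => hm.prop
  choose! γ hγ hγF using hMT
  refine ⟨hMfin.toFinset.image γ, ?_, ?_⟩
  · intro g hg
    obtain ⟨m, hm, rfl⟩ := Finset.mem_image.1 hg
    exact hγ m (hMfin.mem_toFinset.1 hm)
  · intro ξ hξ
    obtain ⟨m, hm, hmin⟩ := exists_minimal_le_of_wellFoundedLT (· ∈ T) (F ξ) ⟨ξ, hξ, rfl⟩
    have hτ := hγ m hmin
    have hle : ∀ i, F (γ m) i ≤ F ξ i := fun i => by rw [hγF m hmin]; exact hm i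
    refine ⟨γ m, Finset.mem_image_of_mem _ (hMfin.mem_toFinset.2 hmin), ?_, ?_⟩
    · intro y hy
      have h1 : a (γ m) y ≤ a ξ y := hle (Sum.inl ⟨y, hy⟩)
      have e1 := ha _ hτ y hy
      have e2 := ha _ hξ y hy
      have h1' : (a (γ m) y : ℝ) ≤ a ξ y := by exact_mod_cast h1
      linarith
    · intro p hp
      have h1 : b (γ m) p ≤ b ξ p := hle (Sum.inr (Sum.inl ⟨p, hp⟩))
      have h2 : c (γ m) p ≤ c ξ p := hle (Sum.inr (Sum.inr ⟨p, hp⟩))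
      have e1 := hb _ hτ p hp
      have e2 := hb _ hξ p hp
      have e3 := hc _ hτ p hp
      have e4 := hc _ hξ p hp
      have h1' : (b (γ m) p : ℝ) ≤ b ξ p := by exact_mod_cast h1
      have h2' : (c (γ m) p : ℝ) ≤ c ξ p := by exact_mod_cast h2
      linarith

/-- Finitely many functionals cut out `N ∩ (cone S + span J)`. -/
theorem exists_forms_on {L : Submodule ℤ V} {N : PointedCone ℝ V} {J S : Finset V}
    {Ξ : Set (V →L[ℝ] ℝ)} (D : BdOn L N J S Ξ) (hJ : ∀ p ∈ J, p ∈ L) (hS : ∀ y ∈ S, y ∈ L) :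
    ∃ T : Finset (V →L[ℝ] ℝ), (∀ τ ∈ T, ∀ x ∈ L, ∃ n : ℤ, τ x = n) ∧
      ∀ x ∈ sumCone S J, (x ∈ N ↔ ∀ τ ∈ T, 0 ≤ τ x) := by
  classical
  obtain ⟨B, hB⟩ := D.bounded
  have hnat : ∀ r : ℝ, 0 ≤ r → (∃ n : ℤ, r = n) → ∃ n : ℕ, r = n := by
    rintro r hr ⟨n, rfl⟩
    have hn : 0 ≤ n := by exact_mod_cast hr
    obtain ⟨m, rfl⟩ := Int.eq_ofNat_of_zero_le hn
    exact ⟨m, by simp⟩
  have hBn : ∀ ξ ∈ Ξ, (∀ p ∈ J, |ξ p| ≤ (⌈B⌉₊ : ℝ)) ∧ ∀ y ∈ S, -(⌈B⌉₊ : ℝ) ≤ ξ y :=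
    fun ξ hξ => ⟨fun p hp => ((hB ξ hξ).1 p hp).trans (Nat.le_ceil B),
      fun y hy => (neg_le_neg (Nat.le_ceil B)).trans ((hB ξ hξ).2 y hy)⟩
  obtain ⟨T, hTΞ, hT⟩ := exists_forms' S J Ξ ⌈B⌉₊
    (fun ξ hξ y hy => by
      have h1 := (hBn ξ hξ).2 y hy
      obtain ⟨n, hn⟩ := D.integral ξ hξ y (hS y hy)
      exact hnat _ (by linarith) ⟨n + ⌈B⌉₊, by rw [hn]; push_cast; ring⟩)
    (fun ξ hξ p hp => by
      have h1 := (abs_le.1 ((hBn ξ hξ).1 p hp)).1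
      obtain ⟨n, hn⟩ := D.integral ξ hξ p (hJ p hp)
      exact hnat _ (by linarith) ⟨n + ⌈B⌉₊, by rw [hn]; push_cast; ring⟩)
    (fun ξ hξ p hp => by
      have h1 := (abs_le.1 ((hBn ξ hξ).1 p hp)).2
      obtain ⟨n, hn⟩ := D.integral ξ hξ p (hJ p hp)
      exact hnat _ (by linarith) ⟨⌈B⌉₊ - n, by rw [hn]; push_cast; ring⟩)
  refine ⟨T, fun τ hτ => D.integral τ (hTΞ hτ), fun x hx => ⟨fun h τ hτ =>
    D.nonneg τ (hTΞ hτ) x h, fun hx' => ?_⟩⟩
  obtain ⟨y, hy, hw⟩ := mem_sumCone.1 hx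
  obtain ⟨c, hc, hyc⟩ := mem_hull_finset.1 hy
  have hxy : x = y + (x - y) := by abel
  have hspan : ∀ φ ψ : V →L[ℝ] ℝ, (∀ p ∈ J, φ p = ψ p) → φ (x - y) = ψ (x - y) := by
    intro φ ψ h
    have : ∀ z ∈ Submodule.span ℝ (J : Set V), φ z = ψ z := by
      intro z hz
      induction hz using Submodule.span_induction with
      | mem z hz => exact h z hz
      | zero => simp
      | add a b _ _ ha hb => rw [map_add, map_add, ha, hb]
      | smul c a _ ha => rw [map_smul, map_smul, ha]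
    exact this _ hw
  apply D.mem
  · intro φ hφ hφJ hφS
    have h0 : φ (x - y) = 0 := by
      have := hspan φ 0 (fun p hp => by simpa using hφJ p hp)
      simpa using this
    rw [hxy, map_add, h0, add_zero, hyc, map_sum]
    refine Finset.sum_nonneg fun a ha => ?_
    rw [map_smul, smul_eq_mul]
    exact mul_nonneg (hc a ha) (hφS a ha)
  · intro ξ hξ
    obtain ⟨τ, hτ, hτY, hτJ⟩ := hT ξ hξ
    have h1 := hx' τ hτ
    have h2 : τ (x - y) = ξ (x - y) := hspan τ ξ hτJ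
    have h3 : τ y ≤ ξ y := by
      rw [hyc, map_sum, map_sum]
      refine Finset.sum_le_sum fun a ha => ?_
      rw [map_smul, map_smul, smul_eq_mul, smul_eq_mul]
      exact mul_le_mul_of_nonneg_left (hτY a ha) (hc a ha)
    have h4 : τ x = τ y + τ (x - y) := by rw [← map_add]; congr 1
    have h5 : ξ x = ξ y + ξ (x - y) := by rw [← map_add]; congr 1
    linarith

/-- `N ∩ P` is rational polyhedral for every rational polyhedral `P ⊆ cone S + span J`. -/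
theorem isRatPoly_inf_of_le {L : Submodule ℤ V} {N : PointedCone ℝ V} {J S : Finset V}
    {Ξ : Set (V →L[ℝ] ℝ)} (D : BdOn L N J S Ξ) (hJ : ∀ p ∈ J, p ∈ L) (hS : ∀ y ∈ S, y ∈ L)
    {P : PointedCone ℝ V} (hP : IsRatPoly L P) (hle : P ≤ sumCone S J) : IsRatPoly L (N ⊓ P) := by
  obtain ⟨T, hT, hmem⟩ := exists_forms_on D hJ hS
  have key : N ⊓ P = P ⊓ ⨅ τ ∈ T, halfSpace τ := by
    apply le_antisymm
    · intro x hx
      refine ⟨hx.2, ?_⟩
      simp only [SetLike.mem_coe, Submodule.mem_iInf, mem_halfSpace]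
      exact (hmem x (hle hx.2)).1 hx.1
    · rintro x ⟨hx, hx'⟩
      simp only [SetLike.mem_coe, Submodule.mem_iInf, mem_halfSpace] at hx'
      exact ⟨(hmem x (hle hx)).2 hx', hx⟩
  rw [key]
  exact hP.inf_halfSpaces T (fun τ => τ) hT

/-- The data of a pair: `N` is the nef cone, `E` the effective cone, `J` the set of the classes of
the components of the boundary, `Γ` the group; `cone` is the consequence of the cone theorem and
`bpf` that of the base point free theorem. -/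
structure BdPair (L : Submodule ℤ V) (N E : PointedCone ℝ V) (J : Finset V)
    (Γ : Subgroup (V ≃ₗ[ℝ] V)) : Prop where
  good : Good N
  acts : Acts L N Γ
  eff_map : ∀ g ∈ Γ, ∀ x ∈ E, g x ∈ E
  int_le : interior (N : Set V) ⊆ E
  eff_salient : ∀ x ∈ closure (E : Set V), -x ∈ closure (E : Set V) → x = 0
  eff_gen : ∀ x ∈ E, ∃ S : Finset V, (∀ y ∈ S, y ∈ L ∧ y ∈ E) ∧ x ∈ PointedCone.hull ℝ (S : Set V)
  comp : ∀ p ∈ J, p ∈ L ∧ p ∈ E
  perm : ∀ g ∈ Γ, ∀ p ∈ J, g p ∈ J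
  cone : ∀ S : Finset V, (∀ y ∈ S, y ∈ L ∧ y ∈ E) → ∃ Ξ, BdOn L N J S Ξ
  bpf : ∀ x ∈ L, x ∈ N → (∃ w ∈ Submodule.span ℝ (J : Set V), x - w ∈ interior (N : Set V)) →
    x ∈ E

section

variable {L : Submodule ℤ V} {N E : PointedCone ℝ V} {J : Finset V} {Γ : Subgroup (V ≃ₗ[ℝ] V)}

/-- Elements of `Γ` preserve the span of `J`. -/
theorem BdPair.map_span (D : BdPair L N E J Γ) {g : V ≃ₗ[ℝ] V} (hg : g ∈ Γ) {x : V}
    (hx : x ∈ Submodule.span ℝ (J : Set V)) : g x ∈ Submodule.span ℝ (J : Set V) := by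
  induction hx using Submodule.span_induction with
  | mem x hx => exact Submodule.subset_span (D.perm g hg x hx)
  | zero => rw [map_zero]; exact Submodule.zero_mem _
  | add x y _ _ hx hy => rw [map_add]; exact Submodule.add_mem _ hx hy
  | smul c x _ hx => rw [map_smul]; exact Submodule.smul_mem _ c hx

/-- `N` is contained in the closure of `E`. -/
theorem BdPair.le_closure (D : BdPair L N E J Γ) {x : V} (hx : x ∈ N) :
    x ∈ closure (E : Set V) := by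
  have hconv : Convex ℝ (N : Set V) := N.convex
  have h1 := hconv.closure_interior_eq_closure_of_nonempty_interior D.good.interior_nonempty
  have h2 : x ∈ closure (interior (N : Set V)) := by
    rw [h1]
    exact subset_closure hx
  exact closure_mono D.int_le h2

/-- Effective points of `N` are combinations of lattice points of `N`. -/
theorem BdPair.inf_le_ratHull (D : BdPair L N E J Γ) : N ⊓ E ≤ ratHull L N := by
  rintro x ⟨hxN, hxE⟩
  obtain ⟨S, hS, hxS⟩ := D.eff_gen x hxE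
  obtain ⟨Ξ, hΞ⟩ := D.cone S hS
  have hP : IsRatPoly L (PointedCone.hull ℝ (S : Set V)) := ⟨S, fun y hy => (hS y hy).1, rfl⟩
  obtain ⟨s, hsL, hs⟩ := isRatPoly_inf_of_le hΞ (fun p hp => (D.comp p hp).1)
    (fun y hy => (hS y hy).1) hP (fun z hz => mem_sumCone.2 ⟨z, hz, by simp⟩)
  have hx : x ∈ N ⊓ PointedCone.hull ℝ (S : Set V) := ⟨hxN, hxS⟩
  rw [hs] at hx
  refine (Submodule.span_mono ?_) hx
  intro a ha
  have : a ∈ N ⊓ PointedCone.hull ℝ (S : Set V) := by rw [hs]; exact Submodule.subset_span ha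
  exact ⟨this.1, hsL ha⟩

end

end Pool.Agent.Lib.Pad47bbB
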