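import Pool.Agent.Lib.Pad47bbB.Eff

/-!
The cone conjecture for `N ∩ E` and covers modulo the span of the boundary components.
-/

open Set Topology

namespace Pool.Agent.Lib.Pad47bbB

open Pool.Agent.Lib.Pad47bb Pool.Agent.Lib.Pad47bbQ Pool.Agent.Lib.Pad47bbV

variable {V : Type*} [NormedAddCommGroup V] [NormedSpace ℝ V] [FiniteDimensional ℝ V]
  {L : Submodule ℤ V} [DiscreteTopology L] [IsZLattice ℝ L]
  {N E : PointedCone ℝ V} {J : Finset V} {Γ : Subgroup (V ≃ₗ[ℝ] V)}

/-- Every point of the interior of `N` is moved by `Γ` into `cone Y + span J`. -/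
def Covers (N : PointedCone ℝ V) (J Y : Finset V) (Γ : Subgroup (V ≃ₗ[ℝ] V)) : Prop :=
  ∀ x ∈ interior (N : Set V), ∃ g ∈ Γ, ∃ y ∈ PointedCone.hull ℝ (Y : Set V),
    g x - y ∈ Submodule.span ℝ (J : Set V)

omit [FiniteDimensional ℝ V] [DiscreteTopology L] [IsZLattice ℝ L] in
/-- The interior of `N` is in the cone generated by the lattice points. -/
theorem BdPair.int_ratHull (D : BdPair L N E J Γ) : interior (N : Set V) ⊆ ratHull L N :=
  fun _ hx => D.inf_le_ratHull ⟨interior_subset hx, D.int_le hx⟩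

/-- From a cover to a finite set of generators, and all points of the generated cone. -/
theorem BdPair.exists_cover (D : BdPair L N E J Γ) (Y : Finset V) (hY : ∀ y ∈ Y, y ∈ L ∧ y ∈ E)
    (hcov : Covers N J Y Γ) : ∃ s : Finset V, (s : Set V) ⊆ L ∧ (s : Set V) ⊆ ratHull L N ∧
      (∀ z ∈ PointedCone.hull ℝ (s : Set V), z ∈ sumCone Y J) ∧
      ∀ x ∈ ratHull L N, ∃ g ∈ Γ, ∃ y ∈ PointedCone.hull ℝ (s : Set V), g y = x := by
  obtain ⟨Ξ, hΞ⟩ := D.cone Y hY
  obtain ⟨s, hsL, hs⟩ := isRatPoly_inf_of_le hΞ (fun p hp => (D.comp p hp).1)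
    (fun y hy => (hY y hy).1) (isRatPoly_sumCone L Y J (fun y hy => (hY y hy).1)
      (fun p hp => (D.comp p hp).1)) le_rfl
  have hsN : ∀ a ∈ s, a ∈ N := fun a ha => by
    have : a ∈ N ⊓ sumCone Y J := by rw [hs]; exact Submodule.subset_span ha
    exact this.1
  have hS := setting_ratHull D.good D.acts D.int_ratHull
  have hsK : (s : Set V) ⊆ ratHull L N := fun a ha =>
    Submodule.subset_span ⟨hsN a ha, hsL ha⟩
  refine ⟨s, hsL, hsK, fun z hz => ?_, ?_⟩
  · rw [← hs] at hz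
    exact hz.2
  · exact closing hS s hsL hsK (fun x hx => exists_finset_of_ratHull hx)
      (fun x hx => by
        have hxN : x ∈ interior (N : Set V) := interior_mono (fun y hy => ratHull_le hy) hx
        obtain ⟨g, hg, y, hy, hw⟩ := hcov x hxN
        refine ⟨g⁻¹, inv_mem hg, g x, ?_, g.symm_apply_apply x⟩
        rw [← hs]
        exact ⟨D.acts.map_cone g hg x (interior_subset hxN), mem_sumCone.2 ⟨y, hy, hw⟩⟩)

omit [FiniteDimensional ℝ V] [DiscreteTopology L] [IsZLattice ℝ L] in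
/-- If the lattice points of `N` are effective, then `N ∩ E` is the cone generated by them. -/
theorem BdPair.inf_eq_ratHull (D : BdPair L N E J Γ) (hNE : ∀ x ∈ L, x ∈ N → x ∈ E) :
    N ⊓ E = ratHull L N := by
  apply le_antisymm D.inf_le_ratHull
  refine Submodule.span_le.2 ?_
  rintro x ⟨hx, hxL⟩
  exact ⟨hx, hNE x hxL hx⟩

/-- A cover gives the cone conjecture, if the lattice points of `N` are effective. -/
theorem BdPair.hasRPFD_of_cover (D : BdPair L N E J Γ) (hNE : ∀ x ∈ L, x ∈ N → x ∈ E)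
    (Y : Finset V) (hY : ∀ y ∈ Y, y ∈ L ∧ y ∈ E) (hcov : Covers N J Y Γ) :
    HasRPFD L Γ (N ⊓ E) := by
  obtain ⟨s, hsL, hsK, -, hs⟩ := D.exists_cover Y hY hcov
  rw [D.inf_eq_ratHull hNE]
  have hS := setting_ratHull D.good D.acts D.int_ratHull
  refine exists_fundDomain hS (P₁ := PointedCone.hull ℝ (s : Set V)) ⟨s, hsL, rfl⟩ ?_
  apply Subset.antisymm
  · intro x hx
    obtain ⟨g, hg, y, hy, rfl⟩ := hs x hx
    exact mem_biUnion hg ⟨y, hy, rfl⟩
  · intro x hx
    simp only [mem_iUnion] at hx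
    obtain ⟨g, hg, y, hy, rfl⟩ := hx
    exact ratHull_map D.acts hg ((Submodule.span_le.2 fun a ha => hsK ha) hy)

/-- The cone conjecture for `N ∩ E`, modulo the span of the boundary components. -/
theorem BdPair.hasRPFD_iff [Nontrivial V] (D : BdPair L N E J Γ) :
    HasRPFD L Γ (N ⊓ E) ↔ (∀ x ∈ L, x ∈ N → x ∈ E) ∧
      ∃ Y : Finset V, (∀ y ∈ Y, y ∈ L ∧ y ∈ E) ∧ Covers N J Y Γ := by
  constructor
  · intro h
    have hM1 : interior (N : Set V) ⊆ ((N ⊓ E : PointedCone ℝ V) : Set V) := fun x hx =>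
      ⟨interior_subset hx, D.int_le hx⟩
    have h1 := ((Pad47bbV.hasRPFD_iff D.good D.acts hM1 inf_le_left).1 h).1
    refine ⟨fun x hxL hxN => ?_, ?_⟩
    · have h2 : x ∈ N ⊓ E := by
        rw [h1]
        exact Submodule.subset_span ⟨hxN, hxL⟩
      exact h2.2
    · obtain ⟨P, ⟨s, hsL, rfl⟩, hcov, -⟩ := h
      have hPM : PointedCone.hull ℝ (s : Set V) ≤ N ⊓ E := by
        intro x hx
        show x ∈ ((N ⊓ E : PointedCone ℝ V) : Set V)
        rw [hcov]
        exact mem_biUnion (one_mem Γ) ⟨x, hx, rfl⟩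
      refine ⟨s, fun y hy => ⟨hsL hy, (hPM (Submodule.subset_span hy)).2⟩, ?_⟩
      intro x hx
      have hx' := hM1 hx
      rw [hcov] at hx'
      simp only [mem_iUnion] at hx'
      obtain ⟨g, hg, y, hy, rfl⟩ := hx'
      refine ⟨g⁻¹, inv_mem hg, y, hy, ?_⟩
      have e : g⁻¹ (g y) = y := g.symm_apply_apply y
      rw [e, sub_self]
      exact Submodule.zero_mem _
  · rintro ⟨hNE, Y, hY, hcov⟩
    exact D.hasRPFD_of_cover hNE Y hY hcov

omit [FiniteDimensional ℝ V] [DiscreteTopology L] [IsZLattice ℝ L] in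
/-- Combinations of points of the interior are zero or in the interior. -/
theorem hull_interior {Y : Finset V} (hY : ∀ y ∈ Y, y ∈ interior (N : Set V)) {y : V}
    (hy : y ∈ PointedCone.hull ℝ (Y : Set V)) : y = 0 ∨ y ∈ interior (N : Set V) := by
  have h1 : PointedCone.hull ℝ (Y : Set V) ≤ intCone N :=
    Submodule.span_le.2 fun a ha => mem_intCone.2 (Or.inr (hY a ha))
  exact mem_intCone.1 (h1 hy)

/-- If the lattice points of `N` in the span of `J` are effective and there is a cover by lattice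
points of the interior, then all lattice points of `N` are effective. -/
theorem BdPair.lattice_eff (D : BdPair L N E J Γ)
    (hW : ∀ x ∈ L, x ∈ N → x ∈ Submodule.span ℝ (J : Set V) → x ∈ E)
    (Y : Finset V) (hY : ∀ y ∈ Y, y ∈ L ∧ y ∈ interior (N : Set V)) (hcov : Covers N J Y Γ) :
    ∀ x ∈ L, x ∈ N → x ∈ E := by
  intro x hxL hxN
  obtain ⟨s, -, -, hsum, hs⟩ := D.exists_cover Y (fun y hy => ⟨(hY y hy).1, D.int_le (hY y hy).2⟩)
    hcov
  obtain ⟨g, hg, z, hz, rfl⟩ := hs x (Submodule.subset_span ⟨hxN, hxL⟩)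
  obtain ⟨y, hy, hw⟩ := mem_sumCone.1 (hsum z hz)
  rcases hull_interior (fun y hy => (hY y hy).2) hy with rfl | hy
  · rw [sub_zero] at hw
    exact hW _ hxL hxN (D.map_span hg hw)
  · refine D.bpf _ hxL hxN ⟨g (z - y), D.map_span hg hw, ?_⟩
    rw [map_sub, sub_sub_cancel]
    exact interior_map_mem (D.acts.map_cone g hg) hy

/-- The cone conjecture for `N ∩ E` from a cover by lattice points of the interior. -/
theorem BdPair.hasRPFD_of_interior (D : BdPair L N E J Γ)
    (hW : ∀ x ∈ L, x ∈ N → x ∈ Submodule.span ℝ (J : Set V) → x ∈ E)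
    (Y : Finset V) (hY : ∀ y ∈ Y, y ∈ L ∧ y ∈ interior (N : Set V)) (hcov : Covers N J Y Γ) :
    HasRPFD L Γ (N ⊓ E) :=
  D.hasRPFD_of_cover (D.lattice_eff hW Y hY hcov) Y
    (fun y hy => ⟨(hY y hy).1, D.int_le (hY y hy).2⟩) hcov

omit [FiniteDimensional ℝ V] [DiscreteTopology L] [IsZLattice ℝ L] in
/-- If the span of `J` meets the interior of `N`, all lattice points of `N` are effective. -/
theorem BdPair.eff_of_meets (D : BdPair L N E J Γ) {e : V} (he : e ∈ interior (N : Set V))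
    (heJ : e ∈ Submodule.span ℝ (J : Set V)) : ∀ x ∈ L, x ∈ N → x ∈ E := by
  intro x hxL hxN
  refine D.bpf x hxL hxN ⟨-e, Submodule.neg_mem _ heJ, ?_⟩
  rw [sub_neg_eq_add, add_comm]
  exact interior_add_mem he hxN

omit [FiniteDimensional ℝ V] [DiscreteTopology L] [IsZLattice ℝ L] in
/-- If the span of `J` has dimension at most one, its lattice points in `N` are effective. -/
theorem BdPair.eff_of_rank_one (D : BdPair L N E J Γ)
    (h1 : Module.finrank ℝ (Submodule.span ℝ (J : Set V)) ≤ 1) :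
    ∀ x ∈ L, x ∈ N → x ∈ Submodule.span ℝ (J : Set V) → x ∈ E := by
  intro x _ hxN hx
  by_cases hx0 : x = 0
  · rw [hx0]; exact Submodule.zero_mem _
  -- an element `p ≠ 0` of `J`
  obtain ⟨p, hp, hp0⟩ : ∃ p ∈ J, p ≠ 0 := by
    by_contra hcon
    push Not at hcon
    apply hx0
    have h2 : Submodule.span ℝ (J : Set V) ≤ ⊥ := Submodule.span_le.2 fun p hp => hcon p hp
    exact h2 hx
  obtain ⟨v, hv⟩ := finrank_le_one_iff.1 h1
  obtain ⟨a, ha⟩ := hv ⟨p, Submodule.subset_span hp⟩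
  obtain ⟨b, hb⟩ := hv ⟨x, hx⟩
  have ha' : a • (v : V) = p := congrArg Subtype.val ha
  have hb' : b • (v : V) = x := congrArg Subtype.val hb
  have ha0 : a ≠ 0 := by
    rintro rfl
    rw [zero_smul] at ha'
    exact hp0 ha'.symm
  have hxp : x = (b / a) • p := by
    rw [← ha', smul_smul, div_mul_cancel₀ _ ha0, hb']
  rcases le_or_gt 0 (b / a) with hc | hc
  · rw [hxp]
    exact E.smul_mem hc (D.comp p hp).2
  · exfalso
    apply hp0
    apply D.eff_salient p (subset_closure (D.comp p hp).2)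
    apply D.le_closure
    have h3 := N.smul_mem (show (0 : ℝ) ≤ (-(b / a))⁻¹ by
      rw [inv_nonneg]; linarith) hxN
    rw [hxp, smul_smul] at h3
    have h4 : (-(b / a))⁻¹ * (b / a) = -1 := by
      rw [inv_neg, neg_mul, inv_mul_cancel₀ hc.ne]
    rwa [h4, neg_one_smul] at h3

end Pool.Agent.Lib.Pad47bbB
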