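import Pool.Agent.Lib.Pad47bbB.EffCover

/-!
The span of the boundary components has codimension at most one.
-/

open Set Topology

namespace Pool.Agent.Lib.Pad47bbB

open Pool.Agent.Lib.Pad47bb Pool.Agent.Lib.Pad47bbQ Pool.Agent.Lib.Pad47bbV

variable {V : Type*} [NormedAddCommGroup V] [NormedSpace ℝ V] [FiniteDimensional ℝ V]
  {L : Submodule ℤ V} [DiscreteTopology L] [IsZLattice ℝ L]
  {N E : PointedCone ℝ V} {J : Finset V} {Γ : Subgroup (V ≃ₗ[ℝ] V)}

omit [FiniteDimensional ℝ V] [DiscreteTopology L] [IsZLattice ℝ L] in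
/-- The hypothesis without effectivity. -/
theorem BdPair.bdCone (D : BdPair L N E J Γ) : ∃ Ξ, BdCone L N J Ξ := by
  obtain ⟨Ξ, hΞ⟩ := D.cone ∅ (by simp)
  obtain ⟨B, hB⟩ := hΞ.bounded
  exact ⟨Ξ, fun p hp => (D.comp p hp).1, hΞ.integral, hΞ.nonneg, ⟨B, fun ξ hξ => (hB ξ hξ).1⟩,
    fun x h1 h2 => hΞ.mem x (fun φ h3 h4 _ => h1 φ h3 h4) h2⟩

omit [DiscreteTopology L] [IsZLattice ℝ L] in
/-- Codimension at most one, in terms of a vector. -/
theorem exists_vec_of_finrank
    (h1 : Module.finrank ℝ V ≤ Module.finrank ℝ (Submodule.span ℝ (J : Set V)) + 1) :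
    ∃ h : V, ∀ x : V, ∃ c : ℝ, x - c • h ∈ Submodule.span ℝ (J : Set V) := by
  have h2 := Submodule.finrank_quotient_add_finrank (Submodule.span ℝ (J : Set V))
  have h3 : Module.finrank ℝ (V ⧸ Submodule.span ℝ (J : Set V)) ≤ 1 := by omega
  obtain ⟨v, hv⟩ := finrank_le_one_iff.1 h3
  obtain ⟨h, rfl⟩ := Submodule.Quotient.mk_surjective _ v
  refine ⟨h, fun x => ?_⟩
  obtain ⟨c, hc⟩ := hv (Submodule.Quotient.mk x)
  refine ⟨c, ?_⟩
  rw [← Submodule.Quotient.mk_smul] at hc
  have h4 := (Submodule.Quotient.eq _).1 hc.symm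
  exact h4

/-- In codimension at most one, `N` is rational polyhedral. -/
theorem BdPair.isRatPoly (D : BdPair L N E J Γ)
    (h1 : Module.finrank ℝ V ≤ Module.finrank ℝ (Submodule.span ℝ (J : Set V)) + 1) :
    IsRatPoly L N := by
  obtain ⟨h, hh⟩ := exists_vec_of_finrank h1
  obtain ⟨Ξ, hΞ⟩ := D.bdCone
  exact isRatPoly_of_corank D.good.interior_nonempty hΞ h hh

omit [DiscreteTopology L] [IsZLattice ℝ L] in
/-- In codimension at most one, the lattice points of `N` are effective if those in the span of `J`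
are. -/
theorem BdPair.eff_of_corank (D : BdPair L N E J Γ)
    (h1 : Module.finrank ℝ V ≤ Module.finrank ℝ (Submodule.span ℝ (J : Set V)) + 1)
    (hW : ∀ x ∈ L, x ∈ N → x ∈ Submodule.span ℝ (J : Set V) → x ∈ E) :
    ∀ x ∈ L, x ∈ N → x ∈ E := by
  by_cases hm : ∃ e ∈ interior (N : Set V), e ∈ Submodule.span ℝ (J : Set V)
  · obtain ⟨e, he, heJ⟩ := hm
    exact D.eff_of_meets he heJ
  push Not at hm
  obtain ⟨h, hh⟩ := exists_vec_of_finrank h1
  obtain ⟨e, he⟩ := D.good.interior_nonempty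
  obtain ⟨a, ha⟩ := hh e
  have ha0 : a ≠ 0 := by
    rintro rfl
    rw [zero_smul, sub_zero] at ha
    exact hm e he ha
  intro x hxL hxN
  obtain ⟨b, hb⟩ := hh x
  set c : ℝ := b / a with hc
  have hw : x - c • e ∈ Submodule.span ℝ (J : Set V) := by
    have h2 := Submodule.sub_mem _ hb (Submodule.smul_mem _ c ha)
    have h3 : x - b • h - c • (e - a • h) = x - c • e := by
      rw [smul_sub, smul_smul, hc, div_mul_cancel₀ _ ha0]
      abel
    rwa [h3] at h2
  rcases lt_trichotomy c 0 with hc0 | hc0 | hc0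
  · exfalso
    refine hm (x - c • e) ?_ hw
    rw [sub_eq_add_neg, ← neg_smul, add_comm]
    exact interior_add_mem (interior_smul_mem he (by linarith)) hxN
  · rw [hc0, zero_smul, sub_zero] at hw
    exact hW x hxL hxN hw
  · refine D.bpf x hxL hxN ⟨x - c • e, hw, ?_⟩
    rw [sub_sub_cancel]
    exact interior_smul_mem he hc0

/-- The cone conjecture in codimension at most one. -/
theorem BdPair.hasRPFD_of_corank (D : BdPair L N E J Γ)
    (h1 : Module.finrank ℝ V ≤ Module.finrank ℝ (Submodule.span ℝ (J : Set V)) + 1)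
    (hW : ∀ x ∈ L, x ∈ N → x ∈ Submodule.span ℝ (J : Set V) → x ∈ E) :
    IsRatPoly L N ∧ N ≤ E ∧ HasRPFD L Γ (N ⊓ E) := by
  have hP := D.isRatPoly h1
  have hNE : N ≤ E := by
    obtain ⟨s, hsL, hs⟩ := hP
    rw [hs]
    refine Submodule.span_le.2 fun a ha => ?_
    have haN : a ∈ N := by rw [hs]; exact Submodule.subset_span ha
    exact D.eff_of_corank h1 hW a (hsL ha) haN
  refine ⟨hP, hNE, ?_⟩
  rw [inf_eq_left.2 hNE]
  obtain ⟨h, hh⟩ := exists_vec_of_finrank h1
  obtain ⟨Ξ, hΞ⟩ := D.bdCone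
  exact Pad47bbB.hasRPFD_of_corank D.good hΞ h hh D.acts

/-- The group is finite if `N` is rational polyhedral. -/
theorem finite_of_isRatPoly (hN : Good N) (hA : Acts L N Γ) (hP : IsRatPoly L N) :
    Finite Γ := by
  obtain ⟨s, hsL, hs⟩ := hP
  have hS : Setting L N Γ := by
    refine ⟨?_, hN.interior_nonempty, hA.map_lattice, hA.map_cone⟩
    intro x hx hx'
    rw [hN.closed.closure_eq] at hx hx'
    exact hN.salient x hx hx'
  obtain ⟨f, hf⟩ := exists_pos N hS.salient
  have hsN : (s : Set V) ⊆ N := fun a ha => by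
    rw [hs]; exact Submodule.subset_span ha
  have hfin := Pad47bbM.siegel hS f hf s hsL hsN s hsL hsN
  refine Set.Finite.to_subtype (hfin.subset ?_)
  intro g hg
  obtain ⟨e, he⟩ := hN.interior_nonempty
  refine ⟨hg, e, ?_, ?_, interior_map_mem (hA.map_cone g hg) he⟩
  · rw [← hs]; exact interior_subset he
  · rw [← hs]; exact hA.map_cone g hg e (interior_subset he)

end Pool.Agent.Lib.Pad47bbB
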