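import Pool.Agent.Lib.Pad47bb.LogLattice

/-!
The quotient of a lattice by a subspace spanned by lattice vectors.
-/

open Set Topology

namespace Pool.Agent.Lib.Pad47bbB

open Pool.Agent.Lib.Pad47bb

variable {V : Type*} [NormedAddCommGroup V] [NormedSpace ℝ V] [FiniteDimensional ℝ V]
  (L : Submodule ℤ V) [DiscreteTopology L] [IsZLattice ℝ L]

/-- The coordinates of lattice vectors with respect to a basis of lattice vectors have a common
denominator. -/
theorem exists_denom {ι : Type*} [Fintype ι] (B : Module.Basis ι ℝ V) (hB : ∀ i, B i ∈ L) :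
    ∃ n : ℕ, 0 < n ∧ ∀ x ∈ L, ∀ i, ∃ m : ℤ, (n : ℝ) * B.repr x i = m := by
  classical
  have : Module.Free ℤ L := ZLattice.module_free ℝ L
  have : Module.Finite ℤ L := ZLattice.module_finite ℝ L
  let v : ι → L := fun i => ⟨B i, hB i⟩
  have hv : LinearIndependent ℤ v := by
    have h1 : LinearIndependent ℤ (fun i => (v i : V)) := by
      refine B.linearIndependent.restrict_scalars ?_
      intro a b hab
      simpa using hab
    exact LinearIndependent.of_comp L.subtype h1
  let N : Submodule ℤ L := Submodule.span ℤ (Set.range v)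
  have hN : Module.finrank ℤ N = Module.finrank ℤ L := by
    rw [finrank_span_eq_card hv, ZLattice.rank ℝ L, Module.finrank_eq_card_basis B]
  have hfin : Finite (L ⧸ N) := Submodule.finiteQuotientOfFreeOfRankEq N hN
  refine ⟨Nat.card (L ⧸ N), Nat.card_pos, fun x hx i => ?_⟩
  have h1 : Nat.card (L ⧸ N) • (Submodule.Quotient.mk (p := N) ⟨x, hx⟩) = 0 := card_nsmul_eq_zero'
  have h2 : Nat.card (L ⧸ N) • (⟨x, hx⟩ : L) ∈ N := by
    rw [← Submodule.Quotient.mk_eq_zero, Submodule.Quotient.mk_smul]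
    exact h1
  have h3 : ∀ y ∈ N, ∃ m : ℤ, B.repr (y : V) i = m := by
    intro y hy
    induction hy using Submodule.span_induction with
    | mem y hy =>
      obtain ⟨j, rfl⟩ := hy
      refine ⟨if j = i then 1 else 0, ?_⟩
      show B.repr (B j) i = _
      rw [B.repr_self, Finsupp.single_apply]
      split_ifs <;> simp
    | zero => exact ⟨0, by simp⟩
    | add a b _ _ ha hb =>
      obtain ⟨m, hm⟩ := ha
      obtain ⟨n, hn⟩ := hb
      refine ⟨m + n, ?_⟩
      rw [Submodule.coe_add, map_add, Finsupp.add_apply, hm, hn]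
      push_cast
      ring
    | smul c a _ ha =>
      obtain ⟨m, hm⟩ := ha
      refine ⟨c * m, ?_⟩
      rw [Submodule.coe_smul, ← Int.cast_smul_eq_zsmul ℝ, map_smul, Finsupp.smul_apply, hm]
      push_cast
      rw [smul_eq_mul]
  obtain ⟨m, hm⟩ := h3 _ h2
  refine ⟨m, ?_⟩
  have h4 : ((Nat.card (L ⧸ N) • (⟨x, hx⟩ : L) : L) : V) = Nat.card (L ⧸ N) • x :=
    AddSubmonoidClass.coe_nsmul _ _
  rw [← hm, h4, ← Nat.cast_smul_eq_nsmul ℝ, map_smul, Finsupp.smul_apply, smul_eq_mul]

/-- The quotient of `V` by the span of `J`, in coordinates integral on `L`. -/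
theorem exists_quot {J : Finset V} (hJ : ∀ p ∈ J, p ∈ L) {k : ℕ}
    (hk : Module.finrank ℝ V = Module.finrank ℝ (Submodule.span ℝ (J : Set V)) + k) :
    ∃ π : V →ₗ[ℝ] (Fin k → ℝ), Function.Surjective π ∧
      (∀ x, π x = 0 ↔ x ∈ Submodule.span ℝ (J : Set V)) ∧
      ∀ x ∈ L, ∀ i, ∃ n : ℤ, π x i = n := by
  classical
  obtain ⟨s, hsJ, hspan, hli⟩ := exists_linearIndependent ℝ (J : Set V)
  have hsL : s ⊆ (L : Set V) := fun x hx => hJ x (hsJ hx)
  obtain ⟨b, hbL, hsb, hLb, hbli⟩ := exists_linearIndepOn_id_extension (K := ℝ) hli hsL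
  have htop : ⊤ ≤ Submodule.span ℝ (Set.range ((↑) : b → V)) := by
    rw [Subtype.range_coe, ← IsZLattice.span_top (K := ℝ) (L := L)]
    exact Submodule.span_le.2 hLb
  let B : Module.Basis b ℝ V := Module.Basis.mk hbli htop
  have hBi : ∀ i, B i = (i : V) := fun i => Module.Basis.mk_apply hbli htop i
  have : Fintype b := FiniteDimensional.fintypeBasisIndex B
  have : Fintype s := Fintype.ofInjective (fun x : s => (⟨x, hsb x.2⟩ : b)) (by
    intro x y hxy
    have := congrArg Subtype.val hxy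
    exact Subtype.ext this)
  obtain ⟨n, hn, hdenom⟩ := exists_denom L B (fun i => by rw [hBi]; exact hbL i.2)
  have hn0 : (n : ℝ) ≠ 0 := by positivity
  have hcard : Fintype.card {i : b // (i : V) ∉ s} = k := by
    have h1 : Fintype.card {i : b // (i : V) ∈ s} = Fintype.card s := by
      refine Fintype.card_congr
        ⟨fun i => ⟨i.1.1, i.2⟩, fun x => ⟨⟨x, hsb x.2⟩, x.2⟩, fun i => rfl, fun x => rfl⟩
    have h2 : Fintype.card {i : b // (i : V) ∉ s} =
        Fintype.card b - Fintype.card {i : b // (i : V) ∈ s} :=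
      Fintype.card_subtype_compl _
    have h3 : Fintype.card b = Module.finrank ℝ V := (Module.finrank_eq_card_basis B).symm
    have h4 : Fintype.card s = Module.finrank ℝ (Submodule.span ℝ (J : Set V)) := by
      rw [← hspan, ← finrank_span_eq_card hli, Subtype.range_coe]
    omega
  let e : Fin k ≃ {i : b // (i : V) ∉ s} := (Fintype.equivFinOfCardEq hcard).symm
  let π : V →ₗ[ℝ] (Fin k → ℝ) := LinearMap.pi fun j => (n : ℝ) • B.coord (e j).1
  have hπ : ∀ x j, π x j = (n : ℝ) * B.repr x (e j).1 := fun x j => rfl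
  refine ⟨π, ?_, ?_, ?_⟩
  · intro u
    refine ⟨∑ j, (u j / n) • B (e j).1, ?_⟩
    funext i
    rw [hπ, map_sum, Finsupp.finsetSum_apply, Finset.sum_eq_single i]
    · rw [map_smul, B.repr_self, Finsupp.smul_apply, Finsupp.single_eq_same, smul_eq_mul, mul_one]
      field_simp
    · intro j _ hji
      rw [map_smul, B.repr_self, Finsupp.smul_apply, Finsupp.single_apply, if_neg, smul_zero]
      intro h
      exact hji (e.injective (Subtype.ext h))
    · intro h
      exact absurd (Finset.mem_univ i) h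
  · intro x
    have himg : ((B : b → V) '' {i : b | (i : V) ∈ s}) = s := by
      ext y
      constructor
      · rintro ⟨i, hi, rfl⟩
        rw [hBi]
        exact hi
      · intro hy
        exact ⟨⟨y, hsb hy⟩, hy, hBi _⟩
    rw [← hspan, ← himg, B.mem_span_image]
    constructor
    · intro h i hi
      by_contra his
      rw [Finset.mem_coe, Finsupp.mem_support_iff] at hi
      apply hi
      have h1 : π x (e.symm ⟨i, his⟩) = 0 := by rw [h]; rfl
      rw [hπ, Equiv.apply_symm_apply] at h1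
      exact (mul_eq_zero.1 h1).resolve_left hn0
    · intro h
      funext j
      rw [hπ]
      have h1 : B.repr x (e j).1 = 0 := by
        by_contra hne
        exact (e j).2 (h (Finset.mem_coe.2 (Finsupp.mem_support_iff.2 hne)))
      rw [h1, mul_zero]
      rfl
  · intro x hx j
    exact hdenom x hx (e j).1

omit [FiniteDimensional ℝ V] in
/-- The image of the lattice is a lattice. -/
theorem lattice_image {k : ℕ} (π : V →ₗ[ℝ] (Fin k → ℝ)) (hπ : Function.Surjective π)
    (hint : ∀ x ∈ L, ∀ i, ∃ n : ℤ, π x i = n) :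
    ∃ M : Submodule ℤ (Fin k → ℝ), (∀ u, u ∈ M ↔ ∃ x ∈ L, π x = u) ∧
      ∃ _ : DiscreteTopology M, IsZLattice ℝ M := by
  classical
  let M : Submodule ℤ (Fin k → ℝ) := Submodule.map (π.restrictScalars ℤ) L
  have hM : ∀ u, u ∈ M ↔ ∃ x ∈ L, π x = u := fun u => Iff.rfl
  have hd : DiscreteTopology M := by
    refine discrete_of_gap M ⟨1, one_pos, ?_⟩
    rintro s hs h1
    obtain ⟨x, hx, rfl⟩ := (hM s).1 hs
    funext i
    obtain ⟨n, hn⟩ := hint x hx i
    have h2 : ‖π x i‖ < 1 := (norm_le_pi_norm (π x) i).trans_lt h1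
    rw [hn, Real.norm_eq_abs] at h2
    have h3 : |n| < 1 := by exact_mod_cast h2
    rw [Int.abs_lt_one_iff] at h3
    rw [hn, h3]
    simp
  refine ⟨M, hM, hd, ⟨?_⟩⟩
  have h1 : (M : Set (Fin k → ℝ)) = π '' (L : Set V) := rfl
  rw [h1, ← Submodule.map_span, IsZLattice.span_top (K := ℝ) (L := L), Submodule.map_top,
    LinearMap.range_eq_top.2 hπ]

end Pool.Agent.Lib.Pad47bbB
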