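import Pool.Agent.Lib.Pad47bbB.Main

/-!
The cone conjecture modulo the boundary, in the quotient space: if the group preserves the span of
the boundary components and the image of the cone in the quotient has no lines, then the absolute
statement is equivalent to the statement on the quotient.
-/

open Set Topology

namespace Pool.Agent.Lib.Pad47bbB

open Pool.Agent.Lib.Pad47bb Pool.Agent.Lib.Pad47bbQ Pool.Agent.Lib.Pad47bbV

variable {V : Type*} [NormedAddCommGroup V] [NormedSpace ℝ V] [FiniteDimensional ℝ V]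
  {L : Submodule ℤ V} [DiscreteTopology L] [IsZLattice ℝ L]
  {U : Type*} [NormedAddCommGroup U] [NormedSpace ℝ U] [FiniteDimensional ℝ U]

/-- Data of a quotient: `π : V → U` surjective with kernel `span J`, `M = π(L)`, and `Γ'` the group
of the automorphisms of `U` induced by the elements of `Γ`, which preserve `span J`. -/
structure IsQuot (L : Submodule ℤ V) (J : Finset V) (Γ : Subgroup (V ≃ₗ[ℝ] V))
    (π : V →ₗ[ℝ] U) (M : Submodule ℤ U) (Γ' : Subgroup (U ≃ₗ[ℝ] U)) : Prop where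
  surj : Function.Surjective π
  ker : ∀ x, π x = 0 ↔ x ∈ Submodule.span ℝ (J : Set V)
  lattice : ∀ u, u ∈ M ↔ ∃ x ∈ L, π x = u
  preserves : ∀ g ∈ Γ, ∀ p ∈ J, g p ∈ Submodule.span ℝ (J : Set V)
  group : ∀ h : U ≃ₗ[ℝ] U, h ∈ Γ' ↔ ∃ g ∈ Γ, ∀ x, h (π x) = π (g x)

omit [FiniteDimensional ℝ V] [DiscreteTopology L] [IsZLattice ℝ L] [FiniteDimensional ℝ U] in
/-- Elements of `Γ` preserve the span of `J`. -/
theorem IsQuot.map_span {J : Finset V} {Γ : Subgroup (V ≃ₗ[ℝ] V)} {π : V →ₗ[ℝ] U}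
    {M : Submodule ℤ U} {Γ' : Subgroup (U ≃ₗ[ℝ] U)} (Q : IsQuot L J Γ π M Γ')
    {g : V ≃ₗ[ℝ] V} (hg : g ∈ Γ) {x : V} (hx : x ∈ Submodule.span ℝ (J : Set V)) :
    g x ∈ Submodule.span ℝ (J : Set V) := by
  induction hx using Submodule.span_induction with
  | mem x hx => exact Q.preserves g hg x hx
  | zero => rw [map_zero]; exact Submodule.zero_mem _
  | add x y _ _ hx hy => rw [map_add]; exact Submodule.add_mem _ hx hy
  | smul c x _ hx => rw [map_smul]; exact Submodule.smul_mem _ c hx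

omit [FiniteDimensional ℝ V] [DiscreteTopology L] [IsZLattice ℝ L] [FiniteDimensional ℝ U] in
/-- Every element of `Γ` induces an automorphism of the quotient. -/
theorem IsQuot.exists_induced {J : Finset V} {Γ : Subgroup (V ≃ₗ[ℝ] V)} {π : V →ₗ[ℝ] U}
    {M : Submodule ℤ U} {Γ' : Subgroup (U ≃ₗ[ℝ] U)} (Q : IsQuot L J Γ π M Γ')
    {g : V ≃ₗ[ℝ] V} (hg : g ∈ Γ) : ∃ h ∈ Γ', ∀ x, h (π x) = π (g x) := by
  have hinv : ∀ g ∈ Γ, ∀ x y, π x = π y → π (g x) = π (g y) := by
    intro g hg x y hxy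
    have h1 : π (x - y) = 0 := by rw [map_sub, hxy, sub_self]
    have h2 := Q.map_span hg ((Q.ker _).1 h1)
    have h3 := (Q.ker _).2 h2
    rw [map_sub, map_sub, sub_eq_zero] at h3
    exact h3
  choose σ hσ using Q.surj
  have hg' := inv_mem hg
  let h : U ≃ₗ[ℝ] U :=
    { toFun := fun u => π (g (σ u))
      map_add' := fun u v => by
        rw [← map_add, ← map_add]
        exact hinv g hg _ _ (by rw [hσ, map_add, hσ, hσ])
      map_smul' := fun c u => by
        rw [RingHom.id_apply, ← map_smul, ← map_smul]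
        exact hinv g hg _ _ (by rw [hσ, map_smul, hσ])
      invFun := fun u => π (g⁻¹ (σ u))
      left_inv := fun u => by
        have h1 := hinv g⁻¹ hg' (σ (π (g (σ u)))) (g (σ u)) (hσ _)
        have h2 : g⁻¹ (g (σ u)) = σ u := g.symm_apply_apply _
        rw [h2, hσ] at h1
        exact h1
      right_inv := fun u => by
        have h1 := hinv g hg (σ (π (g⁻¹ (σ u)))) (g⁻¹ (σ u)) (hσ _)
        have h2 : g (g⁻¹ (σ u)) = σ u := g.apply_symm_apply _
        rw [h2, hσ] at h1
        exact h1 }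
  have hh : ∀ x, h (π x) = π (g x) := fun x => hinv g hg _ _ (hσ _)
  exact ⟨h, (Q.group h).2 ⟨g, hg, hh⟩, hh⟩

omit [FiniteDimensional ℝ V] [FiniteDimensional ℝ U] in
theorem map_hull (π : V →ₗ[ℝ] U) (s : Finset V) [DecidableEq U] {u : U} :
    u ∈ PointedCone.hull ℝ ((s.image π : Finset U) : Set U) ↔
      ∃ y ∈ PointedCone.hull ℝ (s : Set V), π y = u := by
  constructor
  · intro hu
    induction hu using Submodule.span_induction with
    | mem u hu =>
      obtain ⟨a, ha, rfl⟩ := Finset.mem_image.1 hu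
      exact ⟨a, Submodule.subset_span ha, rfl⟩
    | zero => exact ⟨0, Submodule.zero_mem _, map_zero _⟩
    | add u v _ _ hu hv =>
      obtain ⟨a, ha, rfl⟩ := hu
      obtain ⟨b, hb, rfl⟩ := hv
      exact ⟨a + b, Submodule.add_mem _ ha hb, map_add _ _ _⟩
    | smul c u _ hu =>
      obtain ⟨a, ha, rfl⟩ := hu
      exact ⟨c • a, Submodule.smul_mem _ c ha, map_smul π c.1 a⟩
  · rintro ⟨y, hy, rfl⟩
    induction hy using Submodule.span_induction with
    | mem y hy => exact Submodule.subset_span (Finset.mem_image_of_mem _ hy)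
    | zero => rw [map_zero]; exact Submodule.zero_mem _
    | add a b _ _ ha hb => rw [map_add]; exact Submodule.add_mem _ ha hb
    | smul c a _ ha =>
      have h1 : π (c • a) = c • π a := map_smul π c.1 a
      rw [h1]
      exact Submodule.smul_mem _ c ha

/-- The absolute statement is equivalent to the statement on the quotient. -/
theorem hasRPFD_iff_quot [Nontrivial V] {N : PointedCone ℝ V} (hN : Good N)
    {J : Finset V} {Ξ : Set (V →L[ℝ] ℝ)} (D : BdCone L N J Ξ)
    {Γ : Subgroup (V ≃ₗ[ℝ] V)} (hA : Acts L N Γ) {K : PointedCone ℝ V}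
    (hK1 : interior (N : Set V) ⊆ K) (hK2 : K ≤ N)
    {π : V →ₗ[ℝ] U} {M : Submodule ℤ U} [DiscreteTopology M] [IsZLattice ℝ M]
    {Γ' : Subgroup (U ≃ₗ[ℝ] U)} (Q : IsQuot L J Γ π M Γ')
    (hsal : ∀ u ∈ closure (π '' (N : Set V)), -u ∈ closure (π '' (N : Set V)) → u = 0) :
    HasRPFD L Γ K ↔ K = ratHull L N ∧ HasRPFD M Γ' (PointedCone.map π K) := by
  classical
  have hπc : Continuous π := LinearMap.continuous_of_finiteDimensional π
  have hcoe : ∀ u, u ∈ PointedCone.map π K ↔ ∃ x ∈ K, π x = u := fun u => Iff.rfl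
  constructor
  · intro h
    have h1 := ((hasRPFD_iff hN hA hK1 hK2).1 h).1
    refine ⟨h1, ?_⟩
    obtain ⟨P, ⟨s, hsL, rfl⟩, hcov, -⟩ := h
    have hsK : ∀ y ∈ PointedCone.hull ℝ (s : Set V), y ∈ K := by
      intro x hx
      show x ∈ (K : Set V)
      rw [hcov]
      exact mem_biUnion (one_mem Γ) ⟨x, hx, rfl⟩
    have hΓK : ∀ g ∈ Γ, ∀ x ∈ K, g x ∈ K := by
      intro g hg x hx
      rw [h1] at hx ⊢
      exact ratHull_map hA hg hx
    have hS : Setting M (PointedCone.map π K) Γ' := by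
      refine ⟨?_, ?_, ?_, ?_⟩
      · have hsub : ((PointedCone.map π K : PointedCone ℝ U) : Set U) ⊆ π '' (N : Set V) := by
          rintro u ⟨x, hx, rfl⟩
          exact ⟨x, hK2 hx, rfl⟩
        intro u hu hu'
        exact hsal u (closure_mono hsub hu) (closure_mono hsub hu')
      · obtain ⟨e, he⟩ := hN.interior_nonempty
        refine ⟨π e, ?_⟩
        rw [mem_interior]
        refine ⟨π '' interior (N : Set V), ?_, ?_, ⟨e, he, rfl⟩⟩
        · rintro _ ⟨x, hx, rfl⟩
          exact ⟨x, hK1 hx, rfl⟩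
        · exact (LinearMap.isOpenMap_of_finiteDimensional π Q.surj) _ isOpen_interior
      · intro h hh u hu
        obtain ⟨g, hg, hgh⟩ := (Q.group h).1 hh
        obtain ⟨x, hx, rfl⟩ := (Q.lattice u).1 hu
        rw [hgh]
        exact (Q.lattice _).2 ⟨g x, hA.map_lattice g hg x hx, rfl⟩
      · intro h hh u hu
        obtain ⟨g, hg, hgh⟩ := (Q.group h).1 hh
        obtain ⟨x, hx, rfl⟩ := (hcoe u).1 hu
        rw [hgh]
        exact ⟨g x, hΓK g hg x hx, rfl⟩
    refine exists_fundDomain hS (P₁ := PointedCone.hull ℝ ((s.image π : Finset U) : Set U))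
      ⟨s.image π, ?_, rfl⟩ ?_
    · intro u hu
      obtain ⟨a, ha, rfl⟩ := Finset.mem_image.1 hu
      exact (Q.lattice _).2 ⟨a, hsL ha, rfl⟩
    · apply Subset.antisymm
      · rintro u ⟨x, hx, rfl⟩
        have hx' : x ∈ (K : Set V) := hx
        rw [hcov] at hx'
        simp only [mem_iUnion] at hx'
        obtain ⟨g, hg, y, hy, rfl⟩ := hx'
        obtain ⟨h, hh, hgh⟩ := Q.exists_induced hg
        exact mem_biUnion hh ⟨π y, (map_hull π s).2 ⟨y, hy, rfl⟩, hgh y⟩
      · intro u hu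
        simp only [mem_iUnion] at hu
        obtain ⟨h, hh, v, hv, rfl⟩ := hu
        obtain ⟨g, hg, hgh⟩ := (Q.group h).1 hh
        obtain ⟨y, hy, rfl⟩ := (map_hull π s).1 hv
        exact ⟨g y, hΓK g hg y (hsK y hy), (hgh y).symm⟩
  · rintro ⟨rfl, P, ⟨s, hsM, rfl⟩, hcov, -⟩
    refine (hasRPFD_iff_mod hN D hA hK1 hK2).2 ⟨rfl, ?_⟩
    -- lift the generators
    have hs : ∀ u ∈ s, ∃ Y : Finset V, (∀ y ∈ Y, y ∈ L ∧ y ∈ N) ∧
        ∃ y ∈ PointedCone.hull ℝ (Y : Set V), π y = u := by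
      intro u hu
      have h1 : u ∈ ((PointedCone.map π (ratHull L N) : PointedCone ℝ U) : Set U) := by
        rw [hcov]
        exact mem_biUnion (one_mem Γ') ⟨u, Submodule.subset_span hu, rfl⟩
      obtain ⟨x, hx, rfl⟩ := h1
      obtain ⟨w, hwL, hwN, hxw⟩ := exists_finset_of_ratHull hx
      exact ⟨w, fun y hy => ⟨hwL hy, ratHull_le (hwN hy)⟩, x, hxw, rfl⟩
    choose! Y hY y hy hyu using hs
    refine ⟨s.biUnion Y, ?_, ?_⟩
    · intro a ha
      obtain ⟨u, hu, ha⟩ := Finset.mem_biUnion.1 ha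
      exact hY u hu a ha
    · intro x hx
      have h1 : π x ∈ ((PointedCone.map π (ratHull L N) : PointedCone ℝ U) : Set U) :=
        ⟨x, hK1 hx, rfl⟩
      rw [hcov] at h1
      simp only [mem_iUnion] at h1
      obtain ⟨h, hh, v, hv, hvx⟩ := h1
      obtain ⟨g, hg, hgh⟩ := (Q.group h).1 hh
      -- `v` lifts to the hull
      have h2 : ∃ z ∈ PointedCone.hull ℝ ((s.biUnion Y : Finset V) : Set V), π z = v := by
        obtain ⟨c, hc, hvc⟩ := mem_hull_finset.1 hv
        refine ⟨∑ u ∈ s, c u • y u, ?_, ?_⟩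
        · refine Submodule.sum_mem _ fun u hu => ?_
          have h3 : PointedCone.hull ℝ (Y u : Set V) ≤
              PointedCone.hull ℝ ((s.biUnion Y : Finset V) : Set V) := by
            apply Submodule.span_mono
            intro a ha
            exact Finset.mem_coe.2 (Finset.mem_biUnion.2 ⟨u, hu, ha⟩)
          exact (PointedCone.hull ℝ ((s.biUnion Y : Finset V) : Set V)).smul_mem (hc u hu)
            (h3 (hy u hu))
        · rw [map_sum, hvc]
          refine Finset.sum_congr rfl fun u hu => ?_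
          rw [map_smul, hyu u hu]
      obtain ⟨z, hz, rfl⟩ := h2
      refine ⟨g⁻¹, inv_mem hg, z, hz, ?_⟩
      have h4 : π (g z) = π x := by rw [← hgh]; exact hvx
      have h5 : g z - x ∈ Submodule.span ℝ (J : Set V) := by
        rw [← Q.ker, map_sub, h4, sub_self]
      have h6 := Q.map_span (inv_mem hg) h5
      have h7 : g⁻¹ (g z - x) = z - g⁻¹ x := by
        rw [map_sub]
        congr 1
        exact g.symm_apply_apply z
      rw [h7] at h6
      have h8 := Submodule.neg_mem _ h6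
      rwa [neg_sub] at h8

end Pool.Agent.Lib.Pad47bbB
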