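import Mathlib

/-!
Infinite groups of automorphisms of a lattice in a real plane: every invariant set is covered, up to
the group, by a finitely generated cone with generators in the set.
-/

open Set

namespace Pool.Agent.Lib.Pad47bbB

variable {U : Type*} [AddCommGroup U] [Module ℝ U]

theorem sector_zpow_eigen (g : U ≃ₗ[ℝ] U) (v : U) (l : ℝ) (hl : l ≠ 0) (h : g v = l • v) (k : ℤ) :
    (g ^ k) v = l ^ k • v := by
  have hinv : g⁻¹ v = l⁻¹ • v := by
    have h1 : g (l⁻¹ • v) = v := by rw [map_smul, h, smul_smul, inv_mul_cancel₀ hl, one_smul]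
    calc g⁻¹ v = g⁻¹ (g (l⁻¹ • v)) := by rw [h1]
      _ = l⁻¹ • v := g.symm_apply_apply _
  induction k using Int.induction_on with
  | zero => simp
  | succ n ih =>
    rw [zpow_add_one, LinearEquiv.mul_apply, h, map_smul, ih, smul_smul, zpow_add_one₀ hl,
      mul_comm]
  | pred n ih =>
    rw [zpow_sub_one, LinearEquiv.mul_apply, hinv, map_smul, ih, smul_smul, zpow_sub_one₀ hl,
      mul_comm]

theorem sector_zpow_unip (g : U ≃ₗ[ℝ] U) (v w : U) (hv : g v = v + w) (hw : g w = w) (k : ℤ) :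
    (g ^ k) v = v + (k : ℝ) • w ∧ (g ^ k) w = w := by
  have hw' : g⁻¹ w = w := by
    calc g⁻¹ w = g⁻¹ (g w) := by rw [hw]
      _ = w := g.symm_apply_apply _
  have hv' : g⁻¹ v = v - w := by
    have h1 : g (v - w) = v := by rw [map_sub, hv, hw]; abel
    calc g⁻¹ v = g⁻¹ (g (v - w)) := by rw [h1]
      _ = v - w := g.symm_apply_apply _
  induction k using Int.induction_on with
  | zero => simp
  | succ n ih =>
    obtain ⟨ih1, ih2⟩ := ih
    constructor
    · rw [zpow_add_one, LinearEquiv.mul_apply, hv, map_add, ih1, ih2]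
      push_cast
      module
    · rw [zpow_add_one, LinearEquiv.mul_apply, hw, ih2]
  | pred n ih =>
    obtain ⟨ih1, ih2⟩ := ih
    constructor
    · rw [zpow_sub_one, LinearEquiv.mul_apply, hv', map_sub, ih1, ih2]
      push_cast
      module
    · rw [zpow_sub_one, LinearEquiv.mul_apply, hw', ih2]

theorem sector_comb_mem {s : Set U} {y z : U} (hy : y ∈ s) (hz : z ∈ s) {p q : ℝ} (hp : 0 ≤ p)
    (hq : 0 ≤ q) : p • y + q • z ∈ PointedCone.hull ℝ s := by
  have h1 : p • y ∈ PointedCone.hull ℝ s :=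
    Submodule.smul_mem (PointedCone.hull ℝ s) (⟨p, hp⟩ : {c : ℝ // 0 ≤ c})
      (Submodule.subset_span hy)
  have h2 : q • z ∈ PointedCone.hull ℝ s :=
    Submodule.smul_mem (PointedCone.hull ℝ s) (⟨q, hq⟩ : {c : ℝ // 0 ≤ c})
      (Submodule.subset_span hz)
  exact Submodule.add_mem _ h1 h2

/-- Points with coordinates of the same signs: hyperbolic case. -/
theorem sector_hyp {g : U ≃ₗ[ℝ] U} {v w : U} {l : ℝ} (hl : 1 < l) (hv : g v = l • v)
    (hw : g w = l⁻¹ • w) {a b α β : ℝ} (hα : SignType.sign α = SignType.sign a)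
    (hβ : SignType.sign β = SignType.sign b) :
    ∃ k : ℤ, ∃ p q : ℝ, 0 ≤ p ∧ 0 ≤ q ∧
      (g ^ k) (α • v + β • w) = p • (a • v + b • w) + q • g (a • v + b • w) := by
  have l0 : 0 < l := by linarith
  have hgk : ∀ k : ℤ, (g ^ k) (α • v + β • w) = (l ^ k * α) • v + ((l ^ k)⁻¹ * β) • w := by
    intro k
    rw [map_add, map_smul, map_smul, sector_zpow_eigen g v l l0.ne' hv k,
      sector_zpow_eigen g w l⁻¹ (inv_ne_zero l0.ne') hw k, smul_smul, smul_smul, inv_zpow,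
      mul_comm α, mul_comm β]
  have hg1 : g (a • v + b • w) = (l * a) • v + (l⁻¹ * b) • w := by
    rw [map_add, map_smul, map_smul, hv, hw, smul_smul, smul_smul, mul_comm a, mul_comm b]
  have hsame : ∀ x y : ℝ, SignType.sign x = SignType.sign y → y ≠ 0 → 0 < x / y := by
    intro x y hxy hy
    rcases lt_or_gt_of_ne hy with h | h
    · rw [sign_neg h] at hxy
      exact div_pos_of_neg_of_neg (sign_eq_neg_one_iff.1 hxy) h
    · rw [sign_pos h] at hxy
      exact div_pos (sign_eq_one_iff.1 hxy) h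
  by_cases ha : a = 0
  · have hα0 : α = 0 := by rw [ha, sign_zero] at hα; exact sign_eq_zero_iff.1 hα
    by_cases hb : b = 0
    · have hβ0 : β = 0 := by rw [hb, sign_zero] at hβ; exact sign_eq_zero_iff.1 hβ
      exact ⟨0, 0, 0, le_rfl, le_rfl, by simp [hα0, hβ0]⟩
    · refine ⟨0, β / b, 0, (hsame β b hβ hb).le, le_rfl, ?_⟩
      simp only [zpow_zero, LinearEquiv.coe_one, id_eq, hα0, ha, zero_smul, zero_add, add_zero,
        smul_smul]
      rw [div_mul_cancel₀ _ hb]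
  · by_cases hb : b = 0
    · have hβ0 : β = 0 := by rw [hb, sign_zero] at hβ; exact sign_eq_zero_iff.1 hβ
      refine ⟨0, α / a, 0, (hsame α a hα ha).le, le_rfl, ?_⟩
      simp only [zpow_zero, LinearEquiv.coe_one, id_eq, hβ0, hb, zero_smul, add_zero,
        smul_smul]
      rw [div_mul_cancel₀ _ ha]
    · -- main case
      set r := α / a with hr
      set s := β / b with hs
      have r0 : 0 < r := hsame α a hα ha
      have s0 : 0 < s := hsame β b hβ hb
      have l2 : 1 < l ^ 2 := by nlinarith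
      obtain ⟨n, hn1, hn2⟩ := exists_mem_Ico_zpow (x := s / r) (y := l ^ 2) (by positivity) l2
      set X := (l ^ 2) ^ n with hX
      have X0 : 0 < X := by positivity
      have e1 : (l ^ 2) ^ (n + 1) = l ^ 2 * X := by
        rw [zpow_add_one₀ (by positivity), mul_comm]
      rw [e1] at hn2
      set c := l ^ (n + 1) with hc
      have c0 : 0 < c := by positivity
      have hcX : c ^ 2 = l ^ 2 * X := by
        rw [hc, ← e1, ← zpow_natCast, ← zpow_natCast, ← zpow_mul, ← zpow_mul, mul_comm]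
      have h1 : s ≤ r * c ^ 2 := by
        rw [hcX]
        have := (div_lt_iff₀ r0).1 hn2
        nlinarith
      have h2 : r * c ^ 2 ≤ l ^ 2 * s := by
        rw [hcX]
        have := (le_div_iff₀ r0).1 hn1
        nlinarith [mul_le_mul_of_nonneg_left this (by positivity : (0 : ℝ) ≤ l ^ 2)]
      have hd : 0 < l ^ 2 - 1 := by linarith
      refine ⟨n + 1, (l ^ 2 * s - r * c ^ 2) / (c * (l ^ 2 - 1)),
        l * (r * c ^ 2 - s) / (c * (l ^ 2 - 1)), by
          apply div_nonneg (by linarith) (by positivity), by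
          apply div_nonneg (mul_nonneg l0.le (by linarith)) (by positivity), ?_⟩
      rw [hgk, hg1, ← hc]
      have hαr : α = r * a := by rw [hr]; field_simp
      have hβs : β = s * b := by rw [hs]; field_simp
      rw [hαr, hβs]
      have k1 : c * (r * a) = (l ^ 2 * s - r * c ^ 2) / (c * (l ^ 2 - 1)) * a +
          l * (r * c ^ 2 - s) / (c * (l ^ 2 - 1)) * (l * a) := by
        field_simp
        ring
      have k2 : c⁻¹ * (s * b) = (l ^ 2 * s - r * c ^ 2) / (c * (l ^ 2 - 1)) * b +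
          l * (r * c ^ 2 - s) / (c * (l ^ 2 - 1)) * (l⁻¹ * b) := by
        field_simp
        ring
      rw [k1, k2]
      module

/-- Points with coordinates of the same signs: parabolic case. -/
theorem sector_par {g : U ≃ₗ[ℝ] U} {v w : U} (hv : g v = v + w) (hw : g w = w) {a b α β : ℝ}
    (hα : SignType.sign α = SignType.sign a) (hβ : α = 0 → SignType.sign β = SignType.sign b) :
    ∃ k : ℤ, ∃ p q : ℝ, 0 ≤ p ∧ 0 ≤ q ∧
      (g ^ k) (α • v + β • w) = p • (a • v + b • w) + q • g (a • v + b • w) := by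
  have hgk : ∀ k : ℤ, (g ^ k) (α • v + β • w) = α • v + (β + k * α) • w := by
    intro k
    obtain ⟨h1, h2⟩ := sector_zpow_unip g v w hv hw k
    rw [map_add, map_smul, map_smul, h1, h2]
    module
  have hg1 : g (a • v + b • w) = a • v + (b + a) • w := by
    rw [map_add, map_smul, map_smul, hv, hw]
    module
  have hsame : ∀ x y : ℝ, SignType.sign x = SignType.sign y → y ≠ 0 → 0 < x / y := by
    intro x y hxy hy
    rcases lt_or_gt_of_ne hy with h | h
    · rw [sign_neg h] at hxy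
      exact div_pos_of_neg_of_neg (sign_eq_neg_one_iff.1 hxy) h
    · rw [sign_pos h] at hxy
      exact div_pos (sign_eq_one_iff.1 hxy) h
  by_cases ha : a = 0
  · have hα0 : α = 0 := by rw [ha, sign_zero] at hα; exact sign_eq_zero_iff.1 hα
    have hβ' := hβ hα0
    by_cases hb : b = 0
    · have hβ0 : β = 0 := by rw [hb, sign_zero] at hβ'; exact sign_eq_zero_iff.1 hβ'
      exact ⟨0, 0, 0, le_rfl, le_rfl, by simp [hα0, hβ0]⟩
    · refine ⟨0, β / b, 0, (hsame β b hβ' hb).le, le_rfl, ?_⟩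
      simp only [zpow_zero, LinearEquiv.coe_one, id_eq, hα0, ha, zero_smul, zero_add, add_zero,
        smul_smul]
      rw [div_mul_cancel₀ _ hb]
  · set c := α / a with hc
    have c0 : 0 < c := hsame α a hα ha
    have hαc : α = c * a := by rw [hc]; field_simp
    -- `θ = (β / c - b) / a + k` in `[0, 1)`
    set t := (β / c - b) / a with ht
    refine ⟨-⌊t⌋, c * (1 - Int.fract t), c * Int.fract t,
      mul_nonneg c0.le (by linarith [Int.fract_lt_one t]),
      mul_nonneg c0.le (Int.fract_nonneg t), ?_⟩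
    rw [hgk, hg1]
    have hβt : β = c * (b + t * a) := by rw [ht]; field_simp; ring
    have hfr : (⌊t⌋ : ℝ) = t - Int.fract t := by rw [Int.self_sub_fract]
    rw [hβt, hαc]
    push_cast
    rw [hfr]
    module

/-- A finite set of points of `C` whose cone meets all orbits in `C`, given a group element which
moves every point of a sign pattern into the cone of the two points `y`, `g y`. -/
theorem sector_cover_of {T : Type*} [Finite T] (C : Set U) (Γ : Subgroup (U ≃ₗ[ℝ] U))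
    (hC : ∀ g ∈ Γ, ∀ x ∈ C, g x ∈ C) {g : U ≃ₗ[ℝ] U} (hg : g ∈ Γ) (τ : U → T)
    (h : ∀ u y : U, τ u = τ y → ∃ k : ℤ, ∃ p q : ℝ, 0 ≤ p ∧ 0 ≤ q ∧ (g ^ k) u = p • y + q • g y) :
    ∃ Y : Finset U, (Y : Set U) ⊆ C ∧
      ∀ u ∈ C, ∃ f ∈ Γ, f u ∈ PointedCone.hull ℝ (Y : Set U) := by
  classical
  have : Fintype T := Fintype.ofFinite T
  let σ : T → Finset U := fun t =>
    if ht : ∃ y ∈ C, τ y = t then {ht.choose, g ht.choose} else ∅
  refine ⟨Finset.univ.biUnion σ, ?_, ?_⟩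
  · intro x hx
    obtain ⟨t, -, ht⟩ := Finset.mem_biUnion.1 (Finset.mem_coe.1 hx)
    by_cases h1 : ∃ y ∈ C, τ y = t
    · have h2 : σ t = {h1.choose, g h1.choose} := dif_pos h1
      rw [h2, Finset.mem_insert, Finset.mem_singleton] at ht
      rcases ht with rfl | rfl
      · exact h1.choose_spec.1
      · exact hC g hg _ h1.choose_spec.1
    · have h2 : σ t = ∅ := dif_neg h1
      rw [h2] at ht
      simp at ht
  · intro u hu
    have h1 : ∃ y ∈ C, τ y = τ u := ⟨u, hu, rfl⟩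
    have h2 : σ (τ u) = {h1.choose, g h1.choose} := dif_pos h1
    obtain ⟨k, p, q, hp, hq, he⟩ := h u h1.choose h1.choose_spec.2.symm
    refine ⟨g ^ k, Γ.zpow_mem hg k, ?_⟩
    rw [he]
    have h3 : ∀ z ∈ σ (τ u), z ∈ ((Finset.univ.biUnion σ : Finset U) : Set U) := fun z hz =>
      Finset.mem_coe.2 (Finset.mem_biUnion.2 ⟨τ u, Finset.mem_univ _, hz⟩)
    refine sector_comb_mem (h3 _ ?_) (h3 _ ?_) hp hq
    · rw [h2]; simp
    · rw [h2]; simp

theorem sector_cover_hyp (C : Set U) (Γ : Subgroup (U ≃ₗ[ℝ] U))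
    (hC : ∀ g ∈ Γ, ∀ x ∈ C, g x ∈ C) {g : U ≃ₗ[ℝ] U} (hg : g ∈ Γ) {v w : U} {l : ℝ} (hl : 1 < l)
    (hv : g v = l • v) (hw : g w = l⁻¹ • w) (hspan : ∀ u, ∃ α β : ℝ, u = α • v + β • w) :
    ∃ Y : Finset U, (Y : Set U) ⊆ C ∧
      ∀ u ∈ C, ∃ f ∈ Γ, f u ∈ PointedCone.hull ℝ (Y : Set U) := by
  choose α β hαβ using hspan
  refine sector_cover_of C Γ hC hg
    (fun u => ((SignType.sign (α u), SignType.sign (β u)) : SignType × SignType)) ?_
  intro u y huy
  rw [Prod.mk.injEq] at huy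
  obtain ⟨k, p, q, hp, hq, he⟩ := sector_hyp hl hv hw huy.1 huy.2
  refine ⟨k, p, q, hp, hq, ?_⟩
  rw [← hαβ u, ← hαβ y] at he
  exact he

theorem sector_cover_par (C : Set U) (Γ : Subgroup (U ≃ₗ[ℝ] U))
    (hC : ∀ g ∈ Γ, ∀ x ∈ C, g x ∈ C) {g : U ≃ₗ[ℝ] U} (hg : g ∈ Γ) {v w : U}
    (hv : g v = v + w) (hw : g w = w) (hspan : ∀ u, ∃ α β : ℝ, u = α • v + β • w) :
    ∃ Y : Finset U, (Y : Set U) ⊆ C ∧
      ∀ u ∈ C, ∃ f ∈ Γ, f u ∈ PointedCone.hull ℝ (Y : Set U) := by
  choose α β hαβ using hspan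
  refine sector_cover_of C Γ hC hg
    (fun u => ((SignType.sign (α u), SignType.sign (β u)) : SignType × SignType)) ?_
  intro u y huy
  rw [Prod.mk.injEq] at huy
  obtain ⟨k, p, q, hp, hq, he⟩ := sector_par hv hw huy.1 (fun _ => huy.2)
  refine ⟨k, p, q, hp, hq, ?_⟩
  rw [← hαβ u, ← hαβ y] at he
  exact he

theorem sector_cover_aux (C : Set U) (Γ : Subgroup (U ≃ₗ[ℝ] U))
    (hC : ∀ g ∈ Γ, ∀ x ∈ C, g x ∈ C) {k : U ≃ₗ[ℝ] U} (hk : k ∈ Γ) (hk1 : k ≠ 1) {e₀ e₁ : U}
    (hspan : ∀ u, ∃ α β : ℝ, u = α • e₀ + β • e₁) {a b c d : ℤ}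
    (h0 : k e₀ = (1 + 3 * a : ℝ) • e₀ + (3 * c : ℝ) • e₁)
    (h1 : k e₁ = (3 * b : ℝ) • e₀ + (1 + 3 * d : ℝ) • e₁)
    (hD : (1 + 3 * a) * (1 + 3 * d) - (3 * b) * (3 * c) = 1) :
    ∃ Y : Finset U, (Y : Set U) ⊆ C ∧
      ∀ u ∈ C, ∃ f ∈ Γ, f u ∈ PointedCone.hull ℝ (Y : Set U) := by
  have htr : a + d = -3 * (a * d - b * c) := by nlinarith
  by_cases hδ : a * d - b * c = 0
  · have had : a + d = 0 := by rw [htr, hδ]; ring
    have hadR : (a : ℝ) + d = 0 := by exact_mod_cast had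
    have hδR : (a : ℝ) * d - b * c = 0 := by exact_mod_cast hδ
    have hdR : (d : ℝ) = -a := by linarith
    by_cases hc : c = 0
    · have ha : a = 0 := by
        have : a * a = 0 := by
          have h2 : d = -a := by omega
          rw [h2, hc] at hδ
          nlinarith
        exact mul_self_eq_zero.1 this
      have hd : d = 0 := by omega
      subst hc ha hd
      have hb : (b : ℝ) ≠ 0 := by
        intro hb
        apply hk1
        ext u
        obtain ⟨α, β, rfl⟩ := hspan u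
        rw [map_add, map_smul, map_smul, h0, h1, hb]
        simp
      refine sector_cover_par C Γ hC hk (v := e₁) (w := (3 * b : ℝ) • e₀) ?_ ?_ ?_
      · rw [h1]
        simp [add_comm]
      · rw [map_smul, h0]
        simp
      · intro u
        obtain ⟨α, β, rfl⟩ := hspan u
        refine ⟨β, α / (3 * b), ?_⟩
        rw [smul_smul, div_mul_cancel₀ _ (by positivity), add_comm]
    · have hcR : (c : ℝ) ≠ 0 := by exact_mod_cast hc
      refine sector_cover_par C Γ hC hk (v := e₀) (w := (3 * a : ℝ) • e₀ + (3 * c : ℝ) • e₁)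
        ?_ ?_ ?_
      · rw [h0]
        module
      · rw [map_add, map_smul, map_smul, h0, h1]
        have e1 : (3 * a : ℝ) • ((1 + 3 * a : ℝ) • e₀ + (3 * c : ℝ) • e₁) +
            (3 * c : ℝ) • ((3 * b : ℝ) • e₀ + (1 + 3 * d : ℝ) • e₁) =
            (3 * a + 9 * (a * a + b * c) : ℝ) • e₀ + (3 * c + 9 * c * (a + d) : ℝ) • e₁ := by
          module
        rw [e1]
        have e2 : (a : ℝ) * a + b * c = 0 := by
          have : (a : ℝ) * a + b * c = -(a * d - b * c) := by rw [hdR]; ring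
          rw [this, hδR, neg_zero]
        rw [e2, hadR]
        simp
      · intro u
        obtain ⟨α, β, rfl⟩ := hspan u
        refine ⟨α - β * a / c, β / (3 * c), ?_⟩
        have e3 : (α - β * a / c) • e₀ + (β / (3 * c)) • ((3 * a : ℝ) • e₀ + (3 * c : ℝ) • e₁) =
            (α - β * a / c + β / (3 * c) * (3 * a)) • e₀ + (β / (3 * c) * (3 * c)) • e₁ := by
          module
        rw [e3]
        have e4 : α - β * a / c + β / (3 * c) * (3 * a) = α := by field_simp; ring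
        have e5 : β / (3 * c) * (3 * c) = β := by field_simp
        rw [e4, e5]
  · -- the trace
    set t : ℝ := 2 + 3 * (a + d) with ht
    have htZ : t = ((2 - 9 * (a * d - b * c) : ℤ) : ℝ) := by
      rw [ht]
      have : ((a + d : ℤ) : ℝ) = ((-3 * (a * d - b * c) : ℤ) : ℝ) := by rw [htr]
      push_cast at this ⊢
      rw [this]
      ring
    have ht7 : 7 ≤ t ∨ t ≤ -7 := by
      rcases lt_or_gt_of_ne hδ with h | h
      · left
        rw [htZ]
        have : (7 : ℤ) ≤ 2 - 9 * (a * d - b * c) := by omega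
        exact_mod_cast this
      · right
        rw [htZ]
        have : 2 - 9 * (a * d - b * c) ≤ (-7 : ℤ) := by omega
        exact_mod_cast this
    have ht4 : 0 < t ^ 2 - 4 := by rcases ht7 with h | h <;> nlinarith
    have hDR : (1 + 3 * (a : ℝ)) * (1 + 3 * d) - (3 * b) * (3 * c) = 1 := by exact_mod_cast hD
    have hb : (b : ℝ) ≠ 0 := by
      intro hb
      have hb' : b = 0 := by exact_mod_cast hb
      rw [hb'] at hD
      have h2 : (1 + 3 * a) * (1 + 3 * d) = 1 := by linarith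
      have h3 := Int.eq_one_or_neg_one_of_mul_eq_one h2
      have h4 : a * d = 0 ∨ t = -2 := by
        rcases h3 with h3 | h3
        · left
          have : a = 0 := by omega
          rw [this, zero_mul]
        · omega
      rcases h4 with h4 | h4
      · apply hδ
        rw [h4, hb', zero_mul, sub_zero]
      · rcases ht7 with h | h <;> linarith
    set s := Real.sqrt (t ^ 2 - 4) with hs
    have s0 : 0 < s := Real.sqrt_pos.2 ht4
    have ss : s * s = t ^ 2 - 4 := Real.mul_self_sqrt ht4.le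
    have heig : ∀ μ : ℝ, μ * μ = t * μ - 1 →
        k ((3 * b : ℝ) • e₀ + (μ - (1 + 3 * a)) • e₁) =
          μ • ((3 * b : ℝ) • e₀ + (μ - (1 + 3 * a)) • e₁) := by
      intro μ hμ
      rw [map_add, map_smul, map_smul, h0, h1]
      have e1 : (3 * b : ℝ) • ((1 + 3 * a : ℝ) • e₀ + (3 * c : ℝ) • e₁) +
          (μ - (1 + 3 * a)) • ((3 * b : ℝ) • e₀ + (1 + 3 * d : ℝ) • e₁) =
          (μ * (3 * b)) • e₀ + ((3 * b) * (3 * c) + (μ - (1 + 3 * a)) * (1 + 3 * d) : ℝ) • e₁ := by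
        module
      rw [e1, smul_add, smul_smul, smul_smul]
      congr 2
      have : μ * (μ - (1 + 3 * a)) = μ * μ - μ * (1 + 3 * a) := by ring
      rw [this, hμ, ht]
      linear_combination -hDR
    have hmem : k * k ∈ Γ := Γ.mul_mem hk hk
    have heig2 : ∀ μ : ℝ, μ * μ = t * μ - 1 →
        (k * k) ((3 * b : ℝ) • e₀ + (μ - (1 + 3 * a)) • e₁) =
          (μ * μ) • ((3 * b : ℝ) • e₀ + (μ - (1 + 3 * a)) • e₁) := by
      intro μ hμ
      rw [LinearEquiv.mul_apply, heig μ hμ, map_smul, heig μ hμ, smul_smul]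
    have hm1 : (t + s) / 2 * ((t + s) / 2) = t * ((t + s) / 2) - 1 := by nlinarith
    have hm2 : (t - s) / 2 * ((t - s) / 2) = t * ((t - s) / 2) - 1 := by nlinarith
    have hm : (t + s) / 2 * ((t - s) / 2) = 1 := by nlinarith
    have hsp : ∀ μ ν : ℝ, μ - ν ≠ 0 → ∀ u, ∃ α β : ℝ,
        u = α • ((3 * b : ℝ) • e₀ + (μ - (1 + 3 * a)) • e₁) +
          β • ((3 * b : ℝ) • e₀ + (ν - (1 + 3 * a)) • e₁) := by
      intro μ ν hne u
      obtain ⟨α, β, rfl⟩ := hspan u
      refine ⟨(β - α / (3 * b) * (ν - (1 + 3 * a))) / (μ - ν),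
        α / (3 * b) - (β - α / (3 * b) * (ν - (1 + 3 * a))) / (μ - ν), ?_⟩
      set x := (β - α / (3 * b) * (ν - (1 + 3 * a))) / (μ - ν) with hx
      have e1 : x • ((3 * b : ℝ) • e₀ + (μ - (1 + 3 * a)) • e₁) +
          (α / (3 * b) - x) • ((3 * b : ℝ) • e₀ + (ν - (1 + 3 * a)) • e₁) =
          (α / (3 * b) * (3 * b)) • e₀ +
            (x * (μ - ν) + α / (3 * b) * (ν - (1 + 3 * a))) • e₁ := by
        module
      rw [e1, hx, div_mul_cancel₀ _ hne, div_mul_cancel₀ _ (by positivity), sub_add_cancel]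
    rcases ht7 with h7 | h7
    · have l1 : 1 < (t + s) / 2 * ((t + s) / 2) := by
        have : 1 < (t + s) / 2 := by linarith
        nlinarith
      refine sector_cover_hyp C Γ hC hmem l1 (heig2 _ hm1) ?_ (hsp _ ((t - s) / 2) ?_)
      · rw [heig2 _ hm2]
        congr 1
        refine eq_inv_of_mul_eq_one_left ?_
        calc (t - s) / 2 * ((t - s) / 2) * ((t + s) / 2 * ((t + s) / 2))
            = ((t + s) / 2 * ((t - s) / 2)) * ((t + s) / 2 * ((t - s) / 2)) := by ring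
          _ = 1 := by rw [hm, one_mul]
      · have : (t + s) / 2 - (t - s) / 2 = s := by ring
        rw [this]
        exact s0.ne'
    · have l1 : 1 < (t - s) / 2 * ((t - s) / 2) := by
        have : (t - s) / 2 < -1 := by linarith
        nlinarith
      refine sector_cover_hyp C Γ hC hmem l1 (heig2 _ hm2) ?_ (hsp _ ((t + s) / 2) ?_)
      · rw [heig2 _ hm1]
        congr 1
        refine eq_inv_of_mul_eq_one_left ?_
        calc (t + s) / 2 * ((t + s) / 2) * ((t - s) / 2 * ((t - s) / 2))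
            = ((t + s) / 2 * ((t - s) / 2)) * ((t + s) / 2 * ((t - s) / 2)) := by ring
          _ = 1 := by rw [hm, one_mul]
      · have : (t - s) / 2 - (t + s) / 2 = -s := by ring
        rw [this]
        exact neg_ne_zero.2 s0.ne'

/-- The covering statement for a lattice given by a basis of the plane. -/
theorem sector_cover_pair (C : Set U) (Γ : Subgroup (U ≃ₗ[ℝ] U)) [Infinite Γ]
    (hC : ∀ g ∈ Γ, ∀ x ∈ C, g x ∈ C) (M : Submodule ℤ U) (hΓ : ∀ g ∈ Γ, ∀ x ∈ M, g x ∈ M)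
    {e₀ e₁ : U} (m0 : e₀ ∈ M) (m1 : e₁ ∈ M) (hM : ∀ x ∈ M, ∃ m n : ℤ, x = m • e₀ + n • e₁)
    (hind : ∀ α β : ℝ, α • e₀ + β • e₁ = 0 → α = 0 ∧ β = 0)
    (hspan : ∀ u, ∃ α β : ℝ, u = α • e₀ + β • e₁) :
    ∃ Y : Finset U, (Y : Set U) ⊆ C ∧
      ∀ u ∈ C, ∃ f ∈ Γ, f u ∈ PointedCone.hull ℝ (Y : Set U) := by
  have hex0 : ∀ g : Γ, ∃ m n : ℤ, (g : U ≃ₗ[ℝ] U) e₀ = m • e₀ + n • e₁ := fun g =>
    hM _ (hΓ g g.2 _ m0)
  have hex1 : ∀ g : Γ, ∃ m n : ℤ, (g : U ≃ₗ[ℝ] U) e₁ = m • e₀ + n • e₁ := fun g =>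
    hM _ (hΓ g g.2 _ m1)
  choose P R hPR using hex0
  choose Q S hQS using hex1
  obtain ⟨x, y, hxy, hφ⟩ := Finite.exists_ne_map_eq_of_infinite
    (fun g : Γ => (((P g : ZMod 3), (R g : ZMod 3)), ((Q g : ZMod 3), (S g : ZMod 3))))
  simp only [Prod.mk.injEq] at hφ
  obtain ⟨⟨hP, hR⟩, hQ, hS⟩ := hφ
  have hmod : ∀ m n : ℤ, ((m : ZMod 3) = (n : ZMod 3)) → ∃ p : ℤ, m = n + 3 * p := by
    intro m n h
    have h' := (ZMod.intCast_eq_intCast_iff_dvd_sub n m 3).1 h.symm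
    obtain ⟨p, hp⟩ := h'
    exact ⟨p, by push_cast at hp; omega⟩
  obtain ⟨p, hp⟩ := hmod _ _ hP
  obtain ⟨r, hr⟩ := hmod _ _ hR
  obtain ⟨q, hq⟩ := hmod _ _ hQ
  obtain ⟨s, hs⟩ := hmod _ _ hS
  set k : U ≃ₗ[ℝ] U := ((y⁻¹ * x : Γ) : U ≃ₗ[ℝ] U) with hk
  have hkΓ : k ∈ Γ := (y⁻¹ * x : Γ).2
  have hk1 : k ≠ 1 := by
    intro h
    have h2 : (y⁻¹ * x : Γ) = 1 := Subtype.ext h
    exact hxy (inv_mul_eq_one.1 h2).symm
  have hyinv : ∀ u : U, ((y⁻¹ : Γ) : U ≃ₗ[ℝ] U) ((y : U ≃ₗ[ℝ] U) u) = u := fun u =>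
    (y : U ≃ₗ[ℝ] U).symm_apply_apply u
  have hkapp : ∀ u : U, k u = ((y⁻¹ : Γ) : U ≃ₗ[ℝ] U) ((x : U ≃ₗ[ℝ] U) u) := fun u => rfl
  obtain ⟨a, c, hac⟩ := hM _ (hΓ (y⁻¹ : Γ) (y⁻¹ : Γ).2 (p • e₀ + r • e₁)
    (M.add_mem (M.smul_mem _ m0) (M.smul_mem _ m1)))
  obtain ⟨b, d, hbd⟩ := hM _ (hΓ (y⁻¹ : Γ) (y⁻¹ : Γ).2 (q • e₀ + s • e₁)
    (M.add_mem (M.smul_mem _ m0) (M.smul_mem _ m1)))
  have hx0 : (x : U ≃ₗ[ℝ] U) e₀ = (y : U ≃ₗ[ℝ] U) e₀ + (3 : ℤ) • (p • e₀ + r • e₁) := by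
    rw [hPR, hPR, hp, hr]
    module
  have hx1 : (x : U ≃ₗ[ℝ] U) e₁ = (y : U ≃ₗ[ℝ] U) e₁ + (3 : ℤ) • (q • e₀ + s • e₁) := by
    rw [hQS, hQS, hq, hs]
    module
  have hk0 : k e₀ = (1 + 3 * a : ℝ) • e₀ + (3 * c : ℝ) • e₁ := by
    rw [hkapp, hx0, map_add, map_zsmul, hyinv, hac]
    module
  have hk1' : k e₁ = (3 * b : ℝ) • e₀ + (1 + 3 * d : ℝ) • e₁ := by
    rw [hkapp, hx1, map_add, map_zsmul, hyinv, hbd]
    module
  -- the determinant
  have hkinv : k⁻¹ ∈ Γ := Γ.inv_mem hkΓ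
  obtain ⟨p', r', hpr'⟩ := hM _ (hΓ _ hkinv _ m0)
  obtain ⟨q', s', hqs'⟩ := hM _ (hΓ _ hkinv _ m1)
  have hkk : ∀ u : U, k⁻¹ (k u) = u := fun u => k.symm_apply_apply u
  have i0 := hkk e₀
  have i1 := hkk e₁
  rw [hk0, map_add, map_smul, map_smul, hpr', hqs'] at i0
  rw [hk1', map_add, map_smul, map_smul, hpr', hqs'] at i1
  have j0 := hind ((1 + 3 * a) * p' + 3 * c * q' - 1) ((1 + 3 * a) * r' + 3 * c * s') (by
    rw [← sub_eq_zero] at i0
    rw [← i0]
    module)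
  have j1 := hind (3 * b * p' + (1 + 3 * d) * q') (3 * b * r' + (1 + 3 * d) * s' - 1) (by
    rw [← sub_eq_zero] at i1
    rw [← i1]
    module)
  have z1 : (1 + 3 * a) * p' + 3 * c * q' = 1 := by
    have := j0.1
    have h : ((1 + 3 * a) * p' + 3 * c * q' : ℝ) = 1 := by linarith
    exact_mod_cast h
  have z2 : (1 + 3 * a) * r' + 3 * c * s' = 0 := by
    have h := j0.2
    exact_mod_cast h
  have z3 : 3 * b * p' + (1 + 3 * d) * q' = 0 := by
    have h := j1.1
    exact_mod_cast h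
  have z4 : 3 * b * r' + (1 + 3 * d) * s' = 1 := by
    have := j1.2
    have h : (3 * b * r' + (1 + 3 * d) * s' : ℝ) = 1 := by linarith
    exact_mod_cast h
  have hdet : ((1 + 3 * a) * (1 + 3 * d) - (3 * b) * (3 * c)) * (p' * s' - q' * r') = 1 := by
    calc ((1 + 3 * a) * (1 + 3 * d) - (3 * b) * (3 * c)) * (p' * s' - q' * r')
        = ((1 + 3 * a) * p' + 3 * c * q') * (3 * b * r' + (1 + 3 * d) * s') -
          ((1 + 3 * a) * r' + 3 * c * s') * (3 * b * p' + (1 + 3 * d) * q') := by ring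
      _ = 1 := by rw [z1, z2, z3, z4]; ring
  have hD : (1 + 3 * a) * (1 + 3 * d) - (3 * b) * (3 * c) = 1 := by
    rcases Int.eq_one_or_neg_one_of_mul_eq_one hdet with h | h
    · exact h
    · exfalso
      have e : (1 + 3 * a) * (1 + 3 * d) - (3 * b) * (3 * c) =
          1 + 3 * (a + d + 3 * (a * d) - 3 * (b * c)) := by ring
      rw [e] at h
      omega
  exact sector_cover_aux C Γ hC hkΓ hk1 hspan hk0 hk1' hD

/-- **Sector lemma.** An infinite group of automorphisms of a lattice in a real plane: every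
invariant set `C` is covered, up to the group, by the cone over finitely many points of `C`. -/
theorem sector_cover {U : Type*} [NormedAddCommGroup U] [NormedSpace ℝ U] [FiniteDimensional ℝ U]
    (h2 : Module.finrank ℝ U = 2) (M : Submodule ℤ U) [DiscreteTopology M] [IsZLattice ℝ M]
    (C : Set U) (Γ : Subgroup (U ≃ₗ[ℝ] U)) [Infinite Γ] (hΓ : ∀ g ∈ Γ, ∀ x ∈ M, g x ∈ M)
    (hC : ∀ g ∈ Γ, ∀ x ∈ C, g x ∈ C) :
    ∃ Y : Finset U, (Y : Set U) ⊆ C ∧
      ∀ u ∈ C, ∃ f ∈ Γ, f u ∈ PointedCone.hull ℝ (Y : Set U) := by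
  have hrk : Module.finrank ℤ M = 2 := by rw [ZLattice.rank ℝ M, h2]
  have : Module.Free ℤ M := ZLattice.module_free ℝ M
  have : Module.Finite ℤ M := ZLattice.module_finite ℝ M
  let b : Module.Basis (Fin 2) ℤ M := Module.finBasisOfFinrankEq ℤ M hrk
  let B : Module.Basis (Fin 2) ℝ U := b.ofZLatticeBasis ℝ M
  have hB : ∀ i, B i = (b i : U) := fun i => b.ofZLatticeBasis_apply ℝ M i
  refine sector_cover_pair C Γ hC M hΓ (e₀ := B 0) (e₁ := B 1) ?_ ?_ ?_ ?_ ?_
  · rw [hB]; exact (b 0).2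
  · rw [hB]; exact (b 1).2
  · intro x hx
    have h := b.sum_repr ⟨x, hx⟩
    rw [Fin.sum_univ_two] at h
    refine ⟨b.repr ⟨x, hx⟩ 0, b.repr ⟨x, hx⟩ 1, ?_⟩
    rw [hB, hB]
    have h' : (((b.repr ⟨x, hx⟩ 0) • b 0 + (b.repr ⟨x, hx⟩ 1) • b 1 : M) : U) = x :=
      congrArg (Subtype.val) h
    calc x = (((b.repr ⟨x, hx⟩ 0) • b 0 + (b.repr ⟨x, hx⟩ 1) • b 1 : M) : U) := h'.symm
      _ = _ := rfl
  · intro α β h
    have := LinearIndependent.pair_iff.1 (by
      have h3 := B.linearIndependent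
      have h4 : (B : Fin 2 → U) = ![B 0, B 1] := by
        funext i
        fin_cases i <;> rfl
      rw [h4] at h3
      exact h3) α β h
    exact this
  · intro u
    refine ⟨B.repr u 0, B.repr u 1, ?_⟩
    have h := B.sum_repr u
    rw [Fin.sum_univ_two] at h
    exact h.symm

end Pool.Agent.Lib.Pad47bbB
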