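import Pool.Agent.Lib.Pad47bbB.EffOne
import Pool.Agent.Lib.Pad47bbB.Quot
import Pool.Agent.Lib.Pad47bbB.Lattice
import Pool.Agent.Lib.Pad47bbB.Sector

/-!
The span of the boundary components has codimension two and the group is infinite.
-/

open Set Topology

namespace Pool.Agent.Lib.Pad47bbB

open Pool.Agent.Lib.Pad47bb Pool.Agent.Lib.Pad47bbQ Pool.Agent.Lib.Pad47bbV

variable {V : Type*} [NormedAddCommGroup V] [NormedSpace ℝ V] [FiniteDimensional ℝ V]
  {L : Submodule ℤ V} [DiscreteTopology L] [IsZLattice ℝ L]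
  {N E : PointedCone ℝ V} {J : Finset V} {Γ : Subgroup (V ≃ₗ[ℝ] V)}
  {U : Type*} [NormedAddCommGroup U] [NormedSpace ℝ U] [FiniteDimensional ℝ U]

/-- The automorphisms of `U` induced by elements of `Γ`. -/
def quotGroup (π : V →ₗ[ℝ] U) (Γ : Subgroup (V ≃ₗ[ℝ] V)) : Subgroup (U ≃ₗ[ℝ] U) where
  carrier := {h | ∃ g ∈ Γ, ∀ x, h (π x) = π (g x)}
  mul_mem' := by
    rintro a b ⟨g, hg, ha⟩ ⟨g', hg', hb⟩
    refine ⟨g * g', mul_mem hg hg', fun x => ?_⟩
    show a (b (π x)) = π (g (g' x))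
    rw [hb, ha]
  one_mem' := ⟨1, one_mem Γ, fun _ => rfl⟩
  inv_mem' := by
    rintro a ⟨g, hg, ha⟩
    refine ⟨g⁻¹, inv_mem hg, fun x => ?_⟩
    have h1 : g (g⁻¹ x) = x := g.apply_symm_apply x
    have h2 := ha (g⁻¹ x)
    rw [h1] at h2
    rw [← h2]
    exact a.symm_apply_apply _

omit [FiniteDimensional ℝ V] [DiscreteTopology L] [IsZLattice ℝ L] [FiniteDimensional ℝ U] in
/-- The quotient data of a pair. -/
theorem BdPair.isQuot (D : BdPair L N E J Γ) {π : V →ₗ[ℝ] U} (hπ : Function.Surjective π)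
    (hker : ∀ x, π x = 0 ↔ x ∈ Submodule.span ℝ (J : Set V)) {M : Submodule ℤ U}
    (hM : ∀ u, u ∈ M ↔ ∃ x ∈ L, π x = u) : IsQuot L J Γ π M (quotGroup π Γ) where
  surj := hπ
  ker := hker
  lattice := hM
  preserves := fun g hg p hp => Submodule.subset_span (D.perm g hg p hp)
  group := fun _ => Iff.rfl

omit [FiniteDimensional ℝ V] [DiscreteTopology L] [IsZLattice ℝ L] in
/-- An element of the group acting trivially on `J` and on the quotient is trivial. -/
theorem BdPair.eq_one (D : BdPair L N E J Γ) {g : V ≃ₗ[ℝ] V} (hg : g ∈ Γ)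
    (hJ : ∀ p ∈ J, g p = p) (hq : ∀ x, g x - x ∈ Submodule.span ℝ (J : Set V)) : g = 1 := by
  have hfix : ∀ w ∈ Submodule.span ℝ (J : Set V), g w = w := by
    intro w hw
    induction hw using Submodule.span_induction with
    | mem w hw => exact hJ w hw
    | zero => exact map_zero g
    | add a b _ _ ha hb => rw [map_add, ha, hb]
    | smul c a _ ha => rw [map_smul, ha]
  have hpow : ∀ x, ∀ n : ℕ, (g ^ n) x = x + (n : ℝ) • (g x - x) := by
    intro x n
    induction n with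
    | zero => simp
    | succ n ih =>
      rw [pow_succ', LinearEquiv.mul_apply, ih, map_add, map_smul, hfix _ (hq x)]
      push_cast
      rw [add_smul, one_smul]
      abel
  -- the limit is in `N`
  have hlim : ∀ h ∈ Γ, (∀ x, ∀ n : ℕ, (h ^ n) x = x + (n : ℝ) • (h x - x)) → ∀ x ∈ N,
      h x - x ∈ N := by
    intro h hh hpow x hx
    have h1 : Filter.Tendsto (fun n : ℕ => (h x - x) + (1 / ((n : ℝ) + 1)) • x) Filter.atTop
        (𝓝 (h x - x)) := Pad47bbM.tendsto_add_smul _ _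
    refine D.good.closed.mem_of_tendsto h1 (Filter.Eventually.of_forall fun n => ?_)
    have h2 := hpow x (n + 1)
    have h3 : (h ^ (n + 1)) x ∈ N := D.acts.map_cone _ (pow_mem hh _) x hx
    have h4 := N.smul_mem (show (0 : ℝ) ≤ 1 / ((n : ℝ) + 1) by positivity) h3
    rw [h2, smul_add, smul_smul] at h4
    have h5 : 1 / ((n : ℝ) + 1) * ((n + 1 : ℕ) : ℝ) = 1 := by
      push_cast
      field_simp
    rw [h5, one_smul, add_comm] at h4
    exact h4
  have hinv : ∀ x, g⁻¹ x - x = -(g x - x) := by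
    intro x
    have h1 : g (x - (g x - x)) = x := by
      rw [map_sub, hfix _ (hq x)]
      abel
    have h2 : g⁻¹ x = x - (g x - x) := by
      calc g⁻¹ x = g⁻¹ (g (x - (g x - x))) := by rw [h1]
        _ = x - (g x - x) := g.symm_apply_apply _
    rw [h2]
    abel
  have hpow' : ∀ x, ∀ n : ℕ, (g⁻¹ ^ n) x = x + (n : ℝ) • (g⁻¹ x - x) := by
    intro x n
    induction n with
    | zero => simp
    | succ n ih =>
      have h1 : g⁻¹ (g⁻¹ x - x) = g⁻¹ x - x := by
        rw [hinv]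
        have h2 := hfix _ (Submodule.neg_mem _ (hq x))
        calc g⁻¹ (-(g x - x)) = g⁻¹ (g (-(g x - x))) := by rw [h2]
          _ = -(g x - x) := g.symm_apply_apply _
      rw [pow_succ', LinearEquiv.mul_apply, ih, map_add, map_smul, h1]
      push_cast
      rw [add_smul, one_smul]
      abel
  have hN : ∀ x ∈ N, g x = x := by
    intro x hx
    have h1 := hlim g hg hpow x hx
    have h2 := hlim g⁻¹ (inv_mem hg) hpow' x hx
    rw [hinv] at h2
    exact sub_eq_zero.1 (D.good.salient _ h1 h2)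
  -- `N` spans
  obtain ⟨e, he⟩ := D.good.interior_nonempty
  apply LinearEquiv.ext
  intro x
  obtain ⟨δ, hδ, hball⟩ := Metric.isOpen_iff.1 isOpen_interior e he
  set t : ℝ := δ / (2 * (‖x‖ + 1)) with ht
  have ht0 : 0 < t := by positivity
  have h1 : e + t • x ∈ interior (N : Set V) := by
    apply hball
    rw [Metric.mem_ball, dist_eq_norm, add_sub_cancel_left, norm_smul, Real.norm_eq_abs,
      abs_of_pos ht0, ht, div_mul_eq_mul_div, div_lt_iff₀ (by positivity)]
    nlinarith [norm_nonneg x]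
  have h2 := hN _ (interior_subset h1)
  rw [map_add, map_smul, hN e (interior_subset he)] at h2
  have h3 := add_left_cancel h2
  have h4 := congrArg (fun y => t⁻¹ • y) h3
  simp only [smul_smul] at h4
  rw [inv_mul_cancel₀ ht0.ne', one_smul, one_smul] at h4
  exact h4

omit [FiniteDimensional ℝ V] [DiscreteTopology L] [IsZLattice ℝ L] [FiniteDimensional ℝ U] in
/-- If the group is infinite then so is its image on the quotient. -/
theorem BdPair.infinite_quot (D : BdPair L N E J Γ) {π : V →ₗ[ℝ] U}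
    (hπ : Function.Surjective π) (hker : ∀ x, π x = 0 ↔ x ∈ Submodule.span ℝ (J : Set V))
    {M : Submodule ℤ U} (hM : ∀ u, u ∈ M ↔ ∃ x ∈ L, π x = u) [Infinite Γ] :
    Infinite (quotGroup π Γ) := by
  classical
  by_contra hcon
  rw [not_infinite_iff_finite] at hcon
  have Q := D.isQuot hπ hker hM
  have hex : ∀ g : Γ, ∃ h : quotGroup π Γ, ∀ x, (h : U ≃ₗ[ℝ] U) (π x) = π ((g : V ≃ₗ[ℝ] V) x) := by
    intro g
    obtain ⟨h, hh, h1⟩ := Q.exists_induced g.2
    exact ⟨⟨h, hh⟩, h1⟩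
  choose ρ hρ using hex
  let σ : Γ → (J → J) := fun g p => ⟨(g : V ≃ₗ[ℝ] V) p, D.perm g g.2 p p.2⟩
  obtain ⟨g₁, g₂, hne, heq⟩ := Finite.exists_ne_map_eq_of_infinite
    (fun g : Γ => (ρ g, σ g))
  have hρe : ρ g₁ = ρ g₂ := congrArg Prod.fst heq
  have hσe : σ g₁ = σ g₂ := congrArg Prod.snd heq
  have h1 : (g₂⁻¹ * g₁ : V ≃ₗ[ℝ] V) = 1 := by
    refine D.eq_one (mul_mem (inv_mem g₂.2) g₁.2) ?_ ?_
    · intro p hp
      have h2 : (g₁ : V ≃ₗ[ℝ] V) p = (g₂ : V ≃ₗ[ℝ] V) p :=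
        congrArg Subtype.val (congrFun hσe ⟨p, hp⟩)
      show (g₂ : V ≃ₗ[ℝ] V)⁻¹ ((g₁ : V ≃ₗ[ℝ] V) p) = p
      rw [h2]
      exact (g₂ : V ≃ₗ[ℝ] V).symm_apply_apply p
    · intro x
      have h2 : π ((g₁ : V ≃ₗ[ℝ] V) x - (g₂ : V ≃ₗ[ℝ] V) x) = 0 := by
        rw [map_sub, ← hρ, ← hρ, hρe, sub_self]
      have h3 := Q.map_span (inv_mem g₂.2) ((hker _).1 h2)
      rw [map_sub] at h3
      have h4 : ((g₂ : V ≃ₗ[ℝ] V)⁻¹ : V ≃ₗ[ℝ] V) ((g₂ : V ≃ₗ[ℝ] V) x) = x :=
        (g₂ : V ≃ₗ[ℝ] V).symm_apply_apply x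
      rw [h4] at h3
      exact h3
  apply hne
  apply Subtype.ext
  exact (inv_mul_eq_one.1 h1).symm

/-- A cover in codimension two. -/
theorem BdPair.exists_cover_two (D : BdPair L N E J Γ)
    (h2 : Module.finrank ℝ V = Module.finrank ℝ (Submodule.span ℝ (J : Set V)) + 2)
    [Infinite Γ] : ∃ Y : Finset V, (∀ y ∈ Y, y ∈ L ∧ y ∈ interior (N : Set V)) ∧
      Covers N J Y Γ := by
  classical
  obtain ⟨π, hπ, hker, hint⟩ := exists_quot L (fun p hp => (D.comp p hp).1) h2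
  obtain ⟨M, hM, hMd, hMl⟩ := lattice_image L π hπ hint
  have hinf : Infinite (quotGroup π Γ) := D.infinite_quot hπ hker hM
  obtain ⟨Z, hZ, hcov⟩ := sector_cover (by simp) M (π '' interior (N : Set V)) (quotGroup π Γ)
    (by
      rintro h ⟨g, hg, hgh⟩ u hu
      obtain ⟨x, hx, rfl⟩ := (hM u).1 hu
      rw [hgh]
      exact (hM _).2 ⟨g x, D.acts.map_lattice g hg x hx, rfl⟩)
    (by
      rintro h ⟨g, hg, hgh⟩ _ ⟨x, hx, rfl⟩
      rw [hgh]
      exact ⟨g x, interior_map_mem (D.acts.map_cone g hg) hx, rfl⟩)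
  -- lift the generators
  have hlift : ∀ z ∈ Z, ∃ Y : Finset V, (∀ y ∈ Y, y ∈ L ∧ y ∈ interior (N : Set V)) ∧
      ∃ x ∈ PointedCone.hull ℝ (Y : Set V), π x = z := by
    intro z hz
    obtain ⟨x, hx, rfl⟩ := hZ hz
    obtain ⟨Y, hY, hxY⟩ := Pad47bbM.exists_hull_interior (L := L) hx
    exact ⟨Y, hY, x, hxY, rfl⟩
  choose! Y hY x hx hπx using hlift
  refine ⟨Z.biUnion Y, ?_, ?_⟩
  · intro y hy
    obtain ⟨z, hz, hy⟩ := Finset.mem_biUnion.1 hy
    exact hY z hz y hy
  · intro v hv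
    obtain ⟨h, ⟨g, hg, hgh⟩, hhv⟩ := hcov (π v) ⟨v, hv, rfl⟩
    obtain ⟨c, hc, hvc⟩ := mem_hull_finset.1 hhv
    refine ⟨g, hg, ∑ z ∈ Z, c z • x z, ?_, ?_⟩
    · refine Submodule.sum_mem _ fun z hz => ?_
      have h3 : PointedCone.hull ℝ (Y z : Set V) ≤
          PointedCone.hull ℝ ((Z.biUnion Y : Finset V) : Set V) := by
        apply Submodule.span_mono
        intro a ha
        exact Finset.mem_coe.2 (Finset.mem_biUnion.2 ⟨z, hz, ha⟩)
      exact (PointedCone.hull ℝ ((Z.biUnion Y : Finset V) : Set V)).smul_mem (hc z hz)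
        (h3 (hx z hz))
    · rw [← hker, map_sub, ← hgh, hvc, map_sum, sub_eq_zero]
      refine Finset.sum_congr rfl fun z hz => ?_
      rw [map_smul, hπx z hz]

/-- The cone conjecture in codimension two, if the group is infinite. -/
theorem BdPair.hasRPFD_of_two (D : BdPair L N E J Γ)
    (h2 : Module.finrank ℝ V = Module.finrank ℝ (Submodule.span ℝ (J : Set V)) + 2)
    [Infinite Γ]
    (hW : ∀ x ∈ L, x ∈ N → x ∈ Submodule.span ℝ (J : Set V) → x ∈ E) :
    HasRPFD L Γ (N ⊓ E) := by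
  obtain ⟨Y, hY, hcov⟩ := D.exists_cover_two h2
  exact D.hasRPFD_of_interior hW Y hY hcov

/-- The cone conjecture, if `J` spans a subspace of codimension at most one, or of codimension two
and the group is infinite. -/
theorem BdPair.hasRPFD_of_le_two (D : BdPair L N E J Γ)
    (h2 : Module.finrank ℝ V ≤ Module.finrank ℝ (Submodule.span ℝ (J : Set V)) + 1 ∨
      Module.finrank ℝ V = Module.finrank ℝ (Submodule.span ℝ (J : Set V)) + 2 ∧ Infinite Γ)
    (hW : ∀ x ∈ L, x ∈ N → x ∈ Submodule.span ℝ (J : Set V) → x ∈ E) :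
    HasRPFD L Γ (N ⊓ E) := by
  rcases h2 with h2 | ⟨h2, hinf⟩
  · exact (D.hasRPFD_of_corank h2 hW).2.2
  · exact D.hasRPFD_of_two h2 hW

/-- The cone conjecture for a pair with nonzero boundary, in rank at most two, and in rank three if
the group is infinite. -/
theorem BdPair.hasRPFD_of_rank (D : BdPair L N E J Γ) (hJ : ∃ p ∈ J, p ≠ 0)
    (hV : Module.finrank ℝ V ≤ 2 ∨ Module.finrank ℝ V = 3 ∧ Infinite Γ) :
    HasRPFD L Γ (N ⊓ E) := by
  have hW1 : 1 ≤ Module.finrank ℝ (Submodule.span ℝ (J : Set V)) := by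
    obtain ⟨p, hp, hp0⟩ := hJ
    rw [Nat.one_le_iff_ne_zero]
    intro h0
    have h1 : Submodule.span ℝ (J : Set V) = ⊥ := Submodule.finrank_eq_zero.1 h0
    have h3 : p ∈ Submodule.span ℝ (J : Set V) := Submodule.subset_span hp
    rw [h1] at h3
    exact hp0 h3
  rcases hV with hV | ⟨hV, hinf⟩
  · by_cases hr : Module.finrank ℝ (Submodule.span ℝ (J : Set V)) ≤ 1
    · exact D.hasRPFD_of_le_two (Or.inl (by omega)) (D.eff_of_rank_one hr)
    · have hle := Submodule.finrank_le (Submodule.span ℝ (J : Set V))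
      have htop : Submodule.span ℝ (J : Set V) = ⊤ :=
        Submodule.eq_top_of_finrank_eq (by omega)
      obtain ⟨e, he⟩ := D.good.interior_nonempty
      have hm := D.eff_of_meets he (by rw [htop]; exact Submodule.mem_top)
      exact D.hasRPFD_of_le_two (Or.inl (by omega)) fun x hxL hxN _ => hm x hxL hxN
  · have hnot : ¬ Module.finrank ℝ V ≤ Module.finrank ℝ (Submodule.span ℝ (J : Set V)) + 1 := by
      intro h
      have hfin := finite_of_isRatPoly D.good D.acts (D.isRatPoly h)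
      exact not_finite Γ
    exact D.hasRPFD_of_le_two (Or.inr ⟨by omega, hinf⟩) (D.eff_of_rank_one (by omega))

end Pool.Agent.Lib.Pad47bbB
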