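import Pool.Agent.Lib.Pad47bbB.MaxCover

/-!
The cone conjecture for a pair whose automorphism group has maximal rank modulo the boundary.
-/

open Set Topology

namespace Pool.Agent.Lib.Pad47bbB

open Pool.Agent.Lib.Pad47bb Pool.Agent.Lib.Pad47bbQ Pool.Agent.Lib.Pad47bbV

universe u

variable {V : Type u} [NormedAddCommGroup V] [NormedSpace ℝ V] [FiniteDimensional ℝ V]
  {L : Submodule ℤ V} [DiscreteTopology L] [IsZLattice ℝ L]
  {N E : PointedCone ℝ V} {J : Finset V} {Γ : Subgroup (V ≃ₗ[ℝ] V)}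

/-- A fundamental domain for a group gives one for every larger group preserving the cone. -/
theorem hasRPFD_mono {K : PointedCone ℝ V} {G : Subgroup (V ≃ₗ[ℝ] V)} (hΓG : Γ ≤ G)
    (hS : Setting L K G) (h : HasRPFD L Γ K) : HasRPFD L G K := by
  obtain ⟨P, hP, hcov, -⟩ := h
  refine exists_fundDomain hS hP ?_
  apply Subset.antisymm
  · intro x hx
    rw [hcov] at hx
    simp only [mem_iUnion] at hx
    obtain ⟨g, hg, hx⟩ := hx
    exact mem_biUnion (hΓG hg) hx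
  · intro x hx
    simp only [mem_iUnion] at hx
    obtain ⟨g, hg, y, hy, rfl⟩ := hx
    refine hS.map_cone g hg y ?_
    show y ∈ (K : Set V)
    rw [hcov]
    exact mem_biUnion (one_mem Γ) ⟨y, hy, rfl⟩

omit [FiniteDimensional ℝ V] [DiscreteTopology L] [IsZLattice ℝ L] in
/-- The setting of a larger group. -/
theorem BdPair.setting (D : BdPair L N E J Γ) {G : Subgroup (V ≃ₗ[ℝ] V)}
    (hL : ∀ g ∈ G, ∀ x ∈ L, g x ∈ L) (hN : ∀ g ∈ G, ∀ x ∈ N, g x ∈ N)
    (hE : ∀ g ∈ G, ∀ x ∈ E, g x ∈ E) : Setting L (N ⊓ E) G := by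
  refine ⟨?_, ?_, hL, fun g hg x hx => ⟨hN g hg x hx.1, hE g hg x hx.2⟩⟩
  · intro x hx hx'
    have h1 : closure ((N ⊓ E : PointedCone ℝ V) : Set V) ⊆ closure (E : Set V) :=
      closure_mono fun y hy => hy.2
    exact D.eff_salient x (h1 hx) (h1 hx')
  · obtain ⟨x, hx⟩ := D.good.interior_nonempty
    refine ⟨x, ?_⟩
    rw [mem_interior]
    exact ⟨interior (N : Set V), fun y hy => ⟨interior_subset hy, D.int_le hy⟩, isOpen_interior, hx⟩

omit [FiniteDimensional ℝ V] [DiscreteTopology L] [IsZLattice ℝ L] in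
/-- Automatic effectivity. -/
theorem BdPair.eff_span (D : BdPair L N E J Γ)
    (h : Module.finrank ℝ (Submodule.span ℝ (J : Set V)) ≤ 1 ∨
      (∃ e ∈ Submodule.span ℝ (J : Set V), e ∈ interior (N : Set V)) ∨
      ∀ x ∈ L, x ∈ N → x ∈ Submodule.span ℝ (J : Set V) → x ∈ E) :
    ∀ x ∈ L, x ∈ N → x ∈ Submodule.span ℝ (J : Set V) → x ∈ E := by
  rcases h with h | ⟨e, heJ, he⟩ | h
  · exact D.eff_of_rank_one h
  · exact fun x hxL hxN _ => D.eff_of_meets he heJ x hxL hxN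
  · exact h

/-- The cone conjecture in maximal rank, all cases. -/
theorem BdPair.hasRPFD_all [Nontrivial V] (D : BdPair L N E J Γ)
    (hW : ∀ x ∈ L, x ∈ N → x ∈ Submodule.span ℝ (J : Set V) → x ∈ E)
    (h : (∃ (m : ℕ) (φ : Multiplicative (Fin m → ℤ) →* (V ≃ₗ[ℝ] V)), Function.Injective φ ∧
        (∀ k, φ k ∈ Γ) ∧
        Module.finrank ℝ V ≤ Module.finrank ℝ (Submodule.span ℝ (J : Set V)) + m + 1) ∨
      Infinite Γ ∧ Module.finrank ℝ V ≤ Module.finrank ℝ (Submodule.span ℝ (J : Set V)) + 2) :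
    HasRPFD L Γ (N ⊓ E) := by
  rcases h with ⟨m, φ, hφ, hφΓ, hm⟩ | ⟨hinf, h2⟩
  · rcases Nat.eq_zero_or_pos m with h0 | h0
    · exact (D.hasRPFD_of_corank (by omega) hW).2.2
    · have h1 := (D.exists_cover_max φ hφ hφΓ h0).1
      exact D.hasRPFD_of_maxRank φ hφ hφΓ (by omega) hW
  · by_cases h1 : Module.finrank ℝ V ≤ Module.finrank ℝ (Submodule.span ℝ (J : Set V)) + 1
    · exact (D.hasRPFD_of_corank h1 hW).2.2
    · exact D.hasRPFD_of_two (by omega) hW

end Pool.Agent.Lib.Pad47bbB
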