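import Pool.Agent.Lib.Pad47bbB.Poly
import Pool.Agent.Lib.Pad47bbV.Final

/-!
The cone conjecture modulo the boundary.
-/

open Set Topology

namespace Pool.Agent.Lib.Pad47bbB

open Pool.Agent.Lib.Pad47bb Pool.Agent.Lib.Pad47bbQ Pool.Agent.Lib.Pad47bbV

variable {V : Type*} [NormedAddCommGroup V] [NormedSpace ℝ V] [FiniteDimensional ℝ V]
  {L : Submodule ℤ V} [DiscreteTopology L] [IsZLattice ℝ L]

/-- The generated cone is a `Setting`, provided it contains the interior of `N`. -/
theorem setting_ratHull {N : PointedCone ℝ V} (hN : Good N) {Γ : Subgroup (V ≃ₗ[ℝ] V)}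
    (hA : Acts L N Γ) (hint : interior (N : Set V) ⊆ ratHull L N) :
    Setting L (ratHull L N) Γ := by
  refine ⟨?_, ?_, hA.map_lattice, fun g hg x hx => ratHull_map hA hg hx⟩
  · intro x hx hx'
    have hcl : closure (ratHull L N : Set V) ⊆ (N : Set V) :=
      closure_minimal (fun y hy => ratHull_le hy) hN.closed
    exact hN.salient x (hcl hx) (hcl hx')
  · obtain ⟨e, he⟩ := hN.interior_nonempty
    refine ⟨e, ?_⟩
    rw [mem_interior]
    exact ⟨interior (N : Set V), hint, isOpen_interior, he⟩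

/-- The cone conjecture for `N` holds if and only if the cone is generated by its lattice points and
the points of the interior are, modulo `span J` and the group, in a finitely generated cone. -/
theorem hasRPFD_iff_mod [Nontrivial V] {N : PointedCone ℝ V} (hN : Good N)
    {J : Finset V} {Ξ : Set (V →L[ℝ] ℝ)} (D : BdCone L N J Ξ)
    {Γ : Subgroup (V ≃ₗ[ℝ] V)} (hA : Acts L N Γ) {M : PointedCone ℝ V}
    (hM1 : interior (N : Set V) ⊆ M) (hM2 : M ≤ N) :
    HasRPFD L Γ M ↔ M = ratHull L N ∧ ∃ Y : Finset V, (∀ y ∈ Y, y ∈ L ∧ y ∈ N) ∧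
      ∀ x ∈ interior (N : Set V), ∃ g ∈ Γ, ∃ y ∈ PointedCone.hull ℝ (Y : Set V),
        g x - y ∈ Submodule.span ℝ (J : Set V) := by
  constructor
  · intro h
    refine ⟨((hasRPFD_iff hN hA hM1 hM2).1 h).1, ?_⟩
    obtain ⟨P, ⟨s, hsL, rfl⟩, hcov, -⟩ := h
    have hPM : PointedCone.hull ℝ (s : Set V) ≤ M := by
      intro x hx
      show x ∈ (M : Set V)
      rw [hcov]
      exact mem_biUnion (one_mem Γ) ⟨x, hx, rfl⟩
    refine ⟨s, fun y hy => ⟨hsL hy, hM2 (hPM (Submodule.subset_span hy))⟩, ?_⟩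
    intro x hx
    have hx' : x ∈ (M : Set V) := hM1 hx
    rw [hcov] at hx'
    simp only [mem_iUnion] at hx'
    obtain ⟨g, hg, y, hy, rfl⟩ := hx'
    refine ⟨g⁻¹, inv_mem hg, y, hy, ?_⟩
    have e : g⁻¹ (g y) = y := g.symm_apply_apply y
    rw [e, sub_self]
    exact Submodule.zero_mem _
  · rintro ⟨rfl, Y, hY, hcov⟩
    obtain ⟨s, hsL, hs⟩ := isRatPoly_inf D Y hY
    have hsN : ∀ a ∈ s, a ∈ N := fun a ha => by
      have : a ∈ N ⊓ sumCone Y J := by rw [hs]; exact Submodule.subset_span ha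
      exact this.1
    have hS := setting_ratHull hN hA hM1
    have hsK : (s : Set V) ⊆ ratHull L N := fun a ha =>
      Submodule.subset_span ⟨hsN a ha, hsL ha⟩
    have hcl := closing hS s hsL hsK (fun x hx => exists_finset_of_ratHull hx)
      (fun x hx => by
        have hxN : x ∈ interior (N : Set V) := interior_mono (fun y hy => ratHull_le hy) hx
        obtain ⟨g, hg, y, hy, hw⟩ := hcov x hxN
        refine ⟨g⁻¹, inv_mem hg, g x, ?_, g.symm_apply_apply x⟩
        rw [← hs]
        exact ⟨hA.map_cone g hg x (interior_subset hxN), mem_sumCone.2 ⟨y, hy, hw⟩⟩)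
    refine exists_fundDomain hS (P₁ := PointedCone.hull ℝ (s : Set V)) ⟨s, hsL, rfl⟩ ?_
    apply Subset.antisymm
    · intro x hx
      obtain ⟨g, hg, y, hy, rfl⟩ := hcl x hx
      exact mem_biUnion hg ⟨y, hy, rfl⟩
    · intro x hx
      simp only [mem_iUnion] at hx
      obtain ⟨g, hg, y, hy, rfl⟩ := hx
      exact ratHull_map hA hg ((Submodule.span_le.2 fun a ha => hsK ha) hy)

end Pool.Agent.Lib.Pad47bbB
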