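import Pool.Agent.Lib.Pad47bbB.CyclicMod
import Pool.Agent.Lib.Pad47bbB.AlgCover
import Pool.Agent.Lib.Pad47bbB.Dense
import Pool.Agent.Lib.Pad47bbB.EffTwo

/-!
Free abelian groups of maximal rank modulo the span of the boundary components.
-/

open Set Topology NormedSpace Filter

namespace Pool.Agent.Lib.Pad47bbB

open Pool.Agent.Lib.Pad47bb Pool.Agent.Lib.Pad47bbQ Pool.Agent.Lib.Pad47bbV

universe u

variable {V : Type u} [NormedAddCommGroup V] [NormedSpace ℝ V] [FiniteDimensional ℝ V]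
  {L : Submodule ℤ V} [DiscreteTopology L] [IsZLattice ℝ L]
  {N E : PointedCone ℝ V} {J : Finset V} {Γ : Subgroup (V ≃ₗ[ℝ] V)}

omit [FiniteDimensional ℝ V] [DiscreteTopology L] [IsZLattice ℝ L] in
/-- A power of every element fixes `J` pointwise. -/
theorem BdPair.exists_fix (D : BdPair L N E J Γ) :
    ∃ n : ℕ, 0 < n ∧ ∀ g ∈ Γ, ∀ p ∈ J, (g ^ n) p = p := by
  classical
  refine ⟨Fintype.card (Equiv.Perm J), Fintype.card_pos, fun g hg p hp => ?_⟩
  let f : J → J := fun q => ⟨g q, D.perm g hg q q.2⟩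
  have hf : Function.Injective f := by
    intro a b hab
    exact Subtype.ext (g.injective (congrArg Subtype.val hab))
  let e : Equiv.Perm J := Equiv.ofBijective f (Finite.injective_iff_bijective.1 hf)
  have he : ∀ k : ℕ, ∀ q : J, (((e ^ k) q : J) : V) = (g ^ k) q := by
    intro k
    induction k with
    | zero => intro q; rfl
    | succ k ih =>
      intro q
      rw [pow_succ', pow_succ', LinearEquiv.mul_apply, ← ih]
      rfl
  have h1 := he (Fintype.card (Equiv.Perm J)) ⟨p, hp⟩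
  rw [pow_card_eq_one] at h1
  exact h1.symm

omit [FiniteDimensional ℝ V] [DiscreteTopology L] [IsZLattice ℝ L] in
/-- A translation by a fixed vector is trivial. -/
theorem BdPair.translate (D : BdPair L N E J Γ) {g : V ≃ₗ[ℝ] V} (hg : g ∈ Γ) {x w : V}
    (hx : x ∈ N) (hgx : g x = x + w) (hgw : g w = w) : w = 0 := by
  have hpow : ∀ n : ℕ, (g ^ n) x = x + (n : ℝ) • w := by
    intro n
    induction n with
    | zero => simp
    | succ n ih =>
      rw [pow_succ', LinearEquiv.mul_apply, ih, map_add, map_smul, hgx, hgw]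
      push_cast
      rw [add_smul, one_smul]
      abel
  have hinvw : g⁻¹ w = w := by
    calc g⁻¹ w = g⁻¹ (g w) := by rw [hgw]
      _ = w := g.symm_apply_apply _
  have hinvx : g⁻¹ x = x - w := by
    have h1 : g (x - w) = x := by rw [map_sub, hgx, hgw]; abel
    calc g⁻¹ x = g⁻¹ (g (x - w)) := by rw [h1]
      _ = x - w := g.symm_apply_apply _
  have hpow' : ∀ n : ℕ, (g⁻¹ ^ n) x = x + (n : ℝ) • (-w) := by
    intro n
    induction n with
    | zero => simp
    | succ n ih =>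
      rw [pow_succ', LinearEquiv.mul_apply, ih, map_add, map_smul, hinvx, map_neg, hinvw]
      push_cast
      rw [add_smul, one_smul]
      abel
  have hlim : ∀ h ∈ Γ, ∀ v : V, (∀ n : ℕ, (h ^ n) x = x + (n : ℝ) • v) → v ∈ N := by
    intro h hh v hv
    have h1 : Filter.Tendsto (fun n : ℕ => v + (1 / ((n : ℝ) + 1)) • x) Filter.atTop (𝓝 v) :=
      Pad47bbM.tendsto_add_smul _ _
    refine D.good.closed.mem_of_tendsto h1 (Filter.Eventually.of_forall fun n => ?_)
    have h2 := hv (n + 1)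
    have h3 : (h ^ (n + 1)) x ∈ N := D.acts.map_cone _ (pow_mem hh _) x hx
    have h4 := N.smul_mem (show (0 : ℝ) ≤ 1 / ((n : ℝ) + 1) by positivity) h3
    rw [h2, smul_add, smul_smul] at h4
    have h5 : 1 / ((n : ℝ) + 1) * ((n + 1 : ℕ) : ℝ) = 1 := by
      push_cast
      field_simp
    rw [h5, one_smul, add_comm] at h4
    exact h4
  exact D.good.salient _ (hlim g hg w hpow) (hlim g⁻¹ (inv_mem hg) (-w) hpow')

/-- A free abelian group of automorphisms, made to fix `J` pointwise, and its action on the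
quotient. -/
theorem BdPair.exists_action [Nontrivial V] (D : BdPair L N E J Γ) {U : Type*}
    [NormedAddCommGroup U] [NormedSpace ℝ U] [FiniteDimensional ℝ U] {π : V →ₗ[ℝ] U}
    (hπ : Function.Surjective π) (hker : ∀ x, π x = 0 ↔ x ∈ Submodule.span ℝ (J : Set V))
    {M : Submodule ℤ U} (hM : ∀ u, u ∈ M ↔ ∃ x ∈ L, π x = u) {m : ℕ}
    (φ : Multiplicative (Fin m → ℤ) →* (V ≃ₗ[ℝ] V)) (hφ : Function.Injective φ)
    (hφΓ : ∀ k, φ k ∈ Γ) :
    ∃ (x₀ : V) (ρ : Multiplicative (Fin m → ℤ) →* (U ≃ₗ[ℝ] U)), x₀ ∈ L ∧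
      x₀ ∈ interior (N : Set V) ∧ (∀ k, ∃ g ∈ Γ, ∀ x, act ρ k (π x) = π (g x)) ∧
      ∀ k, act ρ k (π x₀) = π x₀ → k = 0 := by
  obtain ⟨n, hn, hfix⟩ := D.exists_fix
  obtain ⟨x₀, hx₀L, -, hx₀⟩ := exists_lattice_interior L D.good.interior_nonempty
  let ψ : Multiplicative (Fin m → ℤ) →* (V ≃ₗ[ℝ] V) := φ.comp (powMonoidHom n)
  have hψk : ∀ k, ψ k = φ k ^ n := fun k => map_pow φ k n
  have hψ : Function.Injective ψ := by
    rw [injective_iff_map_eq_one]
    intro k hk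
    have h1 : φ (k ^ n) = 1 := hk
    have h2 : k ^ n = 1 := hφ (by rw [h1, map_one])
    have h3 : n • Multiplicative.toAdd k = 0 := h2
    have h4 : Multiplicative.toAdd k = 0 := by
      funext i
      have h5 := congrFun h3 i
      rw [Pi.smul_apply, Pi.zero_apply, nsmul_eq_mul] at h5
      rcases mul_eq_zero.1 h5 with h6 | h6
      · have : n = 0 := by exact_mod_cast h6
        omega
      · exact h6
    exact h4
  have hψΓ : ∀ k, ψ k ∈ Γ := fun k => by rw [hψk]; exact pow_mem (hφΓ k) n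
  have hψJ : ∀ k, ∀ w ∈ Submodule.span ℝ (J : Set V), ψ k w = w := by
    intro k w hw
    induction hw using Submodule.span_induction with
    | mem w hw => rw [hψk]; exact hfix _ (hφΓ k) w hw
    | zero => exact map_zero _
    | add a b _ _ ha hb => rw [map_add, ha, hb]
    | smul c a _ ha => rw [map_smul, ha]
  have Q := D.isQuot hπ hker hM
  have hex : ∀ k, ∃ h : U ≃ₗ[ℝ] U, ∀ x, h (π x) = π (ψ k x) := by
    intro k
    obtain ⟨h, -, h1⟩ := Q.exists_induced (hψΓ k)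
    exact ⟨h, h1⟩
  choose ρ0 hρ0 using hex
  let ρ : Multiplicative (Fin m → ℤ) →* (U ≃ₗ[ℝ] U) := MonoidHom.mk' ρ0 (by
    intro a b
    apply LinearEquiv.ext
    intro u
    obtain ⟨x, rfl⟩ := hπ u
    rw [hρ0, LinearEquiv.mul_apply, hρ0, hρ0, map_mul]
    rfl)
  have hρ : ∀ k : Fin m → ℤ, ∀ x, act ρ k (π x) = π (act ψ k x) := fun k x => hρ0 _ x
  refine ⟨x₀, ρ, hx₀L, hx₀, fun k => ⟨act ψ k, hψΓ _, hρ k⟩, fun k hk => ?_⟩
  rw [hρ] at hk
  have h1 : act ψ k x₀ - x₀ ∈ Submodule.span ℝ (J : Set V) := by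
    rw [← hker, map_sub, hk, sub_self]
  have h2 : act ψ k x₀ - x₀ = 0 := by
    refine D.translate (hψΓ (Multiplicative.ofAdd k)) (interior_subset hx₀)
      (w := act ψ k x₀ - x₀) ?_ (hψJ _ _ h1)
    show act ψ k x₀ = x₀ + (act ψ k x₀ - x₀)
    abel
  refine stab_trivial ψ hψ L N ?_ (fun k v hv => D.acts.map_lattice _ (hψΓ _) v hv)
    (fun k v hv => D.acts.map_cone _ (hψΓ _) v hv) hx₀ (sub_eq_zero.1 h2)
  intro x hx hx'
  rw [D.good.closed.closure_eq] at hx hx'
  exact D.good.salient x hx hx'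

omit [FiniteDimensional ℝ V] in
/-- Points of the interior of the image lift to the interior. -/
theorem exists_lift_interior {U : Type*} [NormedAddCommGroup U] [NormedSpace ℝ U]
    [FiniteDimensional ℝ U] (π : V →ₗ[ℝ] U) (hN : (interior (N : Set V)).Nonempty) {u : U}
    (hu : u ∈ interior ((PointedCone.map π N : PointedCone ℝ U) : Set U)) :
    ∃ x ∈ interior (N : Set V), π x = u := by
  obtain ⟨e, he⟩ := hN
  have hc : Continuous fun ε : ℝ => u - ε • π e :=
    continuous_const.sub (continuous_id.smul continuous_const)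
  have h1 : ∀ᶠ ε in 𝓝 (0 : ℝ), u - ε • π e ∈
      interior ((PointedCone.map π N : PointedCone ℝ U) : Set U) := by
    have h2 := hc.tendsto 0
    simp only [zero_smul, sub_zero] at h2
    exact h2.eventually (isOpen_interior.mem_nhds hu)
  obtain ⟨δ, hδ, hball⟩ := Metric.eventually_nhds_iff.1 h1
  have h3 := interior_subset (hball (y := δ / 2) (by
    rw [dist_zero_right, Real.norm_eq_abs, abs_of_pos (by positivity)]
    linarith))
  obtain ⟨z, hz, hzu⟩ := h3
  refine ⟨(δ / 2) • e + z, interior_add_mem (interior_smul_mem he (by positivity)) hz, ?_⟩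
  have hzu' : π z = u - (δ / 2) • π e := hzu
  rw [map_add, map_smul, hzu']
  abel

/-- The rank bound, and a cover in maximal rank. -/
theorem BdPair.exists_cover_max [Nontrivial V] (D : BdPair L N E J Γ) {m : ℕ}
    (φ : Multiplicative (Fin m → ℤ) →* (V ≃ₗ[ℝ] V)) (hφ : Function.Injective φ)
    (hφΓ : ∀ k, φ k ∈ Γ) (hm : 0 < m) :
    m + Module.finrank ℝ (Submodule.span ℝ (J : Set V)) < Module.finrank ℝ V ∧
      (Module.finrank ℝ V = Module.finrank ℝ (Submodule.span ℝ (J : Set V)) + (m + 1) →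
        ∃ Y : Finset V, (∀ y ∈ Y, y ∈ L ∧ y ∈ interior (N : Set V)) ∧ Covers N J Y Γ) := by
  classical
  have hle := Submodule.finrank_le (Submodule.span ℝ (J : Set V))
  obtain ⟨k, hk⟩ := Nat.exists_eq_add_of_le hle
  obtain ⟨π, hπ, hker, hint⟩ := exists_quot L (fun p hp => (D.comp p hp).1) hk
  obtain ⟨M, hM, hMd, hMl⟩ := lattice_image L π hπ hint
  obtain ⟨x₀, ρ, hx₀L, hx₀, hρ, hstab⟩ := D.exists_action hπ hker hM φ hφ hφΓ
  have hx0 : π x₀ ≠ 0 := by
    intro h0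
    have h1 := hstab (fun _ => 1) (by rw [h0, map_zero])
    have h2 := congrFun h1 ⟨0, hm⟩
    simp at h2
  have hx₀M : π x₀ ∈ M := (hM _).2 ⟨x₀, hx₀L, rfl⟩
  have hρM : ∀ k, ∀ v ∈ M, act ρ k v ∈ M := by
    intro k v hv
    obtain ⟨x, hx, rfl⟩ := (hM v).1 hv
    obtain ⟨g, hg, hgx⟩ := hρ k
    rw [hgx]
    exact (hM _).2 ⟨g x, D.acts.map_lattice g hg x hx, rfl⟩
  have hbound := rank_lt_of_stab ρ M hρM hx0 hx₀M hstab
  rw [Module.finrank_fin_fun] at hbound
  refine ⟨by omega, fun hmax => ?_⟩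
  have hcyc := cyclic_of_stab ρ M hρM (by rw [Module.finrank_fin_fun]; omega) hx0 hx₀M hstab
  obtain ⟨R, i1, i2, i3, ⟨Md⟩⟩ := exists_model ρ (π x₀) hcyc
  let LR : Submodule ℤ R := ZLattice.comap ℝ M Md.ev.toLinearMap
  have hρinj : Function.Injective ρ := by
    rw [injective_iff_map_eq_one]
    intro l hl
    have h1 : act ρ (Multiplicative.toAdd l) (π x₀) = π x₀ := by
      show ρ l (π x₀) = π x₀
      rw [hl]
      rfl
    exact Multiplicative.toAdd.injective (hstab _ h1)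
  have hMR : MaxRank LR Md.lam :=
    { mem := Md.mem_logLat M hρM
      mul_indep := Md.mul_indep hρinj
      card := by
        rw [Fintype.card_fin, Md.ev.toLinearEquiv.finrank_eq, Module.finrank_fin_fun]
        omega }
  let K : PointedCone ℝ (Fin k → ℝ) := PointedCone.map π N
  have hKmem : ∀ u, u ∈ K ↔ ∃ x ∈ N, π x = u := fun u => Iff.rfl
  have hopen : IsOpenMap π := LinearMap.isOpenMap_of_finiteDimensional π hπ
  have hKint : ∀ x ∈ interior (N : Set V), π x ∈ interior (K : Set (Fin k → ℝ)) := by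
    intro x hx
    rw [mem_interior]
    refine ⟨π '' interior (N : Set V), ?_, hopen _ isOpen_interior, ⟨x, hx, rfl⟩⟩
    rintro _ ⟨y, hy, rfl⟩
    exact (hKmem _).2 ⟨y, interior_subset hy, rfl⟩
  have hKinv : ∀ l, ∀ v ∈ K, act ρ l v ∈ K := by
    intro l v hv
    obtain ⟨x, hx, rfl⟩ := (hKmem v).1 hv
    obtain ⟨g, hg, hgx⟩ := hρ l
    rw [hgx]
    exact (hKmem _).2 ⟨g x, D.acts.map_cone g hg x hx, rfl⟩
  have hKR : ∀ r, r ∈ interior (Md.cone K : Set R) ↔ Md.ev r ∈ interior (K : Set (Fin k → ℝ)) := by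
    intro r
    have h1 : (Md.cone K : Set R) = Md.ev.toHomeomorph ⁻¹' (K : Set (Fin k → ℝ)) := rfl
    rw [h1, ← Md.ev.toHomeomorph.preimage_interior]
    rfl
  have h1int : (1 : R) ∈ interior (Md.cone K : Set R) := by
    rw [hKR, Md.ev_one]
    exact hKint _ hx₀
  obtain ⟨Q, hQ, hQK, hcov⟩ := cover_units hMR ⟨1, h1int⟩ (Md.mem_coneLat hKinv)
  -- lifts
  have hlift : ∀ q ∈ Q, ∃ Y : Finset V, (∀ y ∈ Y, y ∈ L ∧ y ∈ interior (N : Set V)) ∧
      Md.ev q ∈ π '' interior (PointedCone.hull ℝ (Y : Set V) : Set V) := by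
    intro q hq
    obtain ⟨x, hx, hxq⟩ := exists_lift_interior π D.good.interior_nonempty ((hKR q).1 (hQK hq))
    obtain ⟨s, hs1, hs2, hs3⟩ := exists_ratPoly_nhds L isOpen_interior hx
    refine ⟨s, fun v hv => ⟨hs1 hv, ?_⟩, x, hs3, hxq⟩
    obtain ⟨c, hc, hcv⟩ := hs2 v hv
    have := interior_smul' hcv (inv_pos.2 hc)
    rwa [smul_smul, inv_mul_cancel₀ hc.ne', one_smul] at this
  choose! Y hY hYq using hlift
  obtain ⟨t, htQ, htcov⟩ := hQ.elim_nhds_subcover
    (fun q => Md.ev ⁻¹' (π '' interior (PointedCone.hull ℝ (Y q : Set V) : Set V)))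
    (fun q hq => ((hopen _ isOpen_interior).preimage Md.ev.continuous).mem_nhds (hYq q hq))
  have hZ : ∀ y ∈ t.biUnion Y, y ∈ L ∧ y ∈ interior (N : Set V) := by
    intro y hy
    obtain ⟨q, hq, hy⟩ := Finset.mem_biUnion.1 hy
    exact hY q (htQ q hq) y hy
  have hQZ : ∀ q ∈ Q, ∃ y ∈ PointedCone.hull ℝ ((t.biUnion Y : Finset V) : Set V),
      π y = Md.ev q := by
    intro q hq
    have h1 := htcov hq
    simp only [mem_iUnion] at h1
    obtain ⟨p, hp, y, hy, hyq⟩ := h1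
    refine ⟨y, ?_, hyq⟩
    have h2 : PointedCone.hull ℝ (Y p : Set V) ≤
        PointedCone.hull ℝ ((t.biUnion Y : Finset V) : Set V) := by
      apply Submodule.span_mono
      intro a ha
      exact Finset.mem_coe.2 (Finset.mem_biUnion.2 ⟨p, hp, ha⟩)
    exact h2 (interior_subset hy)
  refine ⟨t.biUnion Y, hZ, D.covers_of_dense _ (fun y hy => ⟨(hZ y hy).1, D.int_le (hZ y hy).2⟩) ?_⟩
  intro x hx
  refine ⟨fun n => x + (1 / ((n : ℝ) + 1)) • x₀, Pad47bbM.tendsto_add_smul _ _, ?_⟩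
  set r : R := Md.ev.symm (π x) with hr
  have hbad := finite_nonunit r
  have hinj : Function.Injective fun n : ℕ => 1 / ((n : ℝ) + 1) := by
    intro a b hab
    have h1 : (a : ℝ) + 1 = b + 1 := by
      have h2 := congrArg (fun z : ℝ => z⁻¹) hab
      simpa using h2
    exact_mod_cast add_right_cancel h1
  have hbad' := hbad.preimage hinj.injOn
  have hev : ∀ᶠ n : ℕ in atTop, n ∉ (fun n : ℕ => 1 / ((n : ℝ) + 1)) ⁻¹'
      {ε : ℝ | ¬ ∃ u', (r + ε • 1) * u' = 1} := by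
    rw [← Nat.cofinite_eq_atTop]
    exact hbad'.compl_mem_cofinite
  filter_upwards [hev] with n hn hun
  have hunit : ∃ u', (r + (1 / ((n : ℝ) + 1)) • (1 : R)) * u' = 1 := by
    by_contra h
    exact hn h
  have hev1 : Md.ev (r + (1 / ((n : ℝ) + 1)) • (1 : R)) = π (x + (1 / ((n : ℝ) + 1)) • x₀) := by
    rw [map_add, map_smul, Md.ev_one, hr, Md.ev.apply_symm_apply, map_add, map_smul]
  obtain ⟨c, hc, s, hs, q, hq, hvq⟩ := hcov _ ((hKR _).2 (by rw [hev1]; exact hKint _ hun)) hunit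
  obtain ⟨l, hl⟩ := (Submodule.mem_span_range_iff_exists_fun ℤ).1 hs
  obtain ⟨y, hy, hyq⟩ := hQZ q hq
  obtain ⟨g, hg, hgx⟩ := hρ (2 • l)
  have h3 : π (x + (1 / ((n : ℝ) + 1)) • x₀) = π (c • g y) := by
    rw [← hev1, hvq, map_smul, ← hl, Md.ev_exp, ← hyq, hgx, map_smul]
  refine ⟨g⁻¹, inv_mem hg, c • y, (PointedCone.hull ℝ _).smul_mem hc.le hy, ?_⟩
  have h4 : x + (1 / ((n : ℝ) + 1)) • x₀ - c • g y ∈ Submodule.span ℝ (J : Set V) := by
    rw [← hker, map_sub, h3, sub_self]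
  have h5 := D.map_span (inv_mem hg) h4
  rw [map_sub, map_smul] at h5
  have h6 : g⁻¹ (g y) = y := g.symm_apply_apply _
  rwa [h6] at h5

/-- The cone conjecture in maximal rank. -/
theorem BdPair.hasRPFD_of_maxRank [Nontrivial V] (D : BdPair L N E J Γ) {m : ℕ}
    (φ : Multiplicative (Fin m → ℤ) →* (V ≃ₗ[ℝ] V)) (hφ : Function.Injective φ)
    (hφΓ : ∀ k, φ k ∈ Γ)
    (hm : Module.finrank ℝ V = Module.finrank ℝ (Submodule.span ℝ (J : Set V)) + (m + 1))
    (hW : ∀ x ∈ L, x ∈ N → x ∈ Submodule.span ℝ (J : Set V) → x ∈ E) :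
    HasRPFD L Γ (N ⊓ E) := by
  rcases Nat.eq_zero_or_pos m with h0 | h0
  · exact (D.hasRPFD_of_corank (by omega) hW).2.2
  · obtain ⟨Y, hY, hcov⟩ := (D.exists_cover_max φ hφ hφΓ h0).2 hm
    exact D.hasRPFD_of_interior hW Y hY hcov

end Pool.Agent.Lib.Pad47bbB
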