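import Pool.Agent.Lib.Pad47bbB.Final

/-!
The cone generated by the nef lattice classes: no effectivity is needed.
-/

open Set Topology

namespace Pool.Agent.Lib.Pad47bbB

open Pool.Agent.Lib.Pad47bb Pool.Agent.Lib.Pad47bbQ Pool.Agent.Lib.Pad47bbV

universe u

variable {V : Type u} [NormedAddCommGroup V] [NormedSpace ℝ V] [FiniteDimensional ℝ V]
  {L : Submodule ℤ V} [DiscreteTopology L] [IsZLattice ℝ L]
  {N E : PointedCone ℝ V} {J : Finset V} {Γ : Subgroup (V ≃ₗ[ℝ] V)}

/-- A cover gives the cone conjecture for the cone generated by the lattice points. -/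
theorem BdPair.hasRPFD_plus_of_cover (D : BdPair L N E J Γ)
    (Y : Finset V) (hY : ∀ y ∈ Y, y ∈ L ∧ y ∈ E) (hcov : Covers N J Y Γ) :
    HasRPFD L Γ (ratHull L N) := by
  obtain ⟨s, hsL, hsK, -, hs⟩ := D.exists_cover Y hY hcov
  have hS := setting_ratHull D.good D.acts D.int_ratHull
  refine exists_fundDomain hS (P₁ := PointedCone.hull ℝ (s : Set V)) ⟨s, hsL, rfl⟩ ?_
  apply Subset.antisymm
  · intro x hx
    obtain ⟨g, hg, y, hy, rfl⟩ := hs x hx
    exact mem_biUnion hg ⟨y, hy, rfl⟩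
  · intro x hx
    simp only [mem_iUnion] at hx
    obtain ⟨g, hg, y, hy, rfl⟩ := hx
    exact ratHull_map D.acts hg ((Submodule.span_le.2 fun a ha => hsK ha) hy)

omit [FiniteDimensional ℝ V] [DiscreteTopology L] [IsZLattice ℝ L] in
/-- If `N` is rational polyhedral, it is generated by its lattice points. -/
theorem ratHull_eq_of_isRatPoly (hP : IsRatPoly L N) : ratHull L N = N := by
  apply le_antisymm ratHull_le
  obtain ⟨s, hsL, hs⟩ := hP
  intro x hx
  rw [hs] at hx
  refine Submodule.span_mono ?_ hx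
  intro a ha
  refine ⟨?_, hsL ha⟩
  rw [hs]
  exact Submodule.subset_span ha

/-- Every case: the cone generated by the lattice points of `N` has a rational polyhedral
fundamental domain, and it is `N ∩ E` if the lattice points of `N` in the span of `J` are in `E`. -/
theorem BdPair.plus_all [Nontrivial V] (D : BdPair L N E J Γ)
    (h : (∃ (m : ℕ) (φ : Multiplicative (Fin m → ℤ) →* (V ≃ₗ[ℝ] V)), Function.Injective φ ∧
        (∀ k, φ k ∈ Γ) ∧
        Module.finrank ℝ V ≤ Module.finrank ℝ (Submodule.span ℝ (J : Set V)) + m + 1) ∨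
      Infinite Γ ∧ Module.finrank ℝ V ≤ Module.finrank ℝ (Submodule.span ℝ (J : Set V)) + 2) :
    HasRPFD L Γ (ratHull L N) ∧
      ((∀ x ∈ L, x ∈ N → x ∈ Submodule.span ℝ (J : Set V) → x ∈ E) → N ⊓ E = ratHull L N) := by
  have hone : Module.finrank ℝ V ≤ Module.finrank ℝ (Submodule.span ℝ (J : Set V)) + 1 →
      HasRPFD L Γ (ratHull L N) ∧
      ((∀ x ∈ L, x ∈ N → x ∈ Submodule.span ℝ (J : Set V) → x ∈ E) → N ⊓ E = ratHull L N) := by
    intro h1
    have hP := D.isRatPoly h1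
    refine ⟨?_, fun hW => D.inf_eq_ratHull (D.eff_of_corank h1 hW)⟩
    rw [ratHull_eq_of_isRatPoly hP]
    obtain ⟨v, hv⟩ := exists_vec_of_finrank h1
    obtain ⟨Ξ, hΞ⟩ := D.bdCone
    exact Pad47bbB.hasRPFD_of_corank D.good hΞ v hv D.acts
  have hcase : (∃ Y : Finset V, (∀ y ∈ Y, y ∈ L ∧ y ∈ interior (N : Set V)) ∧ Covers N J Y Γ) →
      HasRPFD L Γ (ratHull L N) ∧
      ((∀ x ∈ L, x ∈ N → x ∈ Submodule.span ℝ (J : Set V) → x ∈ E) → N ⊓ E = ratHull L N) := by
    rintro ⟨Y, hY, hcov⟩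
    exact ⟨D.hasRPFD_plus_of_cover Y (fun y hy => ⟨(hY y hy).1, D.int_le (hY y hy).2⟩) hcov,
      fun hW => D.inf_eq_ratHull (D.lattice_eff hW Y hY hcov)⟩
  rcases h with ⟨m, φ, hφ, hφΓ, hm⟩ | ⟨hinf, h2⟩
  · rcases Nat.eq_zero_or_pos m with h0 | h0
    · exact hone (by omega)
    · obtain ⟨h1, h3⟩ := D.exists_cover_max φ hφ hφΓ h0
      exact hcase (h3 (by omega))
  · by_cases h1 : Module.finrank ℝ V ≤ Module.finrank ℝ (Submodule.span ℝ (J : Set V)) + 1
    · exact hone h1
    · exact hcase (D.exists_cover_two (by omega))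

/-- The setting of a larger group, for the cone generated by the lattice points. -/
theorem BdPair.setting_plus (D : BdPair L N E J Γ) {G : Subgroup (V ≃ₗ[ℝ] V)}
    (hL : ∀ g ∈ G, ∀ x ∈ L, g x ∈ L) (hN : ∀ g ∈ G, ∀ x ∈ N, g x ∈ N) :
    Setting L (ratHull L N) G :=
  setting_ratHull D.good ⟨hL, hN⟩ D.int_ratHull

/-- Infinite group in rank at most three and nonzero boundary: the span of the boundary has
dimension at most one. -/
theorem BdPair.finrank_span_le_one (D : BdPair L N E J Γ) (hV : Module.finrank ℝ V ≤ 3)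
    [Infinite Γ] : Module.finrank ℝ (Submodule.span ℝ (J : Set V)) ≤ 1 := by
  by_contra hcon
  have hfin := finite_of_isRatPoly D.good D.acts (D.isRatPoly (by omega))
  exact not_finite Γ

end Pool.Agent.Lib.Pad47bbB
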