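import Pool.Agent.Lib.Pad47bb.Poly

/-!
Cones which are, modulo a rational subspace, cut out by functionals bounded on the subspace
(the cone theorem for the components of the boundary of a klt Calabi-Yau pair): their intersections
with `cone Y + W` are rational polyhedral.
-/

open Set Topology

namespace Pool.Agent.Lib.Pad47bbB

open Pool.Agent.Lib.Pad47bb

variable {V : Type*} [NormedAddCommGroup V] [NormedSpace ℝ V]

/-- `N` is cut out by the functionals of its dual cone which vanish on `J` and by the functionals of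
`Ξ`, which are integral on `L`, nonnegative on `N` and bounded at the elements of `J`. -/
structure BdCone (L : Submodule ℤ V) (N : PointedCone ℝ V) (J : Finset V)
    (Ξ : Set (V →L[ℝ] ℝ)) : Prop where
  lattice : ∀ p ∈ J, p ∈ L
  integral : ∀ ξ ∈ Ξ, ∀ x ∈ L, ∃ n : ℤ, ξ x = n
  nonneg : ∀ ξ ∈ Ξ, ∀ x ∈ N, 0 ≤ ξ x
  bounded : ∃ B : ℝ, ∀ ξ ∈ Ξ, ∀ p ∈ J, |ξ p| ≤ B
  mem : ∀ x : V, (∀ φ : V →L[ℝ] ℝ, (∀ y ∈ N, 0 ≤ φ y) → (∀ p ∈ J, φ p = 0) → 0 ≤ φ x) →
    (∀ ξ ∈ Ξ, 0 ≤ ξ x) → x ∈ N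

/-- Dickson's lemma: finitely many functionals of `Ξ` dominate all of them from below on `Y` with
equality on `J`. -/
theorem exists_forms (Y J : Finset V) (Ξ : Set (V →L[ℝ] ℝ)) (B : ℕ)
    (hY : ∀ ξ ∈ Ξ, ∀ y ∈ Y, ∃ n : ℕ, ξ y = n)
    (hJ : ∀ ξ ∈ Ξ, ∀ p ∈ J, ∃ n : ℕ, ξ p + B = n)
    (hJ' : ∀ ξ ∈ Ξ, ∀ p ∈ J, ∃ n : ℕ, B - ξ p = n) :
    ∃ T : Finset (V →L[ℝ] ℝ), (T : Set (V →L[ℝ] ℝ)) ⊆ Ξ ∧
      ∀ ξ ∈ Ξ, ∃ τ ∈ T, (∀ y ∈ Y, τ y ≤ ξ y) ∧ ∀ p ∈ J, τ p = ξ p := by
  classical
  choose! a ha using hY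
  choose! b hb using hJ
  choose! c hc using hJ'
  let F : (V →L[ℝ] ℝ) → (Y ⊕ (J ⊕ J) → ℕ) := fun ξ =>
    Sum.elim (fun y => a ξ y) (Sum.elim (fun p => b ξ p) (fun p => c ξ p))
  let T : Set (Y ⊕ (J ⊕ J) → ℕ) := F '' Ξ
  let M : Set (Y ⊕ (J ⊕ J) → ℕ) := {m | Minimal (· ∈ T) m}
  have hMfin : M.Finite := by
    apply WellQuasiOrderedLE.finite_of_isAntichain
    intro a ha b hb hab hle
    exact hab (le_antisymm hle (hb.le_of_le ha.prop hle))
  have hMT : ∀ m ∈ M, ∃ g ∈ Ξ, F g = m := fun m hm => hm.prop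
  choose! γ hγ hγF using hMT
  refine ⟨hMfin.toFinset.image γ, ?_, ?_⟩
  · intro g hg
    obtain ⟨m, hm, rfl⟩ := Finset.mem_image.1 hg
    exact hγ m (hMfin.mem_toFinset.1 hm)
  · intro ξ hξ
    obtain ⟨m, hm, hmin⟩ := exists_minimal_le_of_wellFoundedLT (· ∈ T) (F ξ) ⟨ξ, hξ, rfl⟩
    have hτ := hγ m hmin
    have hle : ∀ i, F (γ m) i ≤ F ξ i := fun i => by rw [hγF m hmin]; exact hm i
    refine ⟨γ m, Finset.mem_image_of_mem _ (hMfin.mem_toFinset.2 hmin), ?_, ?_⟩
    · intro y hy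
      have h1 : a (γ m) y ≤ a ξ y := hle (Sum.inl ⟨y, hy⟩)
      rw [ha _ hτ y hy, ha _ hξ y hy]
      exact_mod_cast h1
    · intro p hp
      have h1 : b (γ m) p ≤ b ξ p := hle (Sum.inr (Sum.inl ⟨p, hp⟩))
      have h2 : c (γ m) p ≤ c ξ p := hle (Sum.inr (Sum.inr ⟨p, hp⟩))
      have e1 := hb _ hτ p hp
      have e2 := hb _ hξ p hp
      have e3 := hc _ hτ p hp
      have e4 := hc _ hξ p hp
      have h1' : (b (γ m) p : ℝ) ≤ b ξ p := by exact_mod_cast h1
      have h2' : (c (γ m) p : ℝ) ≤ c ξ p := by exact_mod_cast h2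
      linarith

/-- The cone `cone Y + span J`. -/
def sumCone (Y J : Finset V) : PointedCone ℝ V :=
  PointedCone.hull ℝ (Y : Set V) ⊔
    (Submodule.span ℝ (J : Set V)).restrictScalars {c : ℝ // 0 ≤ c}

theorem mem_sumCone {Y J : Finset V} {x : V} :
    x ∈ sumCone Y J ↔
      ∃ y ∈ PointedCone.hull ℝ (Y : Set V), x - y ∈ Submodule.span ℝ (J : Set V) := by
  unfold sumCone
  rw [Submodule.mem_sup]
  constructor
  · rintro ⟨y, hy, w, hw, rfl⟩
    exact ⟨y, hy, by simpa using hw⟩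
  · rintro ⟨y, hy, hw⟩
    exact ⟨y, hy, x - y, by simpa using hw, by abel⟩

/-- A subspace spanned by finitely many lattice vectors is a rational polyhedral cone. -/
theorem isRatPoly_span (L : Submodule ℤ V) (J : Finset V) (hJ : ∀ p ∈ J, p ∈ L) :
    IsRatPoly L ((Submodule.span ℝ (J : Set V)).restrictScalars {c : ℝ // 0 ≤ c}) := by
  classical
  refine ⟨J ∪ J.image (fun p => -p), ?_, ?_⟩
  · intro x hx
    rw [Finset.coe_union, mem_union] at hx
    rcases hx with hx | hx
    · exact hJ x hx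
    · obtain ⟨p, hp, rfl⟩ := Finset.mem_image.1 hx
      exact L.neg_mem (hJ p hp)
  · apply le_antisymm
    · intro x hx
      rw [Submodule.restrictScalars_mem] at hx
      induction hx using Submodule.span_induction with
      | mem x hx =>
        exact Submodule.subset_span (by simp only [Finset.coe_union, mem_union]; exact Or.inl hx)
      | zero => exact Submodule.zero_mem _
      | add x y _ _ hx hy => exact Submodule.add_mem _ hx hy
      | smul c x hx' hx =>
        -- both signs: use that the hull is symmetric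
        have hsymm : ∀ z ∈ PointedCone.hull ℝ ((J ∪ J.image (fun p => -p) : Finset V) : Set V),
            -z ∈ PointedCone.hull ℝ ((J ∪ J.image (fun p => -p) : Finset V) : Set V) := by
          intro z hz
          induction hz using Submodule.span_induction with
          | mem z hz =>
            apply Submodule.subset_span
            rw [Finset.coe_union, mem_union] at hz ⊢
            rcases hz with hz | hz
            · exact Or.inr (Finset.mem_coe.2 (Finset.mem_image_of_mem _ hz))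
            · obtain ⟨p, hp, rfl⟩ := Finset.mem_image.1 hz
              rw [neg_neg]
              exact Or.inl hp
          | zero => simp
          | add a b _ _ ha hb => rw [neg_add]; exact Submodule.add_mem _ ha hb
          | smul c a _ ha => rw [← smul_neg]; exact Submodule.smul_mem _ c ha
        rcases le_total 0 c with hc | hc
        · exact Submodule.smul_mem _ (⟨c, hc⟩ : {c : ℝ // 0 ≤ c}) hx
        · have h1 := Submodule.smul_mem _ (⟨-c, by linarith⟩ : {c : ℝ // 0 ≤ c}) (hsymm x hx)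
          have h2 : (⟨-c, by linarith⟩ : {c : ℝ // 0 ≤ c}) • (-x) = c • x := by
            show (-c) • (-x) = c • x
            rw [neg_smul_neg]
          rwa [h2] at h1
    · refine Submodule.span_le.2 ?_
      intro x hx
      rw [Finset.coe_union, mem_union] at hx
      show x ∈ Submodule.span ℝ (J : Set V)
      rcases hx with hx | hx
      · exact Submodule.subset_span hx
      · obtain ⟨p, hp, rfl⟩ := Finset.mem_image.1 hx
        exact Submodule.neg_mem _ (Submodule.subset_span hp)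

theorem isRatPoly_sumCone (L : Submodule ℤ V) (Y J : Finset V) (hY : ∀ y ∈ Y, y ∈ L)
    (hJ : ∀ p ∈ J, p ∈ L) : IsRatPoly L (sumCone Y J) :=
  IsRatPoly.sup ⟨Y, hY, rfl⟩ (isRatPoly_span L J hJ)

/-- The intersection of `N` with `cone Y + span J` is rational polyhedral. -/
theorem isRatPoly_inf {L : Submodule ℤ V} {N : PointedCone ℝ V} {J : Finset V}
    {Ξ : Set (V →L[ℝ] ℝ)} (D : BdCone L N J Ξ) (Y : Finset V) (hY : ∀ y ∈ Y, y ∈ L ∧ y ∈ N) :
    IsRatPoly L (N ⊓ sumCone Y J) := by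
  classical
  obtain ⟨B, hB⟩ := D.bounded
  have hnat : ∀ r : ℝ, 0 ≤ r → (∃ n : ℤ, r = n) → ∃ n : ℕ, r = n := by
    rintro r hr ⟨n, rfl⟩
    have hn : 0 ≤ n := by exact_mod_cast hr
    obtain ⟨m, rfl⟩ := Int.eq_ofNat_of_zero_le hn
    exact ⟨m, by simp⟩
  have hBn : ∀ ξ ∈ Ξ, ∀ p ∈ J, |ξ p| ≤ (⌈B⌉₊ : ℝ) := fun ξ hξ p hp =>
    (hB ξ hξ p hp).trans (Nat.le_ceil B)
  obtain ⟨T, hTΞ, hT⟩ := exists_forms Y J Ξ ⌈B⌉₊
    (fun ξ hξ y hy => hnat _ (D.nonneg ξ hξ y (hY y hy).2) (D.integral ξ hξ y (hY y hy).1))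
    (fun ξ hξ p hp => by
      have h1 := (abs_le.1 (hBn ξ hξ p hp)).1
      obtain ⟨n, hn⟩ := D.integral ξ hξ p (D.lattice p hp)
      exact hnat _ (by linarith) ⟨n + ⌈B⌉₊, by rw [hn]; push_cast; ring⟩)
    (fun ξ hξ p hp => by
      have h1 := (abs_le.1 (hBn ξ hξ p hp)).2
      obtain ⟨n, hn⟩ := D.integral ξ hξ p (D.lattice p hp)
      exact hnat _ (by linarith) ⟨⌈B⌉₊ - n, by rw [hn]; push_cast; ring⟩)
  have key : N ⊓ sumCone Y J = sumCone Y J ⊓ ⨅ τ ∈ T, halfSpace τ := by
    apply le_antisymm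
    · intro x hx
      refine ⟨hx.2, ?_⟩
      simp only [SetLike.mem_coe, Submodule.mem_iInf, mem_halfSpace]
      exact fun τ hτ => D.nonneg τ (hTΞ hτ) x hx.1
    · rintro x ⟨hx, hx'⟩
      simp only [SetLike.mem_coe, Submodule.mem_iInf, mem_halfSpace] at hx'
      refine ⟨?_, hx⟩
      obtain ⟨y, hy, hw⟩ := mem_sumCone.1 hx
      obtain ⟨c, hc, hyc⟩ := mem_hull_finset.1 hy
      have hxy : x = y + (x - y) := by abel
      have hspan : ∀ φ ψ : V →L[ℝ] ℝ, (∀ p ∈ J, φ p = ψ p) → φ (x - y) = ψ (x - y) := by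
        intro φ ψ h
        have : ∀ z ∈ Submodule.span ℝ (J : Set V), φ z = ψ z := by
          intro z hz
          induction hz using Submodule.span_induction with
          | mem z hz => exact h z hz
          | zero => simp
          | add a b _ _ ha hb => rw [map_add, map_add, ha, hb]
          | smul c a _ ha => rw [map_smul, map_smul, ha]
        exact this _ hw
      apply D.mem
      · intro φ hφ hφJ
        have h0 : φ (x - y) = 0 := by
          have := hspan φ 0 (fun p hp => by simpa using hφJ p hp)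
          simpa using this
        rw [hxy, map_add, h0, add_zero, hyc, map_sum]
        refine Finset.sum_nonneg fun a ha => ?_
        rw [map_smul, smul_eq_mul]
        exact mul_nonneg (hc a ha) (hφ a (hY a ha).2)
      · intro ξ hξ
        obtain ⟨τ, hτ, hτY, hτJ⟩ := hT ξ hξ
        have h1 := hx' τ hτ
        have h2 : τ (x - y) = ξ (x - y) := hspan τ ξ hτJ
        have h3 : τ y ≤ ξ y := by
          rw [hyc, map_sum, map_sum]
          refine Finset.sum_le_sum fun a ha => ?_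
          rw [map_smul, map_smul, smul_eq_mul, smul_eq_mul]
          exact mul_le_mul_of_nonneg_left (hτY a ha) (hc a ha)
        have h4 : τ x = τ y + τ (x - y) := by rw [← map_add]; congr 1
        have h5 : ξ x = ξ y + ξ (x - y) := by rw [← map_add]; congr 1
        linarith
  rw [key]
  exact (isRatPoly_sumCone L Y J (fun y hy => (hY y hy).1) D.lattice).inf_halfSpaces T
    (fun τ => τ) (fun τ hτ => D.integral τ (hTΞ hτ))

end Pool.Agent.Lib.Pad47bbB
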